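import Pool.Agent.Lib.MP_3145b1_co.RB.Spec

/-!
# MP_3145b1_co, project RB, module Cls: the classes of the sets by the least element
-/

set_option autoImplicit false

namespace Pool.Agent.MP3145b1.RB

open Finset

private theorem Cls_aux (φ : Finset ℕ → ℝ) (d : ℕ) : ∀ a n : ℕ, a + d = n →
    ∑ T ∈ (Ico a n).powerset, φ T =
      φ ∅ + ∑ j ∈ Ico a n, ∑ T ∈ (Ico (j + 1) n).powerset, φ (insert j T) := by
  induction d with
  | zero =>
    intro a n h
    have e : a = n := by omega
    subst e
    simp
  | succ d ih =>
    intro a n h
    have hlt : a < n := by omega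
    have e : Ico a n = insert a (Ico (a + 1) n) := by
      ext j
      simp only [mem_Ico, mem_insert]
      omega
    have hni : a ∉ Ico (a + 1) n := by simp
    rw [e, sum_powerset_insert hni, sum_insert hni, ih (a + 1) n (by omega)]
    ring

theorem rCls : S_Cls := by
  intro φ a n h
  exact Cls_aux φ (n - a) a n (by omega)

end Pool.Agent.MP3145b1.RB
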