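import Pool.Agent.Lib.MP_3145b1_co.RB.Spec

/-!
# MP_3145b1_co, project RB, Emp: the empty set
-/

set_option autoImplicit false

namespace Pool.Agent.MP3145b1.RB

open Finset

private theorem Emp_step {σ : Type} (s : ℕ → σ → Bool → σ) (o : σ → ℝ) (k i : ℕ) (x : σ) :
    Cf s o ∅ (k + 1) i x =
      (Cf s o ∅ k (i + 1) (s i x false) + Cf s o ∅ k (i + 1) (s i x true)) / 2 := by
  simp [Cf]

private theorem Emp_abs {σ : Type} (s : ℕ → σ → Bool → σ) (o : σ → ℝ) (ho : ∀ z, o z = 1 ∨ o z = -1)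
    (k i : ℕ) (x : σ) : |Cf s o ∅ k i x| ≤ 1 := by
  induction k generalizing i x with
  | zero =>
    show |o x| ≤ 1
    rcases ho x with h | h <;> rw [h] <;> norm_num
  | succ k ih =>
    rw [Emp_step]
    have a := abs_le.mp (ih (i + 1) (s i x false))
    have b := abs_le.mp (ih (i + 1) (s i x true))
    rw [abs_le]
    constructor <;> linarith [a.1, a.2, b.1, b.2]

private theorem Emp_restrict {w : ℕ} (s : ℕ → Fin w → Bool → Fin w) (c : ℕ → Fin w → ℝ) (n k i : ℕ)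
    (x : Fin w) (h : i + k ≤ n) :
    EV s (fun _ => univ) c 0 k i x = EV s (Aj w n) c 0 k i x := by
  induction k generalizing i x with
  | zero => rfl
  | succ k ih =>
    have h1 : x ∈ Aj w n i := by
      unfold Aj
      rw [if_pos (by omega)]
      exact mem_univ x
    rw [EV_mem _ _ _ _ _ _ _ h1, EV_mem s (fun _ => univ) c 0 k i x (mem_univ x),
      ih (i + 1) _ (by omega), ih (i + 1) _ (by omega)]

private theorem Emp_cost (h2 : S_Two) (ε : ℝ) (h0 : 0 < ε) (h3 : ε ≤ 1 / 2) (c0 c1 a : ℝ)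
    (hc0 : |c0| ≤ 1) (hc1 : |c1| ≤ 1) (ha : a = ((1 - c0) / 2 - (1 - c1) / 2) / 2) :
    dl ((c0 + c1) / 2) ((c0 - c1) / 2) ≤ (16 + 8 / ε) * |a| ^ (2 - ε) := by
  have b0 := abs_le.mp hc0
  have b1 := abs_le.mp hc1
  have hW : |(c0 - c1) / 2| = 2 * |a| := by
    rw [ha, show (c0 - c1) / 2 = (-2) * (((1 - c0) / 2 - (1 - c1) / 2) / 2) by ring, abs_mul]
    norm_num
  have hU : |(c0 + c1) / 2| ≤ 1 := by
    rw [abs_le]
    constructor <;> linarith [b0.1, b0.2, b1.1, b1.2]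
  have haa : |a| ≤ 1 := by
    rw [abs_le, ha]
    constructor <;> linarith [b0.1, b0.2, b1.1, b1.2]
  have e1 := h2 ε ((c0 + c1) / 2) ((c0 - c1) / 2) h0 (by linarith)
  have e2 : |(c0 + c1) / 2| ^ ε ≤ 1 := Real.rpow_le_one (abs_nonneg _) hU h0.le
  have hP : 0 ≤ |a| ^ (2 - ε) := Real.rpow_nonneg (abs_nonneg _) _
  have e3 : |(c0 - c1) / 2| ^ (2 - ε) ≤ 4 * |a| ^ (2 - ε) := by
    rw [hW, Real.mul_rpow (by norm_num) (abs_nonneg _)]
    apply mul_le_mul_of_nonneg_right _ hP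
    calc (2 : ℝ) ^ (2 - ε) ≤ 2 ^ (2 : ℝ) :=
          Real.rpow_le_rpow_of_exponent_le (by norm_num) (by linarith)
      _ = 4 := by norm_num
  have e4 : ((c0 - c1) / 2) ^ 2 ≤ 4 * |a| ^ (2 - ε) := by
    rw [← sq_abs, hW, mul_pow]
    have h5 : |a| ^ 2 ≤ |a| ^ (2 - ε) := by
      rw [← Real.rpow_natCast |a| 2]
      exact Real.rpow_le_rpow_of_exponent_ge' (abs_nonneg _) haa (by linarith)
        (by push_cast; linarith)
    linarith
  have e5 : |(c0 - c1) / 2| ^ (2 - ε) * |(c0 + c1) / 2| ^ ε ≤ 4 * |a| ^ (2 - ε) := by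
    calc |(c0 - c1) / 2| ^ (2 - ε) * |(c0 + c1) / 2| ^ ε
        ≤ |(c0 - c1) / 2| ^ (2 - ε) * 1 :=
          mul_le_mul_of_nonneg_left e2 (Real.rpow_nonneg (abs_nonneg _) _)
      _ ≤ 4 * |a| ^ (2 - ε) := by rw [mul_one]; exact e3
  have hε : 0 ≤ 2 / ε := by positivity
  calc dl ((c0 + c1) / 2) ((c0 - c1) / 2)
      ≤ 4 * ((c0 - c1) / 2) ^ 2 + 2 / ε * (|(c0 - c1) / 2| ^ (2 - ε) * |(c0 + c1) / 2| ^ ε) := e1
    _ ≤ 4 * (4 * |a| ^ (2 - ε)) + 2 / ε * (4 * |a| ^ (2 - ε)) :=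
        add_le_add (mul_le_mul_of_nonneg_left e4 (by norm_num)) (mul_le_mul_of_nonneg_left e5 hε)
    _ = (16 + 8 / ε) * |a| ^ (2 - ε) := by ring

theorem rEmp (h1 : S_Fb) (h2 : S_Two) : S_Emp := by
  intro w ε h0 h3 hVR s o n x ho
  have hC := Emp_abs s o ho
  obtain ⟨m, hm⟩ : ∃ m : ℕ → Fin w → ℝ, ∀ i y, m i y = (1 - Cf s o ∅ (n - i) i y) / 2 :=
    ⟨_, fun _ _ => rfl⟩
  have hm01 : ∀ u y, 0 ≤ m u y ∧ m u y ≤ 1 := by
    intro u y
    have h := abs_le.mp (hC (n - u) u y)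
    rw [hm]
    constructor <;> linarith [h.1, h.2]
  have hcard : ∀ u, (Aj w n u).card ≤ w := by
    intro u
    refine (Finset.card_le_univ _).trans ?_
    rw [Fintype.card_fin]
  have hstep : ∀ u, u < n → ∀ y, Cf s o ∅ (n - u) u y =
      (Cf s o ∅ (n - (u + 1)) (u + 1) (s u y false) + Cf s o ∅ (n - (u + 1)) (u + 1) (s u y true)) / 2 := by
    intro u hu y
    rw [show n - u = (n - (u + 1)) + 1 by omega, Emp_step]
  have hlt : ∀ u, ∀ y ∈ Aj w n u, u < n := by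
    intro u y hy
    by_contra hcon
    unfold Aj at hy
    rw [if_neg hcon] at hy
    exact absurd hy (Finset.notMem_empty y)
  have hMg : ∀ u, ∀ y ∈ Aj w n u, Mg s m u y := by
    intro u y hy
    unfold Mg
    rw [hm, hm, hm, hstep u (hlt u y hy) y]
    ring
  have f1 := h1 w ε h0 h3 hVR (Fin w) s m (Aj w n) n 0 x hcard hMg hm01
  have f2 := h1 w ε h0 h3 hVR (Fin w) s (fun u y => 1 - m u y) (Aj w n) n 0 x hcard
    (by
      intro u y hy
      have h := hMg u y hy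
      unfold Mg at h ⊢
      linarith)
    (by
      intro u y
      have h := hm01 u y
      constructor <;> linarith [h.1, h.2])
  have hcP : cP s (fun u y => 1 - m u y) ε = cP s m ε := by
    funext u y
    unfold cP
    have e : stp s (fun u y => 1 - m u y) u y = - stp s m u y := by
      unfold stp
      ring
    rw [e, abs_neg]
  rw [hcP] at f2
  rw [Emp_restrict s _ n n 0 x (by omega)]
  have f3 : EV s (Aj w n) (fun i y =>
      dl ((Cf s o ∅ (n - (i + 1)) (i + 1) (s i y false) + Cf s o ∅ (n - (i + 1)) (i + 1) (s i y true)) / 2)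
         ((Cf s o ∅ (n - (i + 1)) (i + 1) (s i y false) - Cf s o ∅ (n - (i + 1)) (i + 1) (s i y true)) / 2)) 0 n 0 x ≤
      EV s (Aj w n) (fun i y => (16 + 8 / ε) * cP s m ε i y) 0 n 0 x := by
    apply EV_mono
    · intro u y _
      unfold cP
      apply Emp_cost h2 ε h0 h3 _ _ _ (hC _ _ _) (hC _ _ _)
      unfold stp
      rw [hm, hm]
    · intro u y
      exact le_rfl
  rw [EV_mul0] at f3
  have hε : 0 ≤ 8 / ε := by positivity
  have hp := hm01 0 x
  have hp2 : EV s (Aj w n) (cP s m ε) 0 n 0 x ≤ 700 * (2 * m 0 x * (1 - m 0 x)) := by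
    rcases le_total (m 0 x) (1 / 2) with h | h
    · refine f1.trans ?_
      nlinarith [hp.1]
    · refine f2.trans ?_
      nlinarith [hp.2]
  have hfin : 1 - Cf s o ∅ n 0 x ^ 2 = 4 * m 0 x * (1 - m 0 x) := by
    rw [hm, Nat.sub_zero]
    ring
  rw [hfin]
  calc _ ≤ (16 + 8 / ε) * EV s (Aj w n) (cP s m ε) 0 n 0 x := f3
    _ ≤ (16 + 8 / ε) * (700 * (2 * m 0 x * (1 - m 0 x))) :=
        mul_le_mul_of_nonneg_left hp2 (by linarith)
    _ = (5600 + 2800 / ε) * (4 * m 0 x * (1 - m 0 x)) := by ring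

end Pool.Agent.MP3145b1.RB
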