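import Pool.Agent.Lib.MP_3145b1_co.RB.Spec

/-!
# MP_3145b1_co, project RB: small steps against large steps
-/

set_option autoImplicit false

namespace Pool.Agent.MP3145b1.RB

open Finset

private theorem Exc_cS_nonneg {σ : Type} (s : ℕ → σ → Bool → σ) (m : ℕ → σ → ℝ) (ρ : ℝ) (u : ℕ) (y : σ) :
    0 ≤ cS s m ρ u y := by
  unfold cS; split_ifs
  · exact sq_nonneg _
  · exact le_rfl

private theorem Exc_cN_nonneg {σ : Type} (s : ℕ → σ → Bool → σ) (m : ℕ → σ → ℝ) (ρ : ℝ) (u : ℕ) (y : σ) :
    0 ≤ cN s m ρ u y := by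
  unfold cN; split_ifs
  · exact le_rfl
  · norm_num

private theorem Exc_N_nonneg {σ : Type} (s : ℕ → σ → Bool → σ) (m : ℕ → σ → ℝ) (A : ℕ → Finset σ) (ρ : ℝ)
    (n u : ℕ) (y : σ) : 0 ≤ EV s A (cN s m ρ) 0 n u y :=
  EV_nonneg s A (fun u y _ => Exc_cN_nonneg s m ρ u y) (fun _ _ => le_rfl) n u y

/-- (L) -/
private theorem Exc_L {σ : Type} (s : ℕ → σ → Bool → σ) (m : ℕ → σ → ℝ) (A : ℕ → Finset σ) (ρ D : ℝ)
    (n : ℕ) (ih : ∀ k < n, ∀ (t : ℕ) (x : σ),
      EV s A (cS s m ρ) 0 k t x ≤ D * (1 + EV s A (cN s m ρ) 0 k t x))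
    (k : ℕ) (hk : k ≤ n) (u : ℕ) (y : σ) (hy : y ∈ A u) (hs : ¬ |stp s m u y| ≤ ρ) :
    EV s A (cS s m ρ) 0 k u y ≤ D * EV s A (cN s m ρ) 0 k u y := by
  cases k with
  | zero =>
    rw [EV_zero, EV_zero]
    simp
  | succ k =>
    rw [EV_mem _ _ _ _ _ _ _ hy, EV_mem _ _ _ _ _ _ _ hy]
    have e1 : cS s m ρ u y = 0 := by unfold cS; rw [if_neg hs]
    have e2 : cN s m ρ u y = 1 := by unfold cN; rw [if_neg hs]
    rw [e1, e2]
    have h1 := ih k (by omega) (u + 1) (s u y false)
    have h2 := ih k (by omega) (u + 1) (s u y true)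
    linarith

theorem rExc : S_Exc := by
  intro w K c hK hc hc1 hPK σ s m A ρ n t x hρ hcard hMg
  classical
  set D : ℝ := (K + 1) ^ 2 / c * ρ ^ 2 with hD
  have hDc : D * c = (K + 1) ^ 2 * ρ ^ 2 := by
    rw [hD]; field_simp
  have hD0 : 0 ≤ D := by rw [hD]; positivity
  induction n using Nat.strong_induction_on generalizing t x with
  | _ n ih =>
    have hN := Exc_N_nonneg s m A ρ n t x
    by_cases hx : x ∈ A t
    swap
    · rw [EV_not s A (cS s m ρ) 0 n t x hx]
      have : 0 ≤ D * (1 + EV s A (cN s m ρ) 0 n t x) := mul_nonneg hD0 (by linarith)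
      simpa using this
    by_cases hs : |stp s m t x| ≤ ρ
    swap
    · have h := Exc_L s m A ρ D n ih n le_rfl t x hx hs
      linarith
    -- the main case
    set a : ℝ := m t x with ha
    set R : ℕ → Finset σ := fun u => (A u).filter (fun y => |stp s m u y| ≤ ρ ∧ |m u y - a| < K * ρ) with hR
    set E : ℕ → Set σ := fun u => {y | y ∈ A u ∧ |stp s m u y| ≤ ρ ∧ K * ρ ≤ |m u y - a|} with hE
    have hKρ : 0 < K * ρ := mul_pos (by linarith) hρ
    have memR : ∀ u y, y ∈ R u ↔ y ∈ A u ∧ |stp s m u y| ≤ ρ ∧ |m u y - a| < K * ρ := by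
      intro u y
      simp only [hR, Finset.mem_filter]
    have memE : ∀ u y, y ∈ E u ↔ y ∈ A u ∧ |stp s m u y| ≤ ρ ∧ K * ρ ≤ |m u y - a| :=
      fun u y => Iff.rfl
    have hxR : x ∈ R t := by
      rw [memR]
      refine ⟨hx, hs, ?_⟩
      rw [ha]; simpa using hKρ
    have hstp : ∀ u y, stp s (fun u y => m u y / ρ) u y = stp s m u y / ρ := by
      intro u y; unfold stp; ring
    have hpk : EV s R 0 (ind E) n t x ≤ 1 - c := by
      apply hPK σ s (fun u y => m u y / ρ) R E t n x hxR
      · intro u
        exact (Finset.card_le_card (Finset.filter_subset _ _)).trans (hcard u)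
      · intro u y hy
        rw [memR] at hy
        refine ⟨?_, ?_⟩
        · have h := hMg u y hy.1
          unfold Mg at h
          change m u y / ρ = (m (u + 1) (s u y false) / ρ + m (u + 1) (s u y true) / ρ) / 2
          rw [h]; ring
        · rw [hstp, abs_div, abs_of_pos hρ]
          rw [div_le_one hρ]
          exact hy.2.1
      · intro u y hy
        rw [memR] at hy
        rw [← sub_div, abs_div, abs_of_pos hρ, div_lt_iff₀ hρ]
        exact hy.2.2
      · intro u y hy
        rw [memE] at hy
        rw [← sub_div, abs_div, abs_of_pos hρ, le_div_iff₀ hρ]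
        exact hy.2.2
    have key : ∀ k : ℕ, ∀ u y, ((k ≤ n ∧ y ∈ R u) ∨ (k < n ∧ |m u y - a| ≤ (K + 1) * ρ)) →
        EV s A (cS s m ρ) 0 k u y ≤ (K + 1) ^ 2 * ρ ^ 2 - (m u y - a) ^ 2 +
          D * (EV s A (cN s m ρ) 0 k u y + EV s R 0 (ind E) k u y) := by
      intro k
      induction k with
      | zero =>
        intro u y h
        have hab : |m u y - a| ≤ (K + 1) * ρ := by
          rcases h with h | h
          · have := ((memR u y).1 h.2).2.2
            linarith
          · exact h.2
        have h1 := Exc_N_nonneg s m A ρ 0 u y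
        have h2 := EV_ind_nonneg s R E 0 u y
        have h3 : (m u y - a) ^ 2 ≤ ((K + 1) * ρ) ^ 2 := by
          rw [← sq_abs (m u y - a)]
          exact pow_le_pow_left₀ (abs_nonneg _) hab 2
        have h4 : 0 ≤ D * (EV s A (cN s m ρ) 0 0 u y + EV s R 0 (ind E) 0 u y) :=
          mul_nonneg hD0 (by linarith)
        rw [EV_zero s A (cS s m ρ)]
        have h5 : (0 : ℕ → σ → ℝ) u y = 0 := rfl
        rw [h5]
        nlinarith
      | succ k ihk =>
        intro u y h
        have hab : |m u y - a| ≤ (K + 1) * ρ := by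
          rcases h with h | h
          · have := ((memR u y).1 h.2).2.2
            linarith
          · exact h.2
        have h1 := Exc_N_nonneg s m A ρ (k + 1) u y
        have h2 := EV_ind_nonneg s R E (k + 1) u y
        have h3 : (m u y - a) ^ 2 ≤ ((K + 1) * ρ) ^ 2 := by
          rw [← sq_abs (m u y - a)]
          exact pow_le_pow_left₀ (abs_nonneg _) hab 2
        by_cases hyR : y ∈ R u
        · have hkn : k < n := by
            rcases h with h | h
            · omega
            · omega
          have hyA := ((memR u y).1 hyR).1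
          have hys := ((memR u y).1 hyR).2.1
          have hya := ((memR u y).1 hyR).2.2
          have hm := hMg u y hyA
          have hb : ∀ b, |m (u + 1) (s u y b) - a| ≤ (K + 1) * ρ := by
            intro b
            have e := hm.abs b
            have : |m (u + 1) (s u y b) - a| ≤ |m (u + 1) (s u y b) - m u y| + |m u y - a| := by
              have := abs_add_le (m (u + 1) (s u y b) - m u y) (m u y - a)
              rwa [sub_add_sub_cancel] at this
            linarith
          have i1 := ihk (u + 1) (s u y false) (Or.inr ⟨hkn, hb false⟩)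
          have i2 := ihk (u + 1) (s u y true) (Or.inr ⟨hkn, hb true⟩)
          have hch := hm.child
          rw [hch.1] at i1
          rw [hch.2] at i2
          rw [EV_mem s A (cS s m ρ) 0 k u y hyA, EV_mem s A (cN s m ρ) 0 k u y hyA,
            EV_mem s R 0 (ind E) k u y hyR]
          have e1 : cS s m ρ u y = stp s m u y ^ 2 := by unfold cS; rw [if_pos hys]
          have e2 : cN s m ρ u y = 0 := by unfold cN; rw [if_pos hys]
          have e3 : (0 : ℕ → σ → ℝ) u y = 0 := rfl
          rw [e1, e2, e3]
          nlinarith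
        · have hkn : k + 1 < n := by
            rcases h with h | h
            · exact absurd h.2 hyR
            · exact h.1
          by_cases hyA : y ∈ A u
          · by_cases hys : |stp s m u y| ≤ ρ
            · have hyE : y ∈ E u := by
                rw [memE]
                refine ⟨hyA, hys, ?_⟩
                by_contra hcon
                push Not at hcon
                exact hyR ((memR u y).2 ⟨hyA, hys, hcon⟩)
              rw [EV_not s R 0 (ind E) (k + 1) u y hyR, ind_mem E u y hyE]
              have := ih (k + 1) hkn u y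
              nlinarith
            · have := Exc_L s m A ρ D n ih (k + 1) hkn.le u y hyA hys
              have h4 : 0 ≤ D * EV s R 0 (ind E) (k + 1) u y := mul_nonneg hD0 h2
              nlinarith
          · rw [EV_not s A (cS s m ρ) 0 (k + 1) u y hyA]
            have h4 : 0 ≤ D * (EV s A (cN s m ρ) 0 (k + 1) u y + EV s R 0 (ind E) (k + 1) u y) :=
              mul_nonneg hD0 (by linarith)
            have h5 : (0 : ℕ → σ → ℝ) u y = 0 := rfl
            rw [h5]
            nlinarith
    have hfin := key n t x (Or.inl ⟨le_rfl, hxR⟩)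
    have hz : m t x - a = 0 := by rw [ha]; ring
    rw [hz] at hfin
    have h6 : D * EV s R 0 (ind E) n t x ≤ D * (1 - c) := mul_le_mul_of_nonneg_left hpk hD0
    nlinarith

end Pool.Agent.MP3145b1.RB
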