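import Pool.Agent.Lib.MP_3145b1_co.RB.Spec

set_option autoImplicit false

/-!
# MP_3145b1_co, project RB: variation weighted by the square of another martingale (F2)
-/

namespace Pool.Agent.MP3145b1.RB

open Finset

private theorem F2_cP_nonneg {σ : Type} (s : ℕ → σ → Bool → σ) (m : ℕ → σ → ℝ) (ε : ℝ) (u : ℕ) (y : σ) :
    0 ≤ cP s m ε u y := by
  unfold cP
  exact Real.rpow_nonneg (abs_nonneg _) _

/-- all the variation -/
private theorem F2_all (w : ℕ) (ε : ℝ) (hV : VR w ε) (σ : Type) (s : ℕ → σ → Bool → σ)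
    (m : ℕ → σ → ℝ) (A : ℕ → Finset σ) (n t : ℕ) (x : σ) (hw : ∀ u, (A u).card ≤ w)
    (hM : ∀ u, ∀ y ∈ A u, Mg s m u y) (hm : ∀ u y, 0 ≤ m u y ∧ m u y ≤ 1) :
    EV s A (cP s m ε) 0 n t x ≤ 3 := by
  have h := hV σ s m A t n x 0 1 one_pos hw hM (fun u y _ i => ⟨(hm _ _).1, by
    rw [zero_add]; exact (hm _ _).2⟩) (hm _ _).1 (by rw [zero_add]; exact (hm _ _).2)
  rwa [Real.one_rpow, mul_one] at h

/-- the part where the weight is at least `h` -/
private theorem F2_h (w : ℕ) (ε : ℝ) (hV : VR w ε) (σ : Type) (s : ℕ → σ → Bool → σ)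
    (m m' : ℕ → σ → ℝ) (A : ℕ → Finset σ) (hw : ∀ u, (A u).card ≤ w)
    (hM : ∀ u, ∀ y ∈ A u, Mg s m u y ∧ Mg s m' u y) (hm : ∀ u y, 0 ≤ m u y ∧ m u y ≤ 1)
    (hm' : ∀ u y, 0 ≤ m' u y ∧ m' u y ≤ 1) (h : ℝ) (hh : 0 < h) (n : ℕ) : ∀ (t : ℕ) (x : σ),
    EV s A (fun u y => if h ≤ m' u y then cP s m ε u y else 0) 0 n t x ≤ 3 * m' t x / h := by
  induction n with
  | zero =>
    intro t x
    rw [EV_zero]
    have := (hm' t x).1
    exact div_nonneg (by linarith) hh.le
  | succ n ih =>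
    intro t x
    have h0 := (hm' t x).1
    by_cases hx : x ∈ A t
    · by_cases h1 : h ≤ m' t x
      · have h2 : EV s A (fun u y => if h ≤ m' u y then cP s m ε u y else 0) 0 (n + 1) t x ≤
            EV s A (cP s m ε) 0 (n + 1) t x := by
          apply EV_mono
          · intro u y _
            have := F2_cP_nonneg s m ε u y
            split_ifs
            · exact le_rfl
            · exact this
          · intro u y
            exact le_rfl
        have h3 := F2_all w ε hV σ s m A (n + 1) t x hw (fun u y hy => (hM u y hy).1) hm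
        have h4 : (3 : ℝ) ≤ 3 * m' t x / h := by
          rw [le_div_iff₀ hh]
          linarith
        linarith
      · rw [EV_mem _ _ _ _ _ _ _ hx]
        simp only [h1, if_false]
        have e0 := ih (t + 1) (s t x false)
        have e1 := ih (t + 1) (s t x true)
        have e2 : m' t x = (m' (t + 1) (s t x false) + m' (t + 1) (s t x true)) / 2 := (hM t x hx).2
        have e3 : 3 * m' t x / h =
            (3 * m' (t + 1) (s t x false) / h + 3 * m' (t + 1) (s t x true) / h) / 2 := by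
          rw [e2]
          ring
        rw [e3]
        linarith
    · rw [EV_not _ _ _ _ _ _ _ hx]
      exact div_nonneg (by linarith) hh.le

/-- dyadic decomposition of the square -/
private theorem F2_sq (a : ℝ) (h0 : 0 ≤ a) (h1 : a ≤ 1) (N : ℕ) :
    a ^ 2 ≤ ∑ k ∈ range N, (1 / 4 : ℝ) ^ k * (if (1 / 2 : ℝ) ^ (k + 1) ≤ a then 1 else 0) +
      (1 / 4 : ℝ) ^ N := by
  induction N with
  | zero =>
    simp only [range_zero, sum_empty, pow_zero, zero_add]
    nlinarith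
  | succ N ih =>
    rw [sum_range_succ]
    by_cases h : (1 / 2 : ℝ) ^ (N + 1) ≤ a
    · simp only [h, if_true, mul_one]
      have : (0 : ℝ) ≤ (1 / 4) ^ (N + 1) := by positivity
      linarith
    · simp only [h, if_false, mul_zero, add_zero]
      have h2 : 0 ≤ ∑ k ∈ range N, (1 / 4 : ℝ) ^ k * (if (1 / 2 : ℝ) ^ (k + 1) ≤ a then 1 else 0) := by
        apply sum_nonneg
        intro k _
        apply mul_nonneg (by positivity)
        split_ifs <;> norm_num
      have h3 : a ^ 2 ≤ ((1 / 2 : ℝ) ^ (N + 1)) ^ 2 := pow_le_pow_left₀ h0 (not_le.mp h).le 2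
      have h4 : ((1 / 2 : ℝ) ^ (N + 1)) ^ 2 = (1 / 4) ^ (N + 1) := by
        rw [← pow_mul, mul_comm, pow_mul]
        norm_num
      linarith

private theorem F2_geo (N : ℕ) : ∑ k ∈ range N, (1 / 2 : ℝ) ^ k ≤ 2 := by
  have h : ∀ N : ℕ, ∑ k ∈ range N, (1 / 2 : ℝ) ^ k = 2 - 2 * (1 / 2) ^ N := by
    intro N
    induction N with
    | zero => simp
    | succ N ih =>
      rw [sum_range_succ, ih, pow_succ]
      ring
  rw [h]
  have : (0 : ℝ) ≤ (1 / 2) ^ N := by positivity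
  linarith

/-- the bound with the error term -/
private theorem F2_N (w : ℕ) (ε : ℝ) (hV : VR w ε) (σ : Type) (s : ℕ → σ → Bool → σ)
    (m m' : ℕ → σ → ℝ) (A : ℕ → Finset σ) (hw : ∀ u, (A u).card ≤ w)
    (hM : ∀ u, ∀ y ∈ A u, Mg s m u y ∧ Mg s m' u y) (hm : ∀ u y, 0 ≤ m u y ∧ m u y ≤ 1)
    (hm' : ∀ u y, 0 ≤ m' u y ∧ m' u y ≤ 1) (n t : ℕ) (x : σ) (N : ℕ) :
    EV s A (fun u y => cP s m ε u y * m' u y ^ 2) 0 n t x ≤ 12 * m' t x + 3 * (1 / 4) ^ N := by
  have h1 : EV s A (fun u y => cP s m ε u y * m' u y ^ 2) 0 n t x ≤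
      EV s A (fun u y => (∑ k ∈ range N, (1 / 4 : ℝ) ^ k *
        (if (1 / 2 : ℝ) ^ (k + 1) ≤ m' u y then cP s m ε u y else 0)) +
        (1 / 4 : ℝ) ^ N * cP s m ε u y) 0 n t x := by
    apply EV_mono
    · intro u y _
      have hc := F2_cP_nonneg s m ε u y
      have h2 := mul_le_mul_of_nonneg_left (F2_sq (m' u y) (hm' u y).1 (hm' u y).2 N) hc
      refine h2.trans (le_of_eq ?_)
      rw [mul_add, mul_sum]
      congr 1
      · apply sum_congr rfl
        intro k _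
        split_ifs
        · ring
        · ring
      · ring
    · intro u y
      exact le_rfl
  have h2 : EV s A (fun u y => (∑ k ∈ range N, (1 / 4 : ℝ) ^ k *
        (if (1 / 2 : ℝ) ^ (k + 1) ≤ m' u y then cP s m ε u y else 0)) +
        (1 / 4 : ℝ) ^ N * cP s m ε u y) 0 n t x =
      ∑ k ∈ range N, (1 / 4 : ℝ) ^ k *
        EV s A (fun u y => if (1 / 2 : ℝ) ^ (k + 1) ≤ m' u y then cP s m ε u y else 0) 0 n t x +
      (1 / 4 : ℝ) ^ N * EV s A (cP s m ε) 0 n t x := by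
    rw [EV_add0 s A (fun u y => ∑ k ∈ range N, (1 / 4 : ℝ) ^ k *
        (if (1 / 2 : ℝ) ^ (k + 1) ≤ m' u y then cP s m ε u y else 0))
        (fun u y => (1 / 4 : ℝ) ^ N * cP s m ε u y),
      EV_sum0 s A (range N) (fun k u y => (1 / 4 : ℝ) ^ k *
        (if (1 / 2 : ℝ) ^ (k + 1) ≤ m' u y then cP s m ε u y else 0)),
      EV_mul0 s A (cP s m ε)]
    congr 1
    apply sum_congr rfl
    intro k _
    exact EV_mul0 s A (fun u y => if (1 / 2 : ℝ) ^ (k + 1) ≤ m' u y then cP s m ε u y else 0) _ n t x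
  have h3 : ∑ k ∈ range N, (1 / 4 : ℝ) ^ k *
        EV s A (fun u y => if (1 / 2 : ℝ) ^ (k + 1) ≤ m' u y then cP s m ε u y else 0) 0 n t x ≤
      ∑ k ∈ range N, (6 * m' t x) * (1 / 2 : ℝ) ^ k := by
    apply sum_le_sum
    intro k _
    have e1 := F2_h w ε hV σ s m m' A hw hM hm hm' ((1 / 2 : ℝ) ^ (k + 1)) (by positivity) n t x
    have e2 := mul_le_mul_of_nonneg_left e1 (by positivity : (0 : ℝ) ≤ (1 / 4) ^ k)
    refine e2.trans (le_of_eq ?_)
    have e3 : (1 / 4 : ℝ) ^ k = (1 / 2) ^ k * (1 / 2) ^ k := by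
      rw [← mul_pow]
      norm_num
    rw [e3, pow_succ]
    have e4 : (1 / 2 : ℝ) ^ k ≠ 0 := by positivity
    field_simp
    ring
  have h4 : ∑ k ∈ range N, (6 * m' t x) * (1 / 2 : ℝ) ^ k ≤ 12 * m' t x := by
    rw [← mul_sum]
    have := mul_le_mul_of_nonneg_left (F2_geo N) (by linarith [(hm' t x).1] : (0 : ℝ) ≤ 6 * m' t x)
    linarith
  have h5 := mul_le_mul_of_nonneg_left
    (F2_all w ε hV σ s m A n t x hw (fun u y hy => (hM u y hy).1) hm)
    (by positivity : (0 : ℝ) ≤ (1 / 4) ^ N)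
  linarith

theorem rF2 : S_F2 := by
  intro w ε _ _ hV σ s m m' A n t x hw hM hm hm'
  have h := F2_N w ε hV σ s m m' A hw hM hm hm' n t x
  have hl : Filter.Tendsto (fun N : ℕ => 12 * m' t x + 3 * (1 / 4 : ℝ) ^ N) Filter.atTop
      (nhds (12 * m' t x + 3 * 0)) := by
    apply Filter.Tendsto.const_add
    apply Filter.Tendsto.const_mul
    exact tendsto_pow_atTop_nhds_zero_of_lt_one (by norm_num) (by norm_num)
  rw [mul_zero, add_zero] at hl
  exact ge_of_tendsto' hl h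

end Pool.Agent.MP3145b1.RB
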