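import Pool.Agent.Lib.MP_3145b1_co.RB.Spec

set_option autoImplicit false

namespace Pool.Agent.MP3145b1.RB

open Finset

private theorem Fa_cP_nonneg {σ : Type} (s : ℕ → σ → Bool → σ) (m : ℕ → σ → ℝ) (ε : ℝ) (u : ℕ) (y : σ) :
    0 ≤ cP s m ε u y := Real.rpow_nonneg (abs_nonneg _) _

private theorem Fa_c_le {σ : Type} (s : ℕ → σ → Bool → σ) (m : ℕ → σ → ℝ) (ε b : ℝ) (u : ℕ) (y : σ) :
    (if m u y < b then cP s m ε u y else 0) ≤ cP s m ε u y := by
  split_ifs
  · exact le_rfl
  · exact Fa_cP_nonneg s m ε u y

theorem rFa : S_Fa := by
  classical
  intro w ε _ _ hVR σ s m A n t x b hb hcard hMg hm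
  set c : ℕ → σ → ℝ := fun u y => if m u y < b then cP s m ε u y else 0 with hc
  set g : ℝ := 6 * (4 * b) ^ (2 - ε) with hg
  have hg0 : 0 ≤ g := by
    have : 0 ≤ (4 * b) ^ (2 - ε) := Real.rpow_nonneg (by linarith) _
    rw [hg]; linarith
  induction n using Nat.strong_induction_on generalizing t x with
  | _ n IH =>
    by_cases hx : x ∈ A t
    · rcases n with _ | n
      · rw [EV_zero]; exact hg0
      · by_cases hmb : m t x < b
        · set A' : ℕ → Finset σ := fun u => (A u).filter (fun y => m u y < 2 * b) with hA'
          have inner : ∀ k, k ≤ n + 1 → ∀ u y, (y ∈ A u → ¬ m u y < 2 * b → k < n + 1) →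
              EV s A c 0 k u y ≤ EV s A' (cP s m ε) 0 k u y + g * (m u y / (2 * b)) := by
            intro k
            induction k with
            | zero =>
              intro _ u y _
              rw [EV_zero, EV_zero]
              have : 0 ≤ g * (m u y / (2 * b)) :=
                mul_nonneg hg0 (div_nonneg (hm u y).1 (by linarith))
              simpa using this
            | succ k ihk =>
              intro hk u y hy
              by_cases hyA : y ∈ A u
              · by_cases hy2 : m u y < 2 * b
                · have hyA' : y ∈ A' u := by
                    rw [hA']; exact Finset.mem_filter.mpr ⟨hyA, hy2⟩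
                  rw [EV_mem _ _ _ _ _ _ _ hyA, EV_mem _ _ _ _ _ _ _ hyA']
                  have h1 := ihk (by omega) (u + 1) (s u y false) (fun _ _ => by omega)
                  have h2 := ihk (by omega) (u + 1) (s u y true) (fun _ _ => by omega)
                  have h3 : c u y ≤ cP s m ε u y := Fa_c_le s m ε b u y
                  have h4 : m u y = (m (u + 1) (s u y false) + m (u + 1) (s u y true)) / 2 := hMg u y hyA
                  have h5 : g * (m u y / (2 * b)) = (g * (m (u + 1) (s u y false) / (2 * b)) +
                      g * (m (u + 1) (s u y true) / (2 * b))) / 2 := by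
                    rw [h4]; ring
                  rw [h5]
                  linarith
                · have hyA' : y ∉ A' u := by
                    rw [hA']
                    intro h
                    exact hy2 (Finset.mem_filter.mp h).2
                  rw [EV_not s A' _ _ _ _ _ hyA']
                  have h1 := IH (k + 1) (hy hyA hy2) u y
                  have h2 : 1 ≤ m u y / (2 * b) := by
                    rw [le_div_iff₀ (by linarith)]
                    linarith [not_lt.mp hy2]
                  have h3 : g ≤ g * (m u y / (2 * b)) := le_mul_of_one_le_right hg0 h2
                  have h4 : (0 : ℕ → σ → ℝ) u y = 0 := rfl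
                  rw [h4]
                  linarith
              · have hyA' : y ∉ A' u := by
                  rw [hA']
                  intro h
                  exact hyA (Finset.mem_filter.mp h).1
                rw [EV_not s A' _ _ _ _ _ hyA', EV_not s A _ _ _ _ _ hyA]
                have : 0 ≤ g * (m u y / (2 * b)) :=
                  mul_nonneg hg0 (div_nonneg (hm u y).1 (by linarith))
                linarith
          have h1 := inner (n + 1) le_rfl t x (fun _ h => absurd (by linarith) h)
          have h2 : EV s A' (cP s m ε) 0 (n + 1) t x ≤ 3 * (4 * b) ^ (2 - ε) := by
            apply hVR σ s m A' t (n + 1) x 0 (4 * b) (by linarith)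
            · intro u
              exact le_trans (Finset.card_le_card (Finset.filter_subset _ _)) (hcard u)
            · intro u y hy
              exact hMg u y (Finset.mem_filter.mp hy).1
            · intro u y hy i
              have hyA := (Finset.mem_filter.mp hy).1
              have hy2 : m u y < 2 * b := (Finset.mem_filter.mp hy).2
              have h4 : m u y = (m (u + 1) (s u y false) + m (u + 1) (s u y true)) / 2 := hMg u y hyA
              have h5 := (hm (u + 1) (s u y false)).1
              have h6 := (hm (u + 1) (s u y true)).1
              cases i
              · exact ⟨h5, by linarith⟩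
              · exact ⟨h6, by linarith⟩
            · exact (hm t x).1
            · linarith
          have h3 : g * (m t x / (2 * b)) ≤ g / 2 := by
            have : m t x / (2 * b) ≤ 1 / 2 := by
              rw [div_le_iff₀ (by linarith)]
              linarith
            calc g * (m t x / (2 * b)) ≤ g * (1 / 2) := mul_le_mul_of_nonneg_left this hg0
              _ = g / 2 := by ring
          have h4 : g / 2 = 3 * (4 * b) ^ (2 - ε) := by rw [hg]; ring
          linarith
        · rw [EV_mem _ _ _ _ _ _ _ hx]
          have h0 : c t x = 0 := by
            rw [hc]
            exact if_neg hmb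
          have h1 := IH n (by omega) (t + 1) (s t x false)
          have h2 := IH n (by omega) (t + 1) (s t x true)
          rw [h0]
          linarith
    · rw [EV_not _ _ _ _ _ _ _ hx]
      exact hg0

end Pool.Agent.MP3145b1.RB
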