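import Pool.Agent.Lib.MP_3145b1_co.RB.Spec

/-!
# MP_3145b1_co, project RB: a state with another state far away
-/

set_option autoImplicit false

namespace Pool.Agent.MP3145b1.RB

open Finset

open Classical in
/-- the region of the states near the starting value at the times from `t` to `t + n` -/
private noncomputable def Far_R {σ : Type} (m : ℕ → σ → ℝ) (R : ℕ → Finset σ) (K a : ℝ) (t n : ℕ) :
    ℕ → Finset σ :=
  fun u => if t ≤ u ∧ u ≤ t + n then (R u).filter (fun x => |m u x - a| < K) else ∅

private theorem Far_mem {σ : Type} (m : ℕ → σ → ℝ) (R : ℕ → Finset σ) (K a : ℝ) (t n u : ℕ) (x : σ) :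
    x ∈ Far_R m R K a t n u ↔ (t ≤ u ∧ u ≤ t + n) ∧ x ∈ R u ∧ |m u x - a| < K := by
  unfold Far_R
  split_ifs with h
  · rw [Finset.mem_filter]
    tauto
  · simp [h]

private theorem Far_card {σ : Type} (m : ℕ → σ → ℝ) (R : ℕ → Finset σ) (K a : ℝ) (t n w : ℕ)
    (hw : ∀ u, (R u).card ≤ w + 1) (hz : ∀ u, t ≤ u → u ≤ t + n → ∃ z ∈ R u, K ≤ |m u z - a|) (u : ℕ) :
    (Far_R m R K a t n u).card ≤ w := by
  classical
  by_cases h : t ≤ u ∧ u ≤ t + n
  · obtain ⟨z, hzR, hzK⟩ := hz u h.1 h.2
    have h1 : Far_R m R K a t n u ⊂ R u := by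
      rw [Finset.ssubset_iff_of_subset]
      · refine ⟨z, hzR, fun h2 => ?_⟩
        have h3 := ((Far_mem m R K a t n u z).1 h2).2.2
        linarith
      · intro x hx
        exact ((Far_mem m R K a t n u x).1 hx).2.1
    have h2 := Finset.card_lt_card h1
    have h3 := hw u
    omega
  · have h1 : Far_R m R K a t n u = ∅ := by
      unfold Far_R
      rw [if_neg h]
    rw [h1, Finset.card_empty]
    exact Nat.zero_le w

theorem rFar : S_Far := by
  intro w K c hK hPK σ s m R E q t n y hy hw hR hE hz hq0 hq1 hq2
  obtain ⟨R', hR'⟩ : ∃ R' : ℕ → Finset σ, R' = Far_R m R K (m t y) t n := ⟨_, rfl⟩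
  have hmem : ∀ u x, x ∈ R' u ↔ (t ≤ u ∧ u ≤ t + n) ∧ x ∈ R u ∧ |m u x - m t y| < K := by
    intro u x
    rw [hR']
    exact Far_mem m R K (m t y) t n u x
  obtain ⟨E', hE'⟩ : ∃ E' : ℕ → Set σ, ∀ u x, x ∈ E' u ↔ K ≤ |m u x - m t y| :=
    ⟨fun u => {x | K ≤ |m u x - m t y|}, fun u x => Iff.rfl⟩
  have h1 : EV s R' 0 (ind E') n t y ≤ 1 - c := by
    apply hPK σ s m R' E' t n y
    · rw [hmem]
      refine ⟨⟨le_refl t, by omega⟩, hy, ?_⟩
      rw [sub_self, abs_zero]
      exact hK
    · intro u
      rw [hR']
      exact Far_card m R K (m t y) t n w hw hz u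
    · intro u x hx
      exact hR u x ((hmem u x).1 hx).2.1
    · intro u x hx
      exact ((hmem u x).1 hx).2.2
    · intro u x hx
      exact (hE' u x).1 hx
  have h2 : ∀ k u x, k + u = t + n → t ≤ u →
      1 ≤ EV s R 0 q k u x + EV s R' 0 (ind E') k u x := by
    intro k
    induction k with
    | zero =>
      intro u x hu htu
      have hu' : u = t + n := by omega
      rw [EV_zero, EV_zero]
      by_cases hxE : x ∈ E' u
      · rw [ind_mem E' u x hxE]
        have := hq0 u x
        linarith
      · have h3 := ind_nonneg E' u x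
        have h4 : |m u x - m t y| < K := by
          rw [hE'] at hxE
          exact not_le.1 hxE
        have h5 : 1 ≤ q u x := by
          by_cases hxR : x ∈ R u
          · subst hu'
            exact hq2 x hxR h4
          · refine hq1 u x hxR fun hxe => ?_
            have := hE u x hxe
            linarith
        linarith
    | succ k ih =>
      intro u x hu htu
      by_cases hx : x ∈ R' u
      · have hxR := ((hmem u x).1 hx).2.1
        rw [EV_mem s R 0 q k u x hxR, EV_mem s R' 0 (ind E') k u x hx]
        have h3 := ih (u + 1) (s u x false) (by omega) (by omega)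
        have h4 := ih (u + 1) (s u x true) (by omega) (by omega)
        simp only [Pi.zero_apply]
        linarith
      · rw [EV_not s R' 0 (ind E') (k + 1) u x hx]
        by_cases hxE : x ∈ E' u
        · rw [ind_mem E' u x hxE]
          have h3 : 0 ≤ EV s R 0 q (k + 1) u x :=
            EV_nonneg s R (fun _ _ _ => le_rfl) hq0 (k + 1) u x
          linarith
        · have h3 := ind_nonneg E' u x
          have h4 : |m u x - m t y| < K := by
            rw [hE'] at hxE
            exact not_le.1 hxE
          have hxR : x ∉ R u := fun h => hx ((hmem u x).2 ⟨⟨htu, by omega⟩, h, h4⟩)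
          have hxe : x ∉ E u := fun h => by
            have := hE u x h
            linarith
          rw [EV_not s R 0 q (k + 1) u x hxR]
          have := hq1 u x hxR hxe
          linarith
  have h3 := h2 n t y (by omega) le_rfl
  linarith

end Pool.Agent.MP3145b1.RB
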