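import Pool.Agent.Lib.MP_3145b1_co.RB.Spec

set_option autoImplicit false

/-!
# MP_3145b1_co, project RB, module Fb: variation of a martingale with a small starting value
-/

namespace Pool.Agent.MP3145b1.RB

open Finset

private theorem Fb_cP_nonneg {σ : Type} (s : ℕ → σ → Bool → σ) (m : ℕ → σ → ℝ) (ε : ℝ) (u : ℕ) (y : σ) :
    0 ≤ cP s m ε u y := Real.rpow_nonneg (abs_nonneg _) _

private theorem Fb_W (h1 : S_Fa) (w : ℕ) (ε : ℝ) (he : 0 < ε) (he2 : ε ≤ 1 / 2) (hV : VR w ε)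
    {σ : Type} (s : ℕ → σ → Bool → σ) (m : ℕ → σ → ℝ) (A : ℕ → Finset σ) (hA : ∀ u, (A u).card ≤ w)
    (hM : ∀ u, ∀ y ∈ A u, Mg s m u y) (hm : ∀ u y, 0 ≤ m u y ∧ m u y ≤ 1) (h : ℝ) (hh : 0 < h)
    (n : ℕ) : ∀ (t : ℕ) (x : σ),
    EV s A (fun u y => if h ≤ m u y ∧ m u y < 2 * h then cP s m ε u y else 0) 0 n t x ≤
      6 * (8 * h) ^ (2 - ε) / h * m t x := by
  have hg : 0 ≤ 6 * (8 * h) ^ (2 - ε) / h := by positivity
  induction n with
  | zero =>
    intro t x
    rw [EV_zero]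
    exact mul_nonneg hg (hm t x).1
  | succ n ih =>
    intro t x
    by_cases hx : x ∈ A t
    · rcases le_or_gt h (m t x) with hle | hlt
      · have h2 := h1 w ε he he2 hV σ s m A (n + 1) t x (2 * h) (by linarith) hA hM hm
        have h3 : EV s A (fun u y => if h ≤ m u y ∧ m u y < 2 * h then cP s m ε u y else 0) 0 (n + 1) t x ≤
            EV s A (fun u y => if m u y < 2 * h then cP s m ε u y else 0) 0 (n + 1) t x := by
          apply EV_mono
          · intro u y _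
            have := Fb_cP_nonneg s m ε u y
            by_cases hc : m u y < 2 * h
            · by_cases hd : h ≤ m u y
              · simp only [hc, hd, and_self, if_true]
                exact le_refl _
              · simp only [hc, hd, false_and, if_false, if_true]
                exact this
            · simp only [hc, and_false, if_false]
              exact le_refl _
          · intro u y
            exact le_refl _
        refine le_trans h3 (le_trans h2 ?_)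
        rw [show 4 * (2 * h) = 8 * h by ring]
        have h4 : 0 ≤ 6 * (8 * h) ^ (2 - ε) := by positivity
        rw [div_mul_eq_mul_div, le_div_iff₀ hh]
        exact mul_le_mul_of_nonneg_left hle h4
      · rw [EV_mem _ _ _ _ _ _ _ hx, if_neg (fun hc => absurd hc.1 (not_le.2 hlt))]
        have e1 := ih (t + 1) (s t x false)
        have e2 := ih (t + 1) (s t x true)
        have e3 := hM t x hx
        unfold Mg at e3
        rw [e3]
        have e4 : 6 * (8 * h) ^ (2 - ε) / h * ((m (t + 1) (s t x false) + m (t + 1) (s t x true)) / 2) =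
          (6 * (8 * h) ^ (2 - ε) / h * m (t + 1) (s t x false) +
            6 * (8 * h) ^ (2 - ε) / h * m (t + 1) (s t x true)) / 2 := by ring
        rw [e4]
        linarith
    · rw [EV_not _ _ _ _ _ _ _ hx]
      exact mul_nonneg hg (hm t x).1

private theorem Fb_pt (ε : ℝ) (he2 : ε ≤ 1 / 2)
    {σ : Type} (s : ℕ → σ → Bool → σ) (m : ℕ → σ → ℝ) (A : ℕ → Finset σ)
    (hM : ∀ u, ∀ y ∈ A u, Mg s m u y) (hm : ∀ u y, 0 ≤ m u y ∧ m u y ≤ 1) (u : ℕ) (y : σ)
    (hy : y ∈ A u) (N : ℕ) : cP s m ε u y ≤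
      ∑ k ∈ range N, (if (1 / 2 : ℝ) ^ (k + 1) ≤ m u y ∧ m u y < 2 * (1 / 2 : ℝ) ^ (k + 1) then cP s m ε u y else 0) +
      (if m u y < (1 / 2 : ℝ) ^ N then cP s m ε u y else 0) := by
  have hc := Fb_cP_nonneg s m ε u y
  induction N with
  | zero =>
    rw [range_zero, sum_empty, zero_add, pow_zero]
    by_cases h : m u y < 1
    · rw [if_pos h]
    · rw [if_neg h]
      have h1 : m u y = 1 := le_antisymm (hm u y).2 (not_lt.1 h)
      have h2 := hM u y hy
      unfold Mg at h2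
      rw [h1] at h2
      have h3 := (hm (u + 1) (s u y false)).2
      have h4 := (hm (u + 1) (s u y true)).2
      have h5 : stp s m u y = 0 := by
        unfold stp
        linarith
      unfold cP
      rw [h5, abs_zero, Real.zero_rpow (by linarith)]
  | succ N ih =>
    rw [sum_range_succ]
    refine le_trans ih ?_
    have e : (2 : ℝ) * (1 / 2) ^ (N + 1) = (1 / 2) ^ N := by
      rw [pow_succ]; ring
    have key : (if m u y < (1 / 2 : ℝ) ^ N then cP s m ε u y else 0) ≤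
        (if (1 / 2 : ℝ) ^ (N + 1) ≤ m u y ∧ m u y < 2 * (1 / 2 : ℝ) ^ (N + 1) then cP s m ε u y else 0) +
        (if m u y < (1 / 2 : ℝ) ^ (N + 1) then cP s m ε u y else 0) := by
      rw [e]
      by_cases h1 : m u y < (1 / 2 : ℝ) ^ (N + 1)
      · rw [if_pos h1]
        have h2 : (if m u y < (1 / 2 : ℝ) ^ N then cP s m ε u y else 0) ≤ cP s m ε u y := by
          split_ifs
          · exact le_refl _
          · exact hc
        have h3 : (0 : ℝ) ≤ (if (1 / 2 : ℝ) ^ (N + 1) ≤ m u y ∧ m u y < (1 / 2 : ℝ) ^ N then cP s m ε u y else 0) := by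
          split_ifs
          · exact hc
          · exact le_refl _
        linarith
      · rw [if_neg h1, add_zero]
        have h2 : (1 / 2 : ℝ) ^ (N + 1) ≤ m u y := not_lt.1 h1
        by_cases h3 : m u y < (1 / 2 : ℝ) ^ N
        · rw [if_pos h3, if_pos ⟨h2, h3⟩]
        · rw [if_neg h3, if_neg (fun hx => h3 hx.2)]
    linarith

private theorem Fb_pw (ε : ℝ) (he : 0 < ε) (he2 : ε ≤ 1 / 2) (k : ℕ) :
    (4 * (1 / 2 : ℝ) ^ k) ^ (2 - ε) ≤ 16 * ((1 / 2 : ℝ) ^ k * Real.sqrt (1 / 2) ^ k) ∧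
    (4 * (1 / 2 : ℝ) ^ k) ^ (2 - ε) ≤ 16 * (1 / 2 : ℝ) ^ k := by
  have ha : (0 : ℝ) < (1 / 2) ^ k := by positivity
  have ha1 : ((1 : ℝ) / 2) ^ k ≤ 1 := pow_le_one₀ (by norm_num) (by norm_num)
  set a : ℝ := (1 / 2 : ℝ) ^ k with hadef
  have h4 : (4 : ℝ) ^ (2 - ε) ≤ 16 := by
    have : (4 : ℝ) ^ (2 - ε) ≤ (4 : ℝ) ^ (2 : ℝ) :=
      Real.rpow_le_rpow_of_exponent_le (by norm_num) (by linarith)
    refine le_trans this ?_
    rw [show (2 : ℝ) = ((2 : ℕ) : ℝ) by norm_num, Real.rpow_natCast]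
    norm_num
  have h5 : a ^ (2 - ε) ≤ a ^ (3 / 2 : ℝ) := Real.rpow_le_rpow_of_exponent_ge ha ha1 (by linarith)
  have hs : Real.sqrt a = Real.sqrt (1 / 2) ^ k := by
    rw [hadef]
    have h6 : (0 : ℝ) ≤ Real.sqrt (1 / 2) ^ k := by positivity
    rw [← Real.sqrt_sq h6]
    congr 1
    rw [← pow_mul, mul_comm k 2, pow_mul, Real.sq_sqrt (by norm_num)]
  have h6 : a ^ (3 / 2 : ℝ) = a * Real.sqrt (1 / 2) ^ k := by
    rw [show (3 / 2 : ℝ) = 1 + 1 / 2 by norm_num, Real.rpow_add ha, Real.rpow_one, ← Real.sqrt_eq_rpow, hs]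
  have hr1 : Real.sqrt (1 / 2) ≤ 1 := by
    rw [Real.sqrt_le_left (by norm_num)]
    norm_num
  have hr2 : Real.sqrt (1 / 2) ^ k ≤ 1 := pow_le_one₀ (Real.sqrt_nonneg _) hr1
  have h7 : (4 * a) ^ (2 - ε) = 4 ^ (2 - ε) * a ^ (2 - ε) := Real.mul_rpow (by norm_num) ha.le
  have h8 : (4 * a) ^ (2 - ε) ≤ 16 * (a * Real.sqrt (1 / 2) ^ k) := by
    rw [h7, ← h6]
    exact mul_le_mul h4 h5 (Real.rpow_nonneg ha.le _) (by norm_num)
  refine ⟨h8, le_trans h8 ?_⟩
  have : a * Real.sqrt (1 / 2) ^ k ≤ a * 1 := mul_le_mul_of_nonneg_left hr2 ha.le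
  linarith

private theorem Fb_geo (N : ℕ) : ∑ k ∈ range N, Real.sqrt (1 / 2) ^ k ≤ 7 / 2 := by
  have h0 : 0 ≤ Real.sqrt (1 / 2) := Real.sqrt_nonneg _
  have h1 : Real.sqrt (1 / 2) ≤ 71 / 100 := by
    rw [Real.sqrt_le_left (by norm_num)]
    norm_num
  have h2 : (∑ k ∈ range N, Real.sqrt (1 / 2) ^ k) * (1 - Real.sqrt (1 / 2)) = 1 - Real.sqrt (1 / 2) ^ N := by
    have := geom_sum_mul (Real.sqrt (1 / 2)) N
    linarith
  have h3 : 0 ≤ Real.sqrt (1 / 2) ^ N := by positivity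
  have h4 : 0 ≤ ∑ k ∈ range N, Real.sqrt (1 / 2) ^ k := sum_nonneg (fun k _ => by positivity)
  nlinarith

theorem rFb (h1 : S_Fa) : S_Fb := by
  intro w ε he he2 hV σ s m A n t x hA hM hm
  have hx0 := (hm t x).1
  have key : ∀ N : ℕ, EV s A (cP s m ε) 0 n t x ≤ 672 * m t x + 96 * (1 / 2 : ℝ) ^ N := by
    intro N
    have e1 : EV s A (cP s m ε) 0 n t x ≤ EV s A (fun u y =>
        (∑ k ∈ range N, (if (1 / 2 : ℝ) ^ (k + 1) ≤ m u y ∧ m u y < 2 * (1 / 2 : ℝ) ^ (k + 1) then cP s m ε u y else 0)) +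
        (if m u y < (1 / 2 : ℝ) ^ N then cP s m ε u y else 0)) 0 n t x := by
      apply EV_mono
      · intro u y hy
        exact Fb_pt ε he2 s m A hM hm u y hy N
      · intro u y
        exact le_refl _
    refine le_trans e1 ?_
    rw [EV_add0, EV_sum0]
    have e2 : ∑ k ∈ range N, EV s A (fun u y => (if (1 / 2 : ℝ) ^ (k + 1) ≤ m u y ∧ m u y < 2 * (1 / 2 : ℝ) ^ (k + 1)
        then cP s m ε u y else 0)) 0 n t x ≤ ∑ k ∈ range N, (192 * m t x) * Real.sqrt (1 / 2) ^ k := by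
      apply sum_le_sum
      intro k _
      refine le_trans (Fb_W h1 w ε he he2 hV s m A hA hM hm ((1 / 2 : ℝ) ^ (k + 1)) (by positivity) n t x) ?_
      have e3 : (8 : ℝ) * (1 / 2) ^ (k + 1) = 4 * (1 / 2) ^ k := by
        rw [pow_succ]; ring
      rw [e3]
      have e4 := (Fb_pw ε he he2 k).1
      have ha : (0 : ℝ) < (1 / 2) ^ k := by positivity
      have e5 : 6 * (4 * (1 / 2 : ℝ) ^ k) ^ (2 - ε) / (1 / 2 : ℝ) ^ (k + 1) ≤ 192 * Real.sqrt (1 / 2) ^ k := by
        rw [div_le_iff₀ (by positivity), pow_succ]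
        nlinarith
      have := mul_le_mul_of_nonneg_right e5 hx0
      linarith
    have e6 := h1 w ε he he2 hV σ s m A n t x ((1 / 2 : ℝ) ^ N) (by positivity) hA hM hm
    have e7 := (Fb_pw ε he he2 N).2
    rw [← mul_sum] at e2
    have e8 := mul_le_mul_of_nonneg_left (Fb_geo N) (show 0 ≤ 192 * m t x by positivity)
    linarith
  by_contra hcon
  rw [not_le] at hcon
  have hpos : 0 < (EV s A (cP s m ε) 0 n t x - 672 * m t x) / 96 := by
    apply div_pos _ (by norm_num)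
    linarith
  obtain ⟨N, hN⟩ := exists_pow_lt_of_lt_one hpos (show (1 / 2 : ℝ) < 1 by norm_num)
  have := key N
  rw [lt_div_iff₀ (by norm_num)] at hN
  linarith

end Pool.Agent.MP3145b1.RB
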