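import Pool.Agent.Lib.MP_3145b1_co.RB.SpecF

/-!
# MP_3145b1_co, project RB: final statement
-/

set_option autoImplicit false

namespace Pool.Agent.MP3145b1.RB

open Finset Pool.Agent.MP3145b1

private theorem Fin_sum (n : ℕ) (g : Finset ℕ → ℝ) :
    ∑ T ∈ (range n).powerset, g T = ∑ S : Finset (Fin n), g (S.map Fin.valEmbedding) := by
  classical
  symm
  refine Finset.sum_bij (fun S _ => S.map Fin.valEmbedding) ?_ ?_ ?_ ?_
  · intro S _
    rw [mem_powerset]
    intro i hi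
    rw [mem_map] at hi
    obtain ⟨j, _, rfl⟩ := hi
    exact mem_range.2 j.2
  · intro S _ S' _ h
    exact Finset.map_injective _ h
  · intro T hT
    rw [mem_powerset] at hT
    refine ⟨univ.filter (fun i : Fin n => (i : ℕ) ∈ T), mem_univ _, ?_⟩
    ext i
    rw [mem_map]
    constructor
    · rintro ⟨j, hj, rfl⟩
      exact (mem_filter.1 hj).2
    · intro hi
      exact ⟨⟨i, mem_range.1 (hT hi)⟩, mem_filter.2 ⟨mem_univ _, hi⟩, rfl⟩
  · intro S _
    rfl

private theorem Fin_ent (t : ℝ) : t * Real.logb 2 (1 / t) = hh t / Real.log 2 := by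
  unfold hh Real.negMulLog Real.logb
  rw [one_div, Real.log_inv]
  ring

private theorem Fin_bits {n : ℕ} (π : Equiv.Perm (Fin n)) (x : Fin n → Bool) :
    bits π x = bits 1 (fun i => x (π i)) := rfl

theorem rFin (h1 : S_Var) (h2 : S_Prg) (h3 : S_Fou) (h4 : S_Prm) : S_Fin := by
  classical
  intro w
  rcases Nat.eq_zero_or_pos w with rfl | hw
  · refine ⟨1, one_pos, ?_⟩
    rintro n f ⟨π, s, x0, o, hf⟩
    exact x0.elim0
  obtain ⟨ε, hε, hε2, hVR⟩ := h1 w hw
  have hlog : 0 < Real.log 2 := Real.log_pos (by norm_num)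
  obtain ⟨C0, hC0⟩ : ∃ C0 : ℝ, C0 = 5600 + 2800 / ε + 2800 * w + (1400 + 24 * w) * w ^ 2 / ε := ⟨_, rfl⟩
  have hC0p : 0 < C0 := by
    rw [hC0]
    positivity
  refine ⟨C0 / Real.log 2, by positivity, ?_⟩
  rintro n f ⟨π, s, x0, o, hf⟩
  obtain ⟨O, hO⟩ : ∃ O : Fin w → ℝ, O = fun z => if o z then -1 else 1 := ⟨_, rfl⟩
  obtain ⟨F, hF⟩ : ∃ F : (Fin n → Bool) → ℝ, F = fun y => O (run s x0 (bits 1 y) n) := ⟨_, rfl⟩
  have hO1 : ∀ z, O z = 1 ∨ O z = -1 := by
    intro z
    rw [hO]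
    show (if o z then (-1 : ℝ) else 1) = 1 ∨ (if o z then (-1 : ℝ) else 1) = -1
    by_cases hz : o z
    · right
      rw [if_pos hz]
    · left
      rw [if_neg hz]
  have hfF : f = fun x => F (fun i => x (π i)) := by
    funext x
    rw [hf x, hF, hO]
    show _ = (if o (run s x0 (bits 1 fun i => x (π i)) n) then (-1 : ℝ) else 1)
    rw [← Fin_bits]
  have hf1 : ∀ x, f x = 1 ∨ f x = -1 := by
    intro x
    rw [hfF, hF]
    exact hO1 _
  have hc : ∀ S : Finset (Fin n), coeff F S = Cf s O (S.map Fin.valEmbedding) n 0 x0 :=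
    h3 w n s x0 O F (fun x => by rw [hF])
  have hE : specEntropy F = (∑ T ∈ (range n).powerset, hh (Cf s O T n 0 x0 ^ 2)) / Real.log 2 := by
    rw [Fin_sum, Finset.sum_div]
    unfold specEntropy
    refine Finset.sum_congr rfl fun S _ => ?_
    rw [Fin_ent, hc]
  have hI : influence F = ∑ T ∈ (range n).powerset, (T.card : ℝ) * Cf s O T n 0 x0 ^ 2 := by
    rw [Fin_sum]
    unfold influence
    refine Finset.sum_congr rfl fun S _ => ?_
    rw [hc, Finset.card_map]
  have hmain : specEntropy F ≤ C0 / Real.log 2 * influence F := by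
    have h := h2 w ε hε hε2 hVR s O n x0 hO1
    rw [← hC0, ← hI] at h
    rw [hE, div_mul_eq_mul_div]
    exact div_le_div_of_nonneg_right h hlog.le
  have hfE : specEntropy f ≤ C0 / Real.log 2 * influence f := by
    rw [hfF, (h4 n π F).1, (h4 n π F).2]
    exact hmain
  exact ⟨hfE, Q.large f hf1 _ hfE⟩

end Pool.Agent.MP3145b1.RB
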