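import Pool.Agent.Lib.MP_3145b1_co.RB.SpecF

/-!
# MP_3145b1_co, project RB: Fourier coefficients of a program (Fou)
-/

set_option autoImplicit false

namespace Pool.Agent.MP3145b1.RB

open Finset Pool.Agent.MP3145b1

/-- the state after `k` bits, starting from `x` at time `i` -/
private def Fou_rn {w : ℕ} (s : ℕ → Fin w → Bool → Fin w) : ℕ → ℕ → Fin w → (ℕ → Bool) → Fin w
  | 0, _, x, _ => x
  | k + 1, i, x, y => Fou_rn s k (i + 1) (s i x (y 0)) (fun j => y (j + 1))

private theorem Fou_last {w : ℕ} (s : ℕ → Fin w → Bool → Fin w) (k : ℕ) :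
    ∀ (i : ℕ) (x : Fin w) (y : ℕ → Bool),
      Fou_rn s (k + 1) i x y = s (i + k) (Fou_rn s k i x y) (y k) := by
  induction k with
  | zero => intro i x y; rfl
  | succ k ih =>
    intro i x y
    have h := ih (i + 1) (s i x (y 0)) (fun j => y (j + 1))
    have e : i + 1 + k = i + (k + 1) := by ring
    rw [e] at h
    exact h

private theorem Fou_run {w : ℕ} (s : ℕ → Fin w → Bool → Fin w) (x0 : Fin w) (y : ℕ → Bool) (n : ℕ) :
    run s x0 y n = Fou_rn s n 0 x0 y := by
  induction n with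
  | zero => rfl
  | succ n ih =>
    rw [Fou_last s n 0 x0 y, ← ih, Nat.zero_add]
    rfl

private theorem Fou_bits_zero {k : ℕ} (b : Bool) (x : Fin k → Bool) :
    bits (1 : Equiv.Perm (Fin (k + 1))) (Fin.cons b x : Fin (k + 1) → Bool) 0 = b := by
  unfold bits
  rw [dif_pos (Nat.succ_pos k)]
  rfl

private theorem Fou_bits_succ {k : ℕ} (b : Bool) (x : Fin k → Bool) :
    (fun j => bits (1 : Equiv.Perm (Fin (k + 1))) (Fin.cons b x : Fin (k + 1) → Bool) (j + 1)) =
      bits (1 : Equiv.Perm (Fin k)) x := by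
  funext j
  unfold bits
  by_cases h : j < k
  · rw [dif_pos h, dif_pos (Nat.succ_lt_succ h)]
    rfl
  · rw [dif_neg h, dif_neg (fun h' => h (Nat.lt_of_succ_lt_succ h'))]

private theorem Fou_main {w : ℕ} (s : ℕ → Fin w → Bool → Fin w) (o : Fin w → ℝ) (T : Finset ℕ)
    (k : ℕ) : ∀ (i : ℕ) (x : Fin w),
      ∑ x' : Fin k → Bool, o (Fou_rn s k i x (bits 1 x')) *
        ∏ j : Fin k, (if i + (j : ℕ) ∈ T then (if x' j then (-1 : ℝ) else 1) else 1) =
      2 ^ k * Cf s o T k i x := by
  induction k with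
  | zero =>
    intro i x
    simp [Cf, Fou_rn]
  | succ k ih =>
    intro i x
    have key : ∀ b : Bool, ∑ x' : Fin k → Bool,
        o (Fou_rn s (k + 1) i x (bits 1 (Fin.cons b x' : Fin (k + 1) → Bool))) *
        ∏ j : Fin (k + 1), (if i + (j : ℕ) ∈ T then
          (if (Fin.cons b x' : Fin (k + 1) → Bool) j then (-1 : ℝ) else 1) else 1) =
        (if i ∈ T then (if b then (-1 : ℝ) else 1) else 1) * (2 ^ k * Cf s o T k (i + 1) (s i x b)) := by
      intro b
      rw [← ih (i + 1) (s i x b), Finset.mul_sum]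
      refine Finset.sum_congr rfl fun x' _ => ?_
      have h1 : Fou_rn s (k + 1) i x (bits 1 (Fin.cons b x' : Fin (k + 1) → Bool)) =
          Fou_rn s k (i + 1) (s i x b) (bits 1 x') := by
        show Fou_rn s k (i + 1) (s i x (bits 1 (Fin.cons b x' : Fin (k + 1) → Bool) 0))
          (fun j => bits 1 (Fin.cons b x' : Fin (k + 1) → Bool) (j + 1)) = _
        rw [Fou_bits_zero, Fou_bits_succ]
      have h2 : ∀ j : Fin k, i + ((j.succ : Fin (k + 1)) : ℕ) = i + 1 + (j : ℕ) := by
        intro j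
        rw [Fin.val_succ]
        ring
      rw [h1, Fin.prod_univ_succ]
      simp only [Fin.cons_zero, Fin.cons_succ, h2, Fin.val_zero, Nat.add_zero]
      ring
    have hs : ∑ x' : Fin (k + 1) → Bool, o (Fou_rn s (k + 1) i x (bits 1 x')) *
        ∏ j : Fin (k + 1), (if i + (j : ℕ) ∈ T then (if x' j then (-1 : ℝ) else 1) else 1) =
        ∑ p : Bool × (Fin k → Bool),
        o (Fou_rn s (k + 1) i x (bits 1 (Fin.cons p.1 p.2 : Fin (k + 1) → Bool))) *
        ∏ j : Fin (k + 1), (if i + (j : ℕ) ∈ T then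
          (if (Fin.cons p.1 p.2 : Fin (k + 1) → Bool) j then (-1 : ℝ) else 1) else 1) := by
      symm
      exact Fintype.sum_equiv (Fin.consEquiv (fun _ : Fin (k + 1) => Bool)) _ _ (fun p => rfl)
    rw [hs, Fintype.sum_prod_type, Fintype.sum_bool, key true, key false]
    simp only [Cf, if_true, Bool.false_eq_true, if_false, ite_self]
    rw [pow_succ]
    ring

/-- **Fou** (Fourier coefficients of a program). -/
theorem rFou : S_Fou := by
  intro w n s x0 o f hf S
  have h := Fou_main s o (S.map Fin.valEmbedding) n 0 x0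
  have h2 : (0 : ℝ) < 2 ^ n := by positivity
  have h3 : ∀ x : Fin n → Bool, o (Fou_rn s n 0 x0 (bits 1 x)) *
      ∏ j : Fin n, (if 0 + (j : ℕ) ∈ S.map Fin.valEmbedding then
        (if x j then (-1 : ℝ) else 1) else 1) = f x * ∏ i ∈ S, (if x i then (-1 : ℝ) else 1) := by
    intro x
    rw [hf x, Fou_run]
    congr 1
    have h4 : ∀ j : Fin n, (0 + (j : ℕ) ∈ S.map Fin.valEmbedding ↔ j ∈ S) := by
      intro j
      rw [Nat.zero_add]
      constructor
      · intro h5
        obtain ⟨a, ha, hb⟩ := Finset.mem_map.1 h5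
        have : a = j := Fin.ext hb
        rwa [← this]
      · intro h5
        exact Finset.mem_map.2 ⟨j, h5, rfl⟩
    simp only [h4]
    rw [Finset.prod_ite_mem, Finset.univ_inter]
  unfold coeff
  rw [← Finset.sum_congr rfl (fun x _ => h3 x), h]
  field_simp

end Pool.Agent.MP3145b1.RB
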