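import Pool.Agent.Lib.MP_3145b1_co.RB.Spec

/-!
# MP_3145b1_co, project RB: induction step, positive side
-/

set_option autoImplicit false

namespace Pool.Agent.MP3145b1.RB

open Finset

/-- the states outside of `R` and `E` -/
private def InP_Kl {σ : Type} (R : ℕ → Finset σ) (E : ℕ → Set σ) : ℕ → Set σ :=
  fun u => {y | y ∉ R u ∧ y ∉ E u}

private theorem InP_pnn {σ : Type} (E : ℕ → Set σ) (u : ℕ) (y : σ) : 0 ≤ 1 - ind E u y := by
  have := ind_le E u y
  linarith

private theorem InP_kl {σ : Type} (s : ℕ → σ → Bool → σ) (R R' : ℕ → Finset σ) (E : ℕ → Set σ)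
    (hR : ∀ u y, y ∈ R' u → y ∈ R u) (n N : ℕ) (hn : n ≤ N) (u : ℕ) (y : σ) :
    EV s R' 0 (ind (InP_Kl R E)) n u y ≤ EV s R 0 (fun u y => 1 - ind E u y) N u y := by
  have base : ∀ N u y, ind (InP_Kl R E) u y ≤ EV s R 0 (fun u y => 1 - ind E u y) N u y := by
    intro N u y
    by_cases h : y ∈ InP_Kl R E u
    · rw [ind_mem _ _ _ h, EV_not _ _ _ _ _ _ _ h.1, ind_not _ _ _ h.2]
      norm_num
    · rw [ind_not _ _ _ h]
      exact EV_nonneg s R (fun _ _ _ => le_rfl) (InP_pnn E) _ _ _
  induction n generalizing N u y with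
  | zero => exact base N u y
  | succ n ih =>
    obtain ⟨N', rfl⟩ : ∃ N', N = N' + 1 := ⟨N - 1, by omega⟩
    by_cases h : y ∈ R' u
    · rw [EV_mem _ _ _ _ _ _ _ h, EV_mem _ _ _ _ _ _ _ (hR u y h)]
      have := ih N' (by omega) (u + 1) (s u y false)
      have := ih N' (by omega) (u + 1) (s u y true)
      linarith
    · rw [EV_not _ _ _ _ _ _ _ h]
      exact base _ _ _

private theorem InP_emp {σ : Type} (s : ℕ → σ → Bool → σ) (R' : ℕ → Finset σ) (B : ℕ → Set σ)
    (hB : ∀ u y, y ∈ B u → y ∈ R' u) (n t : ℕ) (x : σ) (h : ∀ y, y ∉ B (t + n)) :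
    EV s R' 0 (ind B) n t x = 0 := by
  induction n generalizing t x with
  | zero => exact ind_not _ _ _ (h x)
  | succ n ih =>
    by_cases hx : x ∈ R' t
    · have h' : ∀ y, y ∉ B (t + 1 + n) := by
        intro y
        rw [show t + 1 + n = t + (n + 1) by ring]
        exact h y
      rw [EV_mem _ _ _ _ _ _ _ hx, ih (t + 1) _ h', ih (t + 1) _ h']
      simp
    · rw [EV_not _ _ _ _ _ _ _ hx]
      exact ind_not _ _ _ (fun h' => hx (hB _ _ h'))

private theorem InP_mono {σ : Type} (s : ℕ → σ → Bool → σ) (R R' : ℕ → Finset σ) (B : ℕ → Set σ)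
    (hR : ∀ u y, y ∈ R' u → y ∈ R u) (hB : ∀ u y, y ∈ R u → y ∉ R' u → y ∉ B u)
    (n t : ℕ) (x : σ) : EV s R' 0 (ind B) n t x ≤ EV s R 0 (ind B) n t x := by
  induction n generalizing t x with
  | zero => exact le_rfl
  | succ n ih =>
    by_cases hx : x ∈ R' t
    · rw [EV_mem _ _ _ _ _ _ _ hx, EV_mem _ _ _ _ _ _ _ (hR _ _ hx)]
      have := ih (t + 1) (s t x false)
      have := ih (t + 1) (s t x true)
      linarith
    · rw [EV_not _ _ _ _ _ _ _ hx]
      by_cases hy : x ∈ R t
      · rw [ind_not _ _ _ (hB _ _ hy hx)]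
        exact EV_ind_nonneg _ _ _ _ _ _
      · rw [EV_not _ _ _ _ _ _ _ hy]

private theorem InP_sub {σ : Type} (s : ℕ → σ → Bool → σ) (A : ℕ → Finset σ) (B X Y : ℕ → Set σ)
    (h : ∀ u y, y ∈ B u → y ∈ X u ∨ y ∈ Y u) (n t : ℕ) (x : σ) :
    EV s A 0 (ind B) n t x ≤ EV s A 0 (ind X) n t x + EV s A 0 (ind Y) n t x := by
  rw [← EV_padd]
  apply EV_mono s A (fun _ _ _ => le_rfl)
  intro u y
  have hX := ind_nonneg X u y
  have hY := ind_nonneg Y u y
  by_cases hy : y ∈ B u
  · rw [ind_mem _ _ _ hy]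
    rcases h u y hy with h | h
    · rw [ind_mem _ _ _ h]
      linarith
    · rw [ind_mem _ _ _ h]
      linarith
  · rw [ind_not _ _ _ hy]
    linarith

private theorem InP_glue {σ : Type} (s : ℕ → σ → Bool → σ) (R : ℕ → Finset σ) (E Q : ℕ → Set σ)
    (c : ℝ) (hc1 : c ≤ 1) (n1 n2 t : ℕ) (x : σ)
    (hQ : ∀ u y, y ∈ Q u → y ∉ R u → y ∉ E u)
    (hF : ∀ y, y ∈ Q (t + n1) → y ∈ R (t + n1) →
      c ≤ EV s R 0 (fun u y => 1 - ind E u y) n2 (t + n1) y) :
    c * EV s R 0 (ind Q) n1 t x ≤ EV s R 0 (fun u y => 1 - ind E u y) (n1 + n2) t x := by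
  rw [← EV_pmul]
  apply EV_glue
  · intro u y hy
    by_cases h : y ∈ Q u
    · rw [ind_mem _ _ _ h, ind_not _ _ _ (hQ u y h hy)]
      linarith
    · rw [ind_not _ _ _ h]
      have := ind_le E u y
      linarith
  · intro y
    by_cases h : y ∈ Q (t + n1)
    · rw [ind_mem _ _ _ h]
      by_cases hy : y ∈ R (t + n1)
      · have := hF y h hy
        linarith
      · rw [EV_not _ _ _ _ _ _ _ hy, ind_not _ _ _ (hQ _ y h hy)]
        linarith
    · rw [ind_not _ _ _ h]
      have := EV_nonneg s R (c := 0) (fun _ _ _ => le_rfl) (InP_pnn E) n2 (t + n1) y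
      linarith

theorem rInP (h1 : S_Rch) (h2 : S_Far) (h3 : S_Mea) (h4 : S_Sid) : S_InP := by
  intro w K c hK hc hc1 hPK σ s m R E t n1 n2 x hx hcard hM hR hE hX hXp
  have hK0 : (0 : ℝ) < K := by linarith
  set a : ℝ := m t x with ha
  set R' : ℕ → Finset σ := Rin m R a (5 * K) with hR'
  set X : ℕ → Set σ := Xt m R E a (5 * K) with hXd
  have mR' : ∀ u y, y ∈ R' u ↔ y ∈ R u ∧ |m u y - a| < 5 * K := by
    intro u y
    simp only [hR', Rin, Finset.mem_filter]
  have sub : ∀ u y, y ∈ R' u → y ∈ R u := fun u y h => ((mR' u y).1 h).1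
  let Kl : ℕ → Set σ := InP_Kl R E
  let Bn : ℕ → Set σ := fun u => {y | y ∈ R' u ∧ m u y - a ≤ K}
  let KB : ℕ → Set σ := fun u => {y | y ∈ Kl u ∨ y ∈ Bn u}
  by_contra hcon
  rw [not_le] at hcon
  have hκ : EV s R 0 (fun u y => 1 - ind E u y) (n1 + n2) t x < c ^ 2 / 28 := by
    rw [EV_compl]
    linarith
  have hcc : c ^ 2 / 28 ≤ 1 / 28 := by
    have : c ^ 2 ≤ 1 := by nlinarith
    linarith
  -- (1)
  have s1 : ∀ n, n ≤ n1 → EV s R' 0 (ind Kl) n t x < 1 / 28 := by
    intro n hn
    have := InP_kl s R R' E sub n (n1 + n2) (by omega) t x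
    have e : EV s R' 0 (ind Kl) n t x = EV s R' 0 (ind (InP_Kl R E)) n t x := rfl
    rw [e]
    linarith
  -- (2)
  have s2 : ∀ n, n ≤ n1 → 1 / 14 < EV s R' 0 (ind KB) n t x := by
    intro n hn
    have g := h3 K hK σ s m R' t n x (fun u y hy => hM u y (sub u y hy))
      (fun u y hy => ((mR' u y).1 hy).2)
    have g2 := InP_sub s R' (fun u => {y | y ∉ R' u ∨ m u y - m t x ≤ K}) X KB (by
      intro u y hy
      by_cases hyR' : y ∈ R' u
      · right
        right
        rcases hy with hy | hy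
        · exact absurd hyR' hy
        · exact ⟨hyR', hy⟩
      · by_cases hyR : y ∈ R u
        · left
          refine ⟨Or.inl hyR, ?_⟩
          by_contra h
          rw [not_le] at h
          exact hyR' ((mR' u y).2 ⟨hyR, h⟩)
        · by_cases hyE : y ∈ E u
          · left
            refine ⟨Or.inr hyE, ?_⟩
            have := hE u y hyE
            linarith
          · right
            left
            exact ⟨hyR, hyE⟩) n t x
    have g3 := hX n hn
    linarith
  have s3 : ∀ n, n ≤ n1 → ∃ z, z ∈ Bn (t + n) := by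
    intro n hn
    by_contra h
    have h' : ∀ y, y ∉ Bn (t + n) := fun y hy => h ⟨y, hy⟩
    have g := InP_emp s R' Bn (fun u y hy => hy.1) n t x h'
    have g2 := InP_sub s R' KB Kl Bn (fun u y hy => hy) n t x
    have g3 := s1 n hn
    have g4 := s2 n hn
    linarith
  -- (3)
  have s4 : ∀ y ∈ R (t + n1), 3 * K < m (t + n1) y - a → m (t + n1) y - a < 5 * K + 1 →
      ∀ z ∈ Bn (t + n1), c ≤ EV s R 0 (fun u y => 1 - ind E u y) n2 (t + n1) y ∨
        c ≤ EV s R 0 (fun u y => 1 - ind E u y) n2 (t + n1) z := by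
    intro y hy hy1 hy2 z hz
    have hz1 := (mR' _ _).1 hz.1
    have hz2 : m (t + n1) z - a ≤ K := hz.2
    have hza := abs_lt.1 hz1.2
    have hyz : 2 * K ≤ |m (t + n1) y - m (t + n1) z| := by
      have : 2 * K ≤ m (t + n1) y - m (t + n1) z := by linarith
      exact le_trans this (le_abs_self _)
    have g := h1 w K c hK0 hPK σ s m R E (t + n1) y z hy hz1.1 hcard hM (by
      intro u x' hx'
      have hx1 := hE u x' hx'
      rcases le_abs.1 hx1 with h | h
      · constructor
        · exact le_trans (by linarith) (le_abs_self _)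
        · exact le_trans (by linarith) (le_abs_self _)
      · constructor
        · exact le_trans (by linarith) (neg_le_abs _)
        · exact le_trans (by linarith) (neg_le_abs _)) hyz
    rw [EV_compl, EV_compl]
    rcases g with g | g
    · left
      have := g n2
      linarith
    · right
      have := g n2
      linarith
  by_cases hB : ∀ z ∈ Bn (t + n1), c ≤ EV s R 0 (fun u y => 1 - ind E u y) n2 (t + n1) z
  · -- case (B)
    have g1 := s2 n1 le_rfl
    have g2 := InP_mono s R R' KB sub (by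
      intro u y hy hy'
      rintro (h | h)
      · exact h.1 hy
      · exact hy' h.1) n1 t x
    have g3 := InP_glue s R E KB c hc1 n1 n2 t x (by
      intro u y hy hyR
      rcases hy with h | h
      · exact h.2
      · exact absurd (sub u y h.1) hyR) (by
      intro y hy hyR
      rcases hy with h | h
      · exact absurd hyR h.1
      · exact hB y h)
    have g4 : c * (1 / 14) ≤ c * EV s R 0 (ind KB) n1 t x :=
      mul_le_mul_of_nonneg_left (by linarith) hc.le
    nlinarith
  · -- case (A)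
    push Not at hB
    obtain ⟨z, hz, hz'⟩ := hB
    have hA : ∀ y ∈ R (t + n1), 3 * K < m (t + n1) y - a → m (t + n1) y - a < 5 * K + 1 →
        c ≤ EV s R 0 (fun u y => 1 - ind E u y) n2 (t + n1) y := by
      intro y hy hy1 hy2
      rcases s4 y hy hy1 hy2 z hz with h | h
      · exact h
      · exact absurd h (not_le.2 hz')
    let Q : ℕ → Set σ := fun u => {y | (y ∉ R u ∧ y ∉ E u) ∨
      (y ∈ R u ∧ 3 * K < m u y - a ∧ m u y - a < 5 * K + 1)}
    have g1 := h4 K c hK hc σ s m R E (ind Q) t n1 x hx hM (ind_nonneg Q) (by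
      intro k u hku htu y hy hy1 hy2
      apply h2 w K c hK0 hPK σ s m R E (ind Q) u k y hy hcard hM
      · intro v x' hx'
        have hx1 := hE v x' hx'
        rcases le_abs.1 hx1 with h | h
        · exact le_trans (by linarith) (le_abs_self _)
        · exact le_trans (by linarith) (neg_le_abs _)
      · intro v hv hv'
        obtain ⟨z, hz⟩ := s3 (v - t) (by omega)
        have e : t + (v - t) = v := by omega
        rw [e] at hz
        refine ⟨z, sub v z hz.1, ?_⟩
        have hz2 : m v z - a ≤ K := hz.2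
        exact le_trans (by linarith) (neg_le_abs _)
      · exact ind_nonneg Q
      · intro v x' hx1 hx2
        rw [ind_mem Q v x' (Or.inl ⟨hx1, hx2⟩)]
      · intro x' hx1 hx2
        have hx3 := abs_lt.1 hx2
        rw [ind_mem Q (u + k) x' (Or.inr ⟨hx1, by linarith, by linarith⟩)])
    have g2 := InP_glue s R E Q c hc1 n1 n2 t x (by
      intro u y hy hyR
      rcases hy with h | h
      · exact h.2
      · exact absurd h.1 hyR) (by
      intro y hy hyR
      rcases hy with h | h
      · exact absurd hyR h.1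
      · exact hA y hyR h.2.1 h.2.2)
    have g3 : c * (1 / 28) ≤ EV s R 0 (ind Q) n1 t x :=
      le_trans (mul_le_mul_of_nonneg_left hXp hc.le) g1
    have g4 : c * (c * (1 / 28)) ≤ c * EV s R 0 (ind Q) n1 t x :=
      mul_le_mul_of_nonneg_left g3 hc.le
    nlinarith

end Pool.Agent.MP3145b1.RB
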