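import Pool.Agent.Lib.MP_3145b1_co.RB.Spec

/-!
# MP_3145b1_co, project RB: module Inf (the influence of a program)
-/

set_option autoImplicit false

namespace Pool.Agent.MP3145b1.RB

open Finset

/-- the coefficient depends only on the part of the set after the present time -/
private lemma Inf_congr {σ : Type} (s : ℕ → σ → Bool → σ) (o : σ → ℝ) (T T' : Finset ℕ) (k : ℕ) :
    ∀ (i : ℕ) (x : σ), (∀ u, i ≤ u → (u ∈ T ↔ u ∈ T')) → Cf s o T k i x = Cf s o T' k i x := by
  induction k with
  | zero => intro i x _; rfl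
  | succ k ih =>
    intro i x h
    simp only [Cf]
    rw [ih (i + 1) (s i x false) (fun u hu => h u (by omega)),
      ih (i + 1) (s i x true) (fun u hu => h u (by omega))]
    have h1 := h i le_rfl
    by_cases h2 : i ∈ T
    · rw [if_pos h2, if_pos (h1.1 h2)]
    · rw [if_neg h2, if_neg (fun h3 => h2 (h1.2 h3))]

/-- the sum of the squares of the coefficients of the sets which contain `j` -/
private noncomputable def Inf_Q {w : ℕ} (s : ℕ → Fin w → Bool → Fin w) (o : Fin w → ℝ) (n j i : ℕ)
    (x : Fin w) : ℝ :=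
  ∑ T ∈ (Ico i n).powerset, if j ∈ T then Cf s o T (n - i) i x ^ 2 else 0

private lemma Inf_ins {i n : ℕ} (h : i < n) : Ico i n = insert i (Ico (i + 1) n) := by
  ext u
  simp only [mem_Ico, mem_insert]
  omega

private lemma Inf_base {w : ℕ} (s : ℕ → Fin w → Bool → Fin w) (o : Fin w → ℝ) (n j : ℕ)
    (hj : j < n) (x : Fin w) : Inf_Q s o n j j x = J s o n j x := by
  unfold Inf_Q J
  rw [Inf_ins hj, Finset.sum_powerset_insert (by simp)]
  have e1 : ∑ T ∈ (Ico (j + 1) n).powerset,
      (if j ∈ T then Cf s o T (n - j) j x ^ 2 else 0) = 0 := by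
    refine Finset.sum_eq_zero fun T hT => ?_
    rw [if_neg]
    intro h
    have := mem_Ico.1 (mem_powerset.1 hT h)
    omega
  rw [e1, zero_add]
  refine Finset.sum_congr rfl fun T _ => ?_
  rw [if_pos (mem_insert_self j T)]

private lemma Inf_step {w : ℕ} (s : ℕ → Fin w → Bool → Fin w) (o : Fin w → ℝ) (n j i : ℕ)
    (hj : j < n) (hi : i < j) (x : Fin w) :
    Inf_Q s o n j i x =
      (Inf_Q s o n j (i + 1) (s i x false) + Inf_Q s o n j (i + 1) (s i x true)) / 2 := by
  unfold Inf_Q
  rw [Inf_ins (hi.trans hj), Finset.sum_powerset_insert (by simp), ← Finset.sum_add_distrib,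
    ← Finset.sum_add_distrib, Finset.sum_div]
  refine Finset.sum_congr rfl fun T hT => ?_
  have hiT : i ∉ T := by
    intro h
    have := mem_Ico.1 (mem_powerset.1 hT h)
    omega
  have hji : (j ∈ insert i T) ↔ j ∈ T := by
    rw [mem_insert]
    constructor
    · rintro (h | h)
      · omega
      · exact h
    · exact Or.inr
  by_cases h : j ∈ T
  · rw [if_pos h, if_pos h, if_pos h, if_pos (hji.2 h)]
    have hn : n - i = (n - (i + 1)) + 1 := by omega
    have hc : ∀ b : Bool, Cf s o (insert i T) (n - (i + 1)) (i + 1) (s i x b) =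
        Cf s o T (n - (i + 1)) (i + 1) (s i x b) := by
      intro b
      apply Inf_congr
      intro u hu
      rw [mem_insert]
      constructor
      · rintro (h2 | h2)
        · omega
        · exact h2
      · exact Or.inr
    rw [hn]
    simp only [Cf]
    rw [hc false, hc true, if_neg hiT, if_pos (mem_insert_self i T)]
    ring
  · rw [if_neg h, if_neg h, if_neg h, if_neg (fun h2 => h (hji.1 h2))]
    ring

private lemma Inf_main {w : ℕ} (s : ℕ → Fin w → Bool → Fin w) (o : Fin w → ℝ) (n j : ℕ)
    (hj : j < n) (d : ℕ) : ∀ (i : ℕ) (x : Fin w), i + d = j →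
    Inf_Q s o n j i x = ∑ z, pr s j z i x * J s o n j z := by
  induction d with
  | zero =>
    intro i x hi
    have hij : i = j := by omega
    subst hij
    rw [Inf_base s o n i hj x]
    have e1 : ∀ z : Fin w, pr s i z i x * J s o n i z = if x = z then J s o n i z else 0 := by
      intro z
      unfold pr
      rw [Nat.sub_self, EV_zero]
      split_ifs <;> simp
    rw [Finset.sum_congr rfl fun z _ => e1 z, Finset.sum_ite_eq]
    simp
  | succ d ih =>
    intro i x hi
    rw [Inf_step s o n j i hj (by omega) x, ih (i + 1) (s i x false) (by omega),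
      ih (i + 1) (s i x true) (by omega), ← Finset.sum_add_distrib, Finset.sum_div]
    refine Finset.sum_congr rfl fun z _ => ?_
    have hji : j - i = (j - (i + 1)) + 1 := by omega
    have e1 : pr s j z i x = (pr s j z (i + 1) (s i x false) + pr s j z (i + 1) (s i x true)) / 2 := by
      unfold pr
      rw [hji, EV_mem s (fun _ => univ) 0 (fun _ y => if y = z then 1 else 0) _ i x (mem_univ x)]
      simp
    rw [e1]
    ring

theorem rInf (_h1 : S_Spl) : S_Inf := by
  intro w s o n x
  have e1 : ∀ T ∈ (range n).powerset, (T.card : ℝ) * Cf s o T n 0 x ^ 2 =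
      ∑ j ∈ range n, if j ∈ T then Cf s o T n 0 x ^ 2 else 0 := by
    intro T hT
    rw [Finset.sum_ite_mem, Finset.sum_const, nsmul_eq_mul,
      Finset.inter_eq_right.2 (mem_powerset.1 hT)]
  rw [Finset.sum_congr rfl e1, Finset.sum_comm]
  refine Finset.sum_congr rfl fun j hj => ?_
  have h2 := Inf_main s o n j (mem_range.1 hj) j 0 x (by omega)
  unfold Inf_Q at h2
  rw [← h2, Nat.sub_zero, Finset.range_eq_Ico]

end Pool.Agent.MP3145b1.RB
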