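import Pool.Agent.Lib.MP_3145b1_co.RB.Spec

/-!
# MP_3145b1_co, project RB: the sets with least element `j`
-/

set_option autoImplicit false

namespace Pool.Agent.MP3145b1.RB

open Finset

private lemma Lev_card (w j u : ℕ) : (Aj w j u).card ≤ w := by
  unfold Aj
  split_ifs
  · simp
  · simp

private lemma Lev_lt {w j u : ℕ} {y : Fin w} (h : y ∈ Aj w j u) : u < j := by
  unfold Aj at h
  by_contra hc
  rw [if_neg hc] at h
  exact absurd h (Finset.notMem_empty _)

private lemma Lev_J {w : ℕ} (s : ℕ → Fin w → Bool → Fin w) (o : Fin w → ℝ) (n j : ℕ) (z : Fin w) :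
    0 ≤ J s o n j z := by
  unfold J
  exact Finset.sum_nonneg fun T _ => sq_nonneg _

private lemma Lev_one (h3 : S_Pw) (h4 : S_Spl) (w : ℕ) (ε : ℝ) (he : 0 < ε) (he2 : ε ≤ 1 / 2)
    (s : ℕ → Fin w → Bool → Fin w) (o : Fin w → ℝ) (n j : ℕ) (hj : j < n) (i : ℕ) (hi : i < j)
    (y : Fin w) (T : Finset ℕ) (hT : T ⊆ Ico (j + 1) n) :
    dl ((Cf s o (insert j T) (n - (i + 1)) (i + 1) (s i y false) +
          Cf s o (insert j T) (n - (i + 1)) (i + 1) (s i y true)) / 2)
       ((Cf s o (insert j T) (n - (i + 1)) (i + 1) (s i y false) -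
          Cf s o (insert j T) (n - (i + 1)) (i + 1) (s i y true)) / 2) ≤
      (4 * w + 2 * w ^ 2 / ε) *
        ∑ z, cP s (pr s j z) ε i y * Cf s o (insert j T) (n - j) j z ^ 2 +
      2 * w ^ 2 / ε * ∑ z, ∑ z', cP s (pr s j z) ε i y * pr s j z' i y ^ 2 *
        Cf s o (insert j T) (n - j) j z' ^ 2 := by
  obtain ⟨g1, g2, g3⟩ := h4 w s o j n hj.le
  have hT' : insert j T ⊆ Ico j n := by
    intro a ha
    rw [Finset.mem_insert] at ha
    rcases ha with rfl | ha
    · exact Finset.mem_Ico.2 ⟨le_rfl, hj⟩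
    · have := Finset.mem_Ico.1 (hT ha)
      exact Finset.mem_Ico.2 ⟨by omega, this.2⟩
  have hy : y ∈ Aj w j i := by
    unfold Aj
    rw [if_pos hi]
    exact Finset.mem_univ _
  have e0 := g1 (insert j T) hT' (i + 1) hi (s i y false)
  have e1 := g1 (insert j T) hT' (i + 1) hi (s i y true)
  have eU : (Cf s o (insert j T) (n - (i + 1)) (i + 1) (s i y false) +
          Cf s o (insert j T) (n - (i + 1)) (i + 1) (s i y true)) / 2 =
      ∑ z, pr s j z i y * Cf s o (insert j T) (n - j) j z := by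
    rw [e0, e1, ← Finset.sum_add_distrib, Finset.sum_div]
    apply Finset.sum_congr rfl
    intro z _
    have := g2 z i y hy
    unfold Mg at this
    rw [this]
    ring
  have eW : (Cf s o (insert j T) (n - (i + 1)) (i + 1) (s i y false) -
          Cf s o (insert j T) (n - (i + 1)) (i + 1) (s i y true)) / 2 =
      ∑ z, stp s (pr s j z) i y * Cf s o (insert j T) (n - j) j z := by
    rw [e0, e1, ← Finset.sum_sub_distrib, Finset.sum_div]
    apply Finset.sum_congr rfl
    intro z _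
    unfold stp
    ring
  rw [eU, eW]
  apply h3 w ε he he2
  · intro z
    unfold stp
    have a1 := g3 z (i + 1) (s i y false)
    have a2 := g3 z (i + 1) (s i y true)
    rw [abs_le]
    constructor
    · linarith [a1.1, a2.2]
    · linarith [a1.2, a2.1]
  · intro z
    exact (g3 z i y).1

private lemma Lev_cost (h3 : S_Pw) (h4 : S_Spl) (w : ℕ) (ε : ℝ) (he : 0 < ε) (he2 : ε ≤ 1 / 2)
    (s : ℕ → Fin w → Bool → Fin w) (o : Fin w → ℝ) (n j : ℕ) (hj : j < n) (i : ℕ) (hi : i < j)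
    (y : Fin w) :
    ∑ T ∈ (Ico (j + 1) n).powerset,
      dl ((Cf s o (insert j T) (n - (i + 1)) (i + 1) (s i y false) +
            Cf s o (insert j T) (n - (i + 1)) (i + 1) (s i y true)) / 2)
         ((Cf s o (insert j T) (n - (i + 1)) (i + 1) (s i y false) -
            Cf s o (insert j T) (n - (i + 1)) (i + 1) (s i y true)) / 2) ≤
      (4 * w + 2 * w ^ 2 / ε) * ∑ z, J s o n j z * cP s (pr s j z) ε i y +
      2 * w ^ 2 / ε * ∑ z, ∑ z', J s o n j z' * (cP s (pr s j z) ε i y * pr s j z' i y ^ 2) := by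
  refine (Finset.sum_le_sum fun T hT =>
    Lev_one h3 h4 w ε he he2 s o n j hj i hi y T (Finset.mem_powerset.1 hT)).trans (le_of_eq ?_)
  rw [Finset.sum_add_distrib, ← Finset.mul_sum, ← Finset.mul_sum]
  have e1 : ∑ T ∈ (Ico (j + 1) n).powerset,
        ∑ z, cP s (pr s j z) ε i y * Cf s o (insert j T) (n - j) j z ^ 2 =
      ∑ z, J s o n j z * cP s (pr s j z) ε i y := by
    rw [Finset.sum_comm]
    apply Finset.sum_congr rfl
    intro z _
    unfold J
    rw [← Finset.mul_sum, mul_comm]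
  have e2 : ∑ T ∈ (Ico (j + 1) n).powerset,
        ∑ z, ∑ z', cP s (pr s j z) ε i y * pr s j z' i y ^ 2 *
          Cf s o (insert j T) (n - j) j z' ^ 2 =
      ∑ z, ∑ z', J s o n j z' * (cP s (pr s j z) ε i y * pr s j z' i y ^ 2) := by
    rw [Finset.sum_comm]
    apply Finset.sum_congr rfl
    intro z _
    rw [Finset.sum_comm]
    apply Finset.sum_congr rfl
    intro z' _
    unfold J
    rw [← Finset.mul_sum, mul_comm]
  rw [e1, e2]

theorem rLev (h1 : S_Fb) (h2 : S_F2) (h3 : S_Pw) (h4 : S_Spl) : S_Lev := by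
  intro w ε he he2 hV s o n j x hj
  obtain ⟨g1, g2, g3⟩ := h4 w s o j n hj.le
  have hb1 : ∀ z, EV s (Aj w j) (cP s (pr s j z) ε) 0 n 0 x ≤ 700 * pr s j z 0 x := fun z =>
    h1 w ε he he2 hV (Fin w) s (pr s j z) (Aj w j) n 0 x (Lev_card w j) (g2 z) (g3 z)
  have hb2 : ∀ z z', EV s (Aj w j) (fun u y => cP s (pr s j z) ε u y * pr s j z' u y ^ 2) 0 n 0 x ≤
      12 * pr s j z' 0 x := fun z z' =>
    h2 w ε he he2 hV (Fin w) s (pr s j z) (pr s j z') (Aj w j) n 0 x (Lev_card w j)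
      (fun u y hy => ⟨g2 z u y hy, g2 z' u y hy⟩) (g3 z) (g3 z')
  have hA : (0 : ℝ) ≤ 4 * w + 2 * w ^ 2 / ε := by positivity
  have hB : (0 : ℝ) ≤ 2 * w ^ 2 / ε := by positivity
  have m1 := EV_mono s (Aj w j) (p := 0) (p' := 0)
    (c' := fun i y => (4 * w + 2 * w ^ 2 / ε) * ∑ z, J s o n j z * cP s (pr s j z) ε i y +
      2 * w ^ 2 / ε * ∑ z, ∑ z', J s o n j z' * (cP s (pr s j z) ε i y * pr s j z' i y ^ 2))
    (fun u y hy => Lev_cost h3 h4 w ε he he2 s o n j hj u (Lev_lt hy) y) (fun _ _ => le_rfl) n 0 x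
  refine m1.trans ?_
  rw [EV_add0, EV_mul0, EV_mul0, EV_sum0, EV_sum0]
  have c1 : ∑ z, EV s (Aj w j) (fun u y => J s o n j z * cP s (pr s j z) ε u y) 0 n 0 x ≤
      700 * ∑ z, pr s j z 0 x * J s o n j z := by
    rw [Finset.mul_sum]
    apply Finset.sum_le_sum
    intro z _
    rw [EV_mul0]
    have := mul_le_mul_of_nonneg_left (hb1 z) (Lev_J s o n j z)
    linarith
  have c2 : ∑ z, EV s (Aj w j) (fun u y => ∑ z', J s o n j z' *
        (cP s (pr s j z) ε u y * pr s j z' u y ^ 2)) 0 n 0 x ≤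
      w * (12 * ∑ z, pr s j z 0 x * J s o n j z) := by
    have : ∀ z ∈ (Finset.univ : Finset (Fin w)),
        EV s (Aj w j) (fun u y => ∑ z', J s o n j z' *
        (cP s (pr s j z) ε u y * pr s j z' u y ^ 2)) 0 n 0 x ≤
        12 * ∑ z, pr s j z 0 x * J s o n j z := by
      intro z _
      rw [EV_sum0, Finset.mul_sum]
      apply Finset.sum_le_sum
      intro z' _
      rw [EV_mul0]
      have := mul_le_mul_of_nonneg_left (hb2 z z') (Lev_J s o n j z')
      linarith
    refine (Finset.sum_le_sum this).trans (le_of_eq ?_)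
    rw [Finset.sum_const, Finset.card_univ, Fintype.card_fin, nsmul_eq_mul]
  have d1 := mul_le_mul_of_nonneg_left c1 hA
  have d2 := mul_le_mul_of_nonneg_left c2 hB
  have e : (4 * (w : ℝ) + 2 * w ^ 2 / ε) * (700 * ∑ z, pr s j z 0 x * J s o n j z) +
      2 * w ^ 2 / ε * (w * (12 * ∑ z, pr s j z 0 x * J s o n j z)) =
      (2800 * w + (1400 + 24 * w) * w ^ 2 / ε) * ∑ z, pr s j z 0 x * J s o n j z := by
    ring
  linarith

end Pool.Agent.MP3145b1.RB
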