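import Pool.Agent.Lib.MP_3145b1_co.RB.Spec

/-!
# MP_3145b1_co, project RB: module Mea
-/

set_option autoImplicit false

namespace Pool.Agent.MP3145b1.RB

open Finset

private theorem Mea_claim {σ : Type} (K a : ℝ) (hK : 1 ≤ K) (s : ℕ → σ → Bool → σ) (m : ℕ → σ → ℝ)
    (R : ℕ → Finset σ) (h1 : ∀ u, ∀ y ∈ R u, Mg s m u y ∧ |stp s m u y| ≤ 1)
    (h2 : ∀ u, ∀ y ∈ R u, |m u y - a| < 5 * K) (n u : ℕ) (y : σ)
    (hy : |m u y - a| ≤ 5 * K + 1) :
    K - (m u y - a) ≤ 7 * K * EV s R 0 (ind (fun u => {y | y ∉ R u ∨ m u y - a ≤ K})) n u y := by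
  have key : ∀ (u : ℕ) (y : σ), |m u y - a| ≤ 5 * K + 1 →
      K - (m u y - a) ≤ 7 * K * ind (fun u => {y | y ∉ R u ∨ m u y - a ≤ K}) u y ∨ y ∈ R u := by
    intro u y hy
    by_cases hyR : y ∈ R u
    · exact Or.inr hyR
    · left
      rw [ind_mem _ _ _ (show y ∈ {y | y ∉ R u ∨ m u y - a ≤ K} from Or.inl hyR)]
      have := (abs_le.1 hy).1
      linarith
  induction n generalizing u y with
  | zero =>
    rw [EV_zero]
    have h3 := (abs_le.1 hy).1
    by_cases hB : y ∈ {y | y ∉ R u ∨ m u y - a ≤ K}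
    · rw [ind_mem (fun u => {y | y ∉ R u ∨ m u y - a ≤ K}) u y hB]
      linarith
    · rw [ind_not (fun u => {y | y ∉ R u ∨ m u y - a ≤ K}) u y hB]
      have h4 : ¬ (m u y - a ≤ K) := fun h => hB (Or.inr h)
      linarith
  | succ n ih =>
    by_cases hyR : y ∈ R u
    · rw [EV_mem _ _ _ _ _ _ _ hyR]
      obtain ⟨hm, hs⟩ := h1 u y hyR
      have h3 := h2 u y hyR
      have hc : ∀ b : Bool, |m (u + 1) (s u y b) - a| ≤ 5 * K + 1 := by
        intro b
        have h4 := hm.abs b
        calc |m (u + 1) (s u y b) - a| = |(m (u + 1) (s u y b) - m u y) + (m u y - a)| := by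
              congr 1; ring
          _ ≤ |m (u + 1) (s u y b) - m u y| + |m u y - a| := abs_add_le _ _
          _ ≤ 5 * K + 1 := by rw [h4]; linarith
      have i1 := ih (u + 1) (s u y false) (hc false)
      have i2 := ih (u + 1) (s u y true) (hc true)
      unfold Mg at hm
      simp only [Pi.zero_apply]
      linarith
    · rw [EV_not _ _ _ _ _ _ _ hyR]
      rcases key u y hy with h | h
      · exact h
      · exact absurd h hyR

theorem rMea : S_Mea := by
  intro K hK σ s m R t n x h1 h2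
  have h := Mea_claim K (m t x) hK s m R h1 h2 n t x (by rw [sub_self, abs_zero]; linarith)
  rw [sub_self, sub_zero] at h
  have hK0 : 0 < K := by linarith
  by_contra hlt
  rw [not_le] at hlt
  have : 7 * K * EV s R 0 (ind (fun u => {y | y ∉ R u ∨ m u y - m t x ≤ K})) n t x <
      7 * K * (1 / 7) := mul_lt_mul_of_pos_left hlt (by linarith)
  linarith

end Pool.Agent.MP3145b1.RB
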