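import Pool.Agent.Lib.MP_3145b1_co.RB.Spec

set_option autoImplicit false

namespace Pool.Agent.MP3145b1.RB

open Finset

private theorem One_notE {σ : Type} {s : ℕ → σ → Bool → σ} {m : ℕ → σ → ℝ} {E : ℕ → Set σ}
    {u : ℕ} {y : σ} {a : ℝ} (hm : Mg s m u y) (hs : |stp s m u y| ≤ 1) (ha : m u y = a)
    (hE : ∀ v, ∀ z ∈ E v, (2 : ℝ) ≤ |m v z - a|) (b : Bool) : s u y b ∉ E (u + 1) := by
  intro h
  have h1 := hE (u + 1) _ h
  have h2 := hm.abs b
  rw [ha] at h2
  linarith

/-- **One** (one state per level). -/
theorem rOne : S_One := by
  intro σ s m R E t n x hx hcard hst _ hE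
  have key : ∀ n u y, y ∈ R u → m u y = m t x → EV s R 0 (ind E) n u y ≤ 1 / 2 := by
    intro n
    induction n with
    | zero =>
      intro u y _ hyx
      have hn : y ∉ E u := by
        intro h
        have h1 := hE u y h
        rw [hyx, sub_self, abs_zero] at h1
        linarith
      rw [EV_zero, ind_not E u y hn]
      norm_num
    | succ n ih =>
      intro u y hy hyx
      have hm := (hst u y hy).1
      have hs := (hst u y hy).2
      have hf : s u y false ∉ E (u + 1) := One_notE hm hs hyx hE false
      have ht : s u y true ∉ E (u + 1) := One_notE hm hs hyx hE true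
      rw [EV_mem _ _ _ _ _ _ _ hy]
      have l1 := EV_ind_le s R E n (u + 1) (s u y false)
      have l2 := EV_ind_le s R E n (u + 1) (s u y true)
      have z0 : (0 : ℕ → σ → ℝ) u y = 0 := rfl
      rw [z0]
      by_cases h0 : s u y false ∈ R (u + 1)
      · by_cases h1 : s u y true ∈ R (u + 1)
        · have he : s u y false = s u y true :=
            Finset.card_le_one.mp (hcard (u + 1)) _ h0 _ h1
          have hmm : m (u + 1) (s u y true) = m t x := by
            have h2 := hm
            unfold Mg at h2
            rw [he] at h2
            linarith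
          have i1 := ih (u + 1) (s u y true) h1 hmm
          rw [he]
          linarith
        · rw [EV_not s R 0 (ind E) n (u + 1) (s u y true) h1, ind_not E (u + 1) _ ht]
          linarith
      · rw [EV_not s R 0 (ind E) n (u + 1) (s u y false) h0, ind_not E (u + 1) _ hf]
        linarith
  have h := key n t x hx rfl
  linarith

end Pool.Agent.MP3145b1.RB
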