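import Pool.Agent.Lib.MP_3145b1_co.RB.Spec

/-!
# MP_3145b1_co, project RB, module Pnt: pointwise inequality with geometric sums
-/

set_option autoImplicit false

namespace Pool.Agent.MP3145b1.RB

open Finset

/-- the largest index with `d ≤ 2^(-k)` -/
private theorem Pnt_kap (N0 : ℕ) (d : ℝ) (hd1 : d ≤ 1) :
    ∃ κ : ℕ, κ ≤ N0 ∧ (∀ k, k ≤ N0 → (d ≤ (1 / 2 : ℝ) ^ k ↔ k ≤ κ)) ∧ (κ = N0 ∨ (1 / 2 : ℝ) ^ (κ + 1) < d) := by
  classical
  have h0 : d ≤ (1 / 2 : ℝ) ^ 0 := by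
    rw [pow_zero]
    exact hd1
  have hanti : ∀ i j : ℕ, i ≤ j → (1 / 2 : ℝ) ^ j ≤ (1 / 2) ^ i := fun i j hij =>
    pow_le_pow_of_le_one (by norm_num) (by norm_num) hij
  refine ⟨Nat.findGreatest (fun k => d ≤ (1 / 2 : ℝ) ^ k) N0, Nat.findGreatest_le N0, ?_, ?_⟩
  · intro k hk
    constructor
    · intro h
      exact Nat.le_findGreatest hk h
    · intro h
      have h1 : d ≤ (1 / 2 : ℝ) ^ Nat.findGreatest (fun k => d ≤ (1 / 2 : ℝ) ^ k) N0 :=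
        Nat.findGreatest_spec (P := fun k => d ≤ (1 / 2 : ℝ) ^ k) (Nat.zero_le N0) h0
      exact h1.trans (hanti _ _ h)
  · by_cases h : Nat.findGreatest (fun k => d ≤ (1 / 2 : ℝ) ^ k) N0 = N0
    · exact Or.inl h
    · right
      have h1 : Nat.findGreatest (fun k => d ≤ (1 / 2 : ℝ) ^ k) N0 ≤ N0 := Nat.findGreatest_le N0
      have h2 : ¬ d ≤ (1 / 2 : ℝ) ^ (Nat.findGreatest (fun k => d ≤ (1 / 2 : ℝ) ^ k) N0 + 1) :=
        Nat.findGreatest_is_greatest (P := fun k => d ≤ (1 / 2 : ℝ) ^ k) (Nat.lt_succ_self _) (by omega)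
      exact lt_of_not_ge h2

/-- geometric sums with ratio at most `1/3` -/
private theorem Pnt_geo (r : ℝ) (hr0 : 0 ≤ r) (hr : r ≤ 1 / 3) (n : ℕ) : ∑ k ∈ range n, r ^ k ≤ 3 / 2 := by
  have h1 : (1 - r) * ∑ k ∈ range n, r ^ k = 1 - r ^ n := mul_neg_geom_sum r n
  have h2 : 0 ≤ r ^ n := pow_nonneg hr0 n
  have h3 : 0 ≤ ∑ k ∈ range n, r ^ k := Finset.sum_nonneg fun _ _ => pow_nonneg hr0 _
  nlinarith

private theorem Pnt_sum1 (r : ℝ) (hr0 : 0 ≤ r) (hr : r ≤ 1 / 3) (N0 κ : ℕ) (d : ℝ) (hκ : κ ≤ N0)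
    (h : ∀ k, k ≤ N0 → (d ≤ (1 / 2 : ℝ) ^ k ↔ k ≤ κ)) :
    ∑ k ∈ range (N0 + 1), r ^ k * (if d ≤ (1 / 2 : ℝ) ^ k then (0 : ℝ) else 1) ≤
      (if κ = N0 then 0 else 3 / 2 * r ^ (κ + 1)) := by
  have h1 : ∑ k ∈ range (N0 + 1), r ^ k * (if d ≤ (1 / 2 : ℝ) ^ k then (0 : ℝ) else 1) =
      ∑ k ∈ Ico (κ + 1) (N0 + 1), r ^ k := by
    have h2 : Ico (κ + 1) (N0 + 1) ⊆ range (N0 + 1) := by
      intro k hk
      rw [mem_Ico] at hk
      exact mem_range.2 hk.2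
    rw [← Finset.sum_subset h2]
    · refine Finset.sum_congr rfl fun k hk => ?_
      rw [mem_Ico] at hk
      rw [if_neg, mul_one]
      rw [h k (by omega)]
      omega
    · intro k hk hk'
      rw [mem_range] at hk
      rw [if_pos, mul_zero]
      rw [h k (by omega)]
      by_contra hc
      exact hk' (mem_Ico.2 ⟨by omega, hk⟩)
  rw [h1]
  split_ifs with hc
  · rw [hc, Ico_self, sum_empty]
  · rw [Finset.sum_Ico_eq_sum_range]
    have h3 : ∑ k ∈ range (N0 + 1 - (κ + 1)), r ^ (κ + 1 + k) =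
        r ^ (κ + 1) * ∑ k ∈ range (N0 + 1 - (κ + 1)), r ^ k := by
      rw [Finset.mul_sum]
      exact Finset.sum_congr rfl fun k _ => pow_add r _ _
    rw [h3, mul_comm (3 / 2 : ℝ)]
    exact mul_le_mul_of_nonneg_left (Pnt_geo r hr0 hr _) (pow_nonneg hr0 _)

private theorem Pnt_sum2 (θ : ℝ) (N0 κ : ℕ) (d : ℝ) (hκ : κ ≤ N0)
    (h : ∀ k, k ≤ N0 → (d ≤ (1 / 2 : ℝ) ^ k ↔ k ≤ κ)) :
    (θ - 1) * ∑ k ∈ range (N0 + 1), θ ^ k * (if d ≤ (1 / 2 : ℝ) ^ k then d ^ 2 else 0) =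
      d ^ 2 * (θ ^ (κ + 1) - 1) := by
  have h1 : ∑ k ∈ range (N0 + 1), θ ^ k * (if d ≤ (1 / 2 : ℝ) ^ k then d ^ 2 else 0) =
      ∑ k ∈ range (κ + 1), θ ^ k * d ^ 2 := by
    have h2 : range (κ + 1) ⊆ range (N0 + 1) := range_subset_range.2 (by omega)
    rw [← Finset.sum_subset h2]
    · refine Finset.sum_congr rfl fun k hk => ?_
      rw [mem_range] at hk
      rw [if_pos]
      rw [h k (by omega)]
      omega
    · intro k hk hk'
      rw [mem_range] at hk hk'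
      rw [if_neg, mul_zero]
      rw [h k (by omega)]
      omega
  rw [h1, ← Finset.sum_mul, ← mul_geom_sum θ (κ + 1)]
  ring

theorem rPnt : S_Pnt := by
  intro C hC θ hθ N0
  have hC0 : 0 < C := by linarith
  have hθ1 : 0 < θ - 1 := by
    rw [hθ]
    have : 0 < 1 / (3 * C) := by positivity
    linarith
  have hθC : (θ - 1) * (3 * C) = 1 := by
    rw [hθ]
    field_simp
    ring
  have hθ0 : 0 < θ := by linarith
  have hθ43 : θ ≤ 4 / 3 := by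
    nlinarith
  have hr0 : 0 ≤ θ / 4 := by linarith
  have hr : θ / 4 ≤ 1 / 3 := by linarith
  have hL0 : 0 < Real.logb 2 θ := Real.logb_pos (by norm_num) (by linarith)
  have hL1 : Real.logb 2 θ ≤ 1 / 2 := by
    rw [Real.logb_le_iff_le_rpow (by norm_num) hθ0, ← Real.sqrt_eq_rpow]
    refine Real.le_sqrt_of_sq_le ?_
    nlinarith
  refine ⟨?_, ?_, Pnt_geo _ hr0 hr _, hL0, hL1⟩
  · intro d hd0 hd1
    obtain ⟨κ, hκ, hk, hcase⟩ := Pnt_kap N0 d hd1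
    have e1 := Pnt_sum1 (θ / 4) hr0 hr N0 κ d hκ hk
    have e2 := Pnt_sum2 θ N0 κ d hκ hk
    set S1 := ∑ k ∈ range (N0 + 1), (θ / 4) ^ k * (if d ≤ (1 / 2 : ℝ) ^ k then (0 : ℝ) else 1) with hS1
    set S2 := ∑ k ∈ range (N0 + 1), θ ^ k * (if d ≤ (1 / 2 : ℝ) ^ k then d ^ 2 else 0) with hS2
    have e3 : S2 = 3 * C * (d ^ 2 * (θ ^ (κ + 1) - 1)) := by
      rw [← e2]
      calc S2 = ((θ - 1) * (3 * C)) * S2 := by rw [hθC, one_mul]
        _ = _ := by ring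
    have e4 : 1 / 2 * S2 + 3 / 2 * C * d ^ 2 = 3 / 2 * C * (d ^ 2 * θ ^ (κ + 1)) := by
      rw [e3]
      ring
    rw [e4]
    have hpos : 0 ≤ 3 / 2 * C * (d ^ 2 * θ ^ (κ + 1)) := by positivity
    by_cases hc : κ = N0
    · rw [if_pos hc] at e1
      have : C * S1 ≤ C * 0 := mul_le_mul_of_nonneg_left e1 hC0.le
      linarith
    · rw [if_neg hc] at e1
      have hlt : (1 / 2 : ℝ) ^ (κ + 1) < d := hcase.resolve_left hc
      have h5 : (1 / 4 : ℝ) ^ (κ + 1) ≤ d ^ 2 := by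
        have h6 : (1 / 4 : ℝ) ^ (κ + 1) = ((1 / 2 : ℝ) ^ (κ + 1)) ^ 2 := by
          rw [← pow_mul, mul_comm, pow_mul]
          norm_num
        rw [h6]
        exact pow_le_pow_left₀ (by positivity) hlt.le 2
      have h7 : (θ / 4) ^ (κ + 1) ≤ d ^ 2 * θ ^ (κ + 1) := by
        have h8 : (θ / 4) ^ (κ + 1) = (1 / 4 : ℝ) ^ (κ + 1) * θ ^ (κ + 1) := by
          rw [← mul_pow]
          congr 1
          ring
        rw [h8]
        exact mul_le_mul_of_nonneg_right h5 (by positivity)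
      calc C * S1 ≤ C * (3 / 2 * (θ / 4) ^ (κ + 1)) := mul_le_mul_of_nonneg_left e1 hC0.le
        _ ≤ C * (3 / 2 * (d ^ 2 * θ ^ (κ + 1))) :=
            mul_le_mul_of_nonneg_left (mul_le_mul_of_nonneg_left h7 (by norm_num)) hC0.le
        _ = _ := by ring
  · intro d hd0 hd1
    obtain ⟨κ, hκ, hk, hcase⟩ := Pnt_kap N0 d hd1
    have e2 := Pnt_sum2 θ N0 κ d hκ hk
    set S2 := ∑ k ∈ range (N0 + 1), θ ^ k * (if d ≤ (1 / 2 : ℝ) ^ k then d ^ 2 else 0) with hS2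
    have e3 : 1 / (3 * C) * S2 = d ^ 2 * (θ ^ (κ + 1) - 1) := by
      rw [← e2]
      have : 1 / (3 * C) = θ - 1 := by
        rw [hθ]
        ring
      rw [this]
    rw [e3]
    have e4 : d ^ 2 + d ^ 2 * (θ ^ (κ + 1) - 1) = d ^ 2 * θ ^ (κ + 1) := by ring
    rw [e4]
    have hp1 : 0 ≤ d ^ 2 * θ ^ (κ + 1) := by positivity
    have hp2 : (0 : ℝ) ≤ (1 / 2) ^ N0 := by positivity
    by_cases hc : κ = N0
    · have h5 : d ^ (2 - Real.logb 2 θ) ≤ d := by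
        have := Real.rpow_le_rpow_of_exponent_ge' hd0 hd1 (z := 1) (y := 2 - Real.logb 2 θ)
          (by norm_num) (by linarith)
        rwa [Real.rpow_one] at this
      have h6 : d ≤ (1 / 2 : ℝ) ^ N0 := (hk N0 le_rfl).2 hc.ge
      linarith
    · have hlt : (1 / 2 : ℝ) ^ (κ + 1) < d := hcase.resolve_left hc
      have ha : (0 : ℝ) < (1 / 2) ^ (κ + 1) := by positivity
      have hd : 0 < d := ha.trans hlt
      have h7 : d ^ (2 - Real.logb 2 θ) = d ^ 2 * d ^ (-Real.logb 2 θ) := by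
        rw [sub_eq_add_neg, Real.rpow_add hd]
        norm_num
      have h8 : d ^ (-Real.logb 2 θ) ≤ ((1 / 2 : ℝ) ^ (κ + 1)) ^ (-Real.logb 2 θ) :=
        Real.rpow_le_rpow_of_nonpos ha hlt.le (by linarith)
      have h9 : ((1 / 2 : ℝ) ^ (κ + 1)) ^ (-Real.logb 2 θ) = θ ^ (κ + 1) := by
        have h10 : (2 : ℝ) ^ Real.logb 2 θ = θ := Real.rpow_logb (by norm_num) (by norm_num) hθ0
        have h11 : ((2 : ℝ) ^ (κ + 1)) ^ Real.logb 2 θ = θ ^ (κ + 1) := by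
          rw [← Real.rpow_natCast (2 : ℝ) (κ + 1), ← Real.rpow_mul (by norm_num), mul_comm,
            Real.rpow_mul (by norm_num), h10, Real.rpow_natCast]
        rw [one_div, inv_pow, Real.inv_rpow (by positivity), Real.rpow_neg (by positivity), inv_inv, h11]
      rw [h9] at h8
      have h12 : d ^ 2 * d ^ (-Real.logb 2 θ) ≤ d ^ 2 * θ ^ (κ + 1) :=
        mul_le_mul_of_nonneg_left h8 (by positivity)
      linarith

end Pool.Agent.MP3145b1.RB
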