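import Pool.Agent.Lib.MP_3145b1_co.RB.Spec

/-!
# MP_3145b1_co, project RB: the entropy of a program (`S_Prg`)
-/

set_option autoImplicit false

namespace Pool.Agent.MP3145b1.RB

open Finset

private theorem Prg_restrict {w : ℕ} (s : ℕ → Fin w → Bool → Fin w) (j : ℕ) (c : ℕ → Fin w → ℝ) (n : ℕ) :
    ∀ (t : ℕ) (x : Fin w), EV s (fun _ => univ) (fun i y => if i < j then c i y else 0) 0 n t x =
      EV s (Aj w j) c 0 n t x := by
  induction n with
  | zero => intro t x; rfl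
  | succ n ih =>
    intro t x
    rw [EV_mem _ _ _ _ _ _ _ (Finset.mem_univ x), ih, ih]
    by_cases ht : t < j
    · have hx : x ∈ Aj w j t := by
        unfold Aj
        rw [if_pos ht]
        exact Finset.mem_univ x
      rw [EV_mem _ _ _ _ _ _ _ hx, if_pos ht]
    · have hx : ∀ (u : ℕ) (y : Fin w), ¬ u < j → y ∉ Aj w j u := by
        intro u y hu
        unfold Aj
        rw [if_neg hu]
        simp
      rw [EV_not _ _ _ _ _ _ _ (hx t x ht), EV_not _ _ _ _ _ _ _ (hx (t + 1) _ (by omega)),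
        EV_not _ _ _ _ _ _ _ (hx (t + 1) _ (by omega)), if_neg ht]
      simp

private theorem Prg_range (F : ℕ → ℝ) (i n : ℕ) :
    ∑ j ∈ Ico (i + 1) n, F j = ∑ j ∈ range n, if i < j then F j else 0 := by
  rw [← Finset.sum_filter]
  apply Finset.sum_congr _ (fun _ _ => rfl)
  ext j
  simp only [Finset.mem_Ico, Finset.mem_filter, Finset.mem_range]
  omega

theorem rPrg (h1 : S_Cls) (h2 : S_Inf) (h3 : S_Chn) (h4 : S_Lev) (h5 : S_Emp) (h6 : S_Prv) : S_Prg := by
  intro w ε hε hε' hV s o n x ho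
  have ho2 : ∀ z, o z ^ 2 = 1 := by
    intro z
    rcases ho z with h | h <;> rw [h] <;> norm_num
  obtain ⟨D, hD⟩ : ∃ D : Finset ℕ → ℕ → Fin w → ℝ, D = fun T i y =>
      dl ((Cf s o T (n - (i + 1)) (i + 1) (s i y false) + Cf s o T (n - (i + 1)) (i + 1) (s i y true)) / 2)
         ((Cf s o T (n - (i + 1)) (i + 1) (s i y false) - Cf s o T (n - (i + 1)) (i + 1) (s i y true)) / 2) :=
    ⟨_, rfl⟩
  have hcost : (fun (i : ℕ) (y : Fin w) => ∑ T ∈ (Ico (i + 1) n).powerset, D T i y) =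
      fun (i : ℕ) (y : Fin w) => D ∅ i y +
        ∑ j ∈ range n, if i < j then ∑ T ∈ (Ico (j + 1) n).powerset, D (insert j T) i y else 0 := by
    funext i y
    rw [← Prg_range (fun j => ∑ T ∈ (Ico (j + 1) n).powerset, D (insert j T) i y) i n]
    by_cases hi : i + 1 ≤ n
    · exact h1 (fun T => D T i y) (i + 1) n hi
    · have e : Ico (i + 1) n = ∅ := Finset.Ico_eq_empty (by omega)
      rw [e]
      simp
  have hc := h3 w s o n x ho2
  have hc' : ∑ T ∈ (range n).powerset, hh (Cf s o T n 0 x ^ 2) =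
      EV s (fun _ => univ) (fun i y => ∑ T ∈ (Ico (i + 1) n).powerset, D T i y) 0 n 0 x := by
    rw [hc, hD]
  rw [hcost, EV_add0 s (fun _ => univ) (D ∅)
    (fun i y => ∑ j ∈ range n, if i < j then ∑ T ∈ (Ico (j + 1) n).powerset, D (insert j T) i y else 0),
    EV_sum0 s (fun _ => univ) (range n)
      (fun j i y => if i < j then ∑ T ∈ (Ico (j + 1) n).powerset, D (insert j T) i y else 0)] at hc'
  obtain ⟨C, hC⟩ : ∃ C : ℝ, C = 2800 * w + (1400 + 24 * w) * w ^ 2 / ε := ⟨_, rfl⟩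
  obtain ⟨I, hI⟩ : ∃ I : ℝ, I = ∑ T ∈ (range n).powerset, (T.card : ℝ) * Cf s o T n 0 x ^ 2 := ⟨_, rfl⟩
  have hlev : ∑ j ∈ range n, EV s (fun _ => univ)
      (fun i y => if i < j then ∑ T ∈ (Ico (j + 1) n).powerset, D (insert j T) i y else 0) 0 n 0 x ≤ C * I := by
    rw [hI, h2 w s o n x, Finset.mul_sum]
    apply Finset.sum_le_sum
    intro j hj
    rw [Prg_restrict s j (fun i y => ∑ T ∈ (Ico (j + 1) n).powerset, D (insert j T) i y) n 0 x, hC, hD]
    exact h4 w ε hε hε' hV s o n j x (Finset.mem_range.mp hj)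
  have hemp : EV s (fun _ => univ) (D ∅) 0 n 0 x ≤ (5600 + 2800 / ε) * (1 - Cf s o ∅ n 0 x ^ 2) := by
    rw [hD]
    exact h5 w ε hε hε' hV s o n x ho
  have hpar : 1 - Cf s o ∅ n 0 x ^ 2 ≤ I := by
    have e1 := h6 w s o n x ho2
    have e2 : ∑ T ∈ (range n).powerset, Cf s o T n 0 x ^ 2 ≤
        ∑ T ∈ (range n).powerset, ((T.card : ℝ) * Cf s o T n 0 x ^ 2 +
          if T = ∅ then Cf s o ∅ n 0 x ^ 2 else 0) := by
      apply Finset.sum_le_sum
      intro T _
      by_cases hT : T = ∅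
      · subst hT
        simp
      · rw [if_neg hT, add_zero]
        have h7 : (1 : ℝ) ≤ (T.card : ℝ) := by
          exact_mod_cast Finset.card_pos.mpr (Finset.nonempty_iff_ne_empty.mpr hT)
        nlinarith [sq_nonneg (Cf s o T n 0 x)]
    rw [Finset.sum_add_distrib, ← hI, Finset.sum_ite_eq', if_pos (Finset.empty_mem_powerset _), e1] at e2
    linarith
  have hε2 : 0 ≤ 5600 + 2800 / ε := by positivity
  have h8 : (5600 + 2800 / ε) * (1 - Cf s o ∅ n 0 x ^ 2) ≤ (5600 + 2800 / ε) * I :=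
    mul_le_mul_of_nonneg_left hpar hε2
  rw [hc', ← hI]
  have e9 : (5600 + 2800 / ε + 2800 * w + (1400 + 24 * w) * w ^ 2 / ε) * I =
      (5600 + 2800 / ε) * I + C * I := by
    rw [hC]; ring
  rw [e9]
  linarith

end Pool.Agent.MP3145b1.RB
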