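import Pool.Agent.Lib.MP_3145b1_co.RB.SpecF

/-!
# MP_3145b1_co, project RB, module Prm: order of the variables
-/

set_option autoImplicit false

namespace Pool.Agent.MP3145b1.RB

open Finset Pool.Agent.MP3145b1

private theorem Prm_coeff (n : ℕ) (π : Equiv.Perm (Fin n)) (f : (Fin n → Bool) → ℝ)
    (S : Finset (Fin n)) :
    coeff (fun x => f (fun i => x (π i))) S = coeff f (Equiv.finsetCongr π.symm S) := by
  unfold coeff
  congr 1
  have h := Equiv.sum_comp (Equiv.arrowCongr π (Equiv.refl Bool))
    (fun x : Fin n → Bool => f (fun i => x (π i)) * ∏ i ∈ S, (if x i then (-1 : ℝ) else 1))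
  rw [← h]
  apply Finset.sum_congr rfl
  intro y _
  have h1 : (fun i => (Equiv.arrowCongr π (Equiv.refl Bool)) y (π i)) = y := by
    funext i
    simp [Equiv.arrowCongr]
  rw [h1]
  congr 1
  rw [Equiv.finsetCongr_apply, Finset.prod_map]
  apply Finset.prod_congr rfl
  intro i _
  simp [Equiv.arrowCongr]

theorem rPrm : S_Prm := by
  intro n π f
  constructor
  · unfold specEntropy
    rw [← Equiv.sum_comp (Equiv.finsetCongr π.symm)
      (fun S => coeff f S ^ 2 * Real.logb 2 (1 / coeff f S ^ 2))]
    apply Finset.sum_congr rfl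
    intro S _
    rw [Prm_coeff]
  · unfold influence
    rw [← Equiv.sum_comp (Equiv.finsetCongr π.symm) (fun T => (T.card : ℝ) * coeff f T ^ 2)]
    apply Finset.sum_congr rfl
    intro S _
    rw [Prm_coeff, Equiv.finsetCongr_apply, Finset.card_map]

end Pool.Agent.MP3145b1.RB
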