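import Pool.Agent.Lib.MP_3145b1_co.RB.Spec

/-!
# MP_3145b1_co, project RB: Parseval (`S_Prv`)
-/

set_option autoImplicit false

namespace Pool.Agent.MP3145b1.RB

open Finset

private theorem Prv_congr {σ : Type} (s : ℕ → σ → Bool → σ) (o : σ → ℝ) (T T' : Finset ℕ) (k : ℕ) :
    ∀ (i : ℕ) (x : σ), (∀ j, i ≤ j → (j ∈ T ↔ j ∈ T')) → Cf s o T k i x = Cf s o T' k i x := by
  induction k with
  | zero => intro i x _; rfl
  | succ k ih =>
    intro i x h
    simp only [Cf]
    rw [ih (i + 1) (s i x false) (fun j hj => h j (by omega)),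
      ih (i + 1) (s i x true) (fun j hj => h j (by omega))]
    have h2 : (if i ∈ T then (-1 : ℝ) else 1) = if i ∈ T' then (-1 : ℝ) else 1 := by
      by_cases hi : i ∈ T
      · rw [if_pos hi, if_pos ((h i le_rfl).1 hi)]
      · rw [if_neg hi, if_neg (fun h3 => hi ((h i le_rfl).2 h3))]
    rw [h2]

private theorem Prv_gen (w : ℕ) (s : ℕ → Fin w → Bool → Fin w) (o : Fin w → ℝ) (ho : ∀ z, o z ^ 2 = 1)
    (k : ℕ) : ∀ (i : ℕ) (x : Fin w), ∑ T ∈ (Ico i (i + k)).powerset, Cf s o T k i x ^ 2 = 1 := by
  induction k with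
  | zero =>
    intro i x
    rw [Nat.add_zero, Finset.Ico_self, Finset.powerset_empty, Finset.sum_singleton]
    exact ho x
  | succ k ih =>
    intro i x
    have h1 : Ico i (i + (k + 1)) = insert i (Ico (i + 1) (i + 1 + k)) := by
      ext j
      simp only [Finset.mem_insert, Finset.mem_Ico]
      omega
    have h2 : i ∉ Ico (i + 1) (i + 1 + k) := by
      simp only [Finset.mem_Ico]
      omega
    rw [h1, Finset.sum_powerset_insert h2, ← Finset.sum_add_distrib]
    have h3 : ∀ T ∈ (Ico (i + 1) (i + 1 + k)).powerset,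
        Cf s o T (k + 1) i x ^ 2 + Cf s o (insert i T) (k + 1) i x ^ 2 =
        (Cf s o T k (i + 1) (s i x false) ^ 2 + Cf s o T k (i + 1) (s i x true) ^ 2) / 2 := by
      intro T hT
      rw [Finset.mem_powerset] at hT
      have hi : i ∉ T := fun h => h2 (hT h)
      have hc : ∀ y, Cf s o (insert i T) k (i + 1) y = Cf s o T k (i + 1) y := by
        intro y
        apply Prv_congr
        intro j hj
        rw [Finset.mem_insert]
        constructor
        · rintro (rfl | h)
          · omega
          · exact h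
        · exact Or.inr
      simp only [Cf]
      rw [if_neg hi, if_pos (Finset.mem_insert_self i T), hc, hc]
      ring
    rw [Finset.sum_congr rfl h3, ← Finset.sum_div, Finset.sum_add_distrib, ih, ih]
    norm_num

theorem rPrv : S_Prv := by
  intro w s o n x ho
  have h := Prv_gen w s o ho n 0 x
  rw [Nat.zero_add, ← Finset.range_eq_Ico] at h
  exact h

end Pool.Agent.MP3145b1.RB
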