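import Pool.Agent.Lib.MP_3145b1_co.RB.Spec

/-!
# MP_3145b1_co, project RB, module Pw: the two-point inequality for sums
-/

set_option autoImplicit false

namespace Pool.Agent.MP3145b1.RB

open Finset

private theorem Pw_split (ε x : ℝ) (hx : 0 ≤ x) : x ^ (2 - ε) * x ^ ε = x ^ 2 := by
  have h2 : (2 - ε) + ε ≠ 0 := by
    have : (2 - ε) + ε = 2 := by ring
    rw [this]; norm_num
  rw [← Real.rpow_add' hx h2]
  have : (2 - ε) + ε = ((2 : ℕ) : ℝ) := by push_cast; ring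
  rw [this, Real.rpow_natCast]

private theorem Pw_mix (ε X Y : ℝ) (h0 : 0 < ε) (h1 : ε ≤ 1 / 2) (hX : 0 ≤ X) (hY : 0 ≤ Y) :
    X ^ (2 - ε) * Y ^ ε ≤ X ^ 2 + Y ^ 2 := by
  have h2 : 0 ≤ 2 - ε := by linarith
  rcases le_total X Y with h | h
  · have h3 : X ^ (2 - ε) ≤ Y ^ (2 - ε) := Real.rpow_le_rpow hX h h2
    have h4 : 0 ≤ Y ^ ε := Real.rpow_nonneg hY _
    calc X ^ (2 - ε) * Y ^ ε ≤ Y ^ (2 - ε) * Y ^ ε := mul_le_mul_of_nonneg_right h3 h4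
      _ = Y ^ 2 := Pw_split ε Y hY
      _ ≤ X ^ 2 + Y ^ 2 := by nlinarith [sq_nonneg X]
  · have h3 : Y ^ ε ≤ X ^ ε := Real.rpow_le_rpow hY h h0.le
    have h4 : 0 ≤ X ^ (2 - ε) := Real.rpow_nonneg hX _
    calc X ^ (2 - ε) * Y ^ ε ≤ X ^ (2 - ε) * X ^ ε := mul_le_mul_of_nonneg_left h3 h4
      _ = X ^ 2 := Pw_split ε X hX
      _ ≤ X ^ 2 + Y ^ 2 := by nlinarith [sq_nonneg Y]

private theorem Pw_main (w : ℕ) (ε : ℝ) (h0 : 0 < ε) (h1 : ε ≤ 1 / 2) (a m G : Fin w → ℝ)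
    (hm : ∀ z, 0 ≤ m z) :
    |∑ z, a z * G z| ^ (2 - ε) * |∑ z, m z * G z| ^ ε ≤
      (w : ℝ) ^ 2 * (∑ z, |a z| ^ (2 - ε) * G z ^ 2 +
        ∑ z, ∑ z', |a z| ^ (2 - ε) * m z' ^ 2 * G z' ^ 2) := by
  have h2 : 0 < 2 - ε := by linarith
  rcases Nat.eq_zero_or_pos w with hw | hw
  · subst hw
    simp [Real.zero_rpow h2.ne']
  · haveI : Nonempty (Fin w) := ⟨⟨0, hw⟩⟩
    obtain ⟨z0, -, hz0⟩ := Finset.exists_max_image (univ : Finset (Fin w)) (fun z => |a z * G z|)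
      ⟨⟨0, hw⟩, mem_univ _⟩
    obtain ⟨z1, -, hz1⟩ := Finset.exists_max_image (univ : Finset (Fin w)) (fun z => |m z * G z|)
      ⟨⟨0, hw⟩, mem_univ _⟩
    have hW : |∑ z, a z * G z| ≤ (w : ℝ) * |a z0 * G z0| := by
      calc |∑ z, a z * G z| ≤ ∑ z, |a z * G z| := Finset.abs_sum_le_sum_abs _ _
        _ ≤ ∑ _z : Fin w, |a z0 * G z0| := Finset.sum_le_sum hz0
        _ = (w : ℝ) * |a z0 * G z0| := by simp
    have hU : |∑ z, m z * G z| ≤ (w : ℝ) * |m z1 * G z1| := by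
      calc |∑ z, m z * G z| ≤ ∑ z, |m z * G z| := Finset.abs_sum_le_sum_abs _ _
        _ ≤ ∑ _z : Fin w, |m z1 * G z1| := Finset.sum_le_sum hz1
        _ = (w : ℝ) * |m z1 * G z1| := by simp
    have hw0 : (0 : ℝ) ≤ (w : ℝ) := Nat.cast_nonneg w
    have e1 : |∑ z, a z * G z| ^ (2 - ε) ≤
        (w : ℝ) ^ (2 - ε) * (|a z0| ^ (2 - ε) * |G z0| ^ (2 - ε)) := by
      calc |∑ z, a z * G z| ^ (2 - ε) ≤ ((w : ℝ) * |a z0 * G z0|) ^ (2 - ε) :=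
            Real.rpow_le_rpow (abs_nonneg _) hW h2.le
        _ = (w : ℝ) ^ (2 - ε) * (|a z0| ^ (2 - ε) * |G z0| ^ (2 - ε)) := by
            rw [Real.mul_rpow hw0 (abs_nonneg _), abs_mul,
              Real.mul_rpow (abs_nonneg _) (abs_nonneg _)]
    have e2 : |∑ z, m z * G z| ^ ε ≤ (w : ℝ) ^ ε * |m z1 * G z1| ^ ε := by
      calc |∑ z, m z * G z| ^ ε ≤ ((w : ℝ) * |m z1 * G z1|) ^ ε :=
            Real.rpow_le_rpow (abs_nonneg _) hU h0.le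
        _ = (w : ℝ) ^ ε * |m z1 * G z1| ^ ε := Real.mul_rpow hw0 (abs_nonneg _)
    have hP : ∀ z, 0 ≤ |a z| ^ (2 - ε) := fun z => Real.rpow_nonneg (abs_nonneg _) _
    have e3 : |G z0| ^ (2 - ε) * |m z1 * G z1| ^ ε ≤ G z0 ^ 2 + m z1 ^ 2 * G z1 ^ 2 := by
      have := Pw_mix ε |G z0| |m z1 * G z1| h0 h1 (abs_nonneg _) (abs_nonneg _)
      rw [sq_abs, sq_abs, mul_pow] at this
      exact this
    have e4 : |a z0| ^ (2 - ε) * G z0 ^ 2 ≤ ∑ z, |a z| ^ (2 - ε) * G z ^ 2 :=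
      Finset.single_le_sum (f := fun z => |a z| ^ (2 - ε) * G z ^ 2)
        (fun z _ => mul_nonneg (hP z) (sq_nonneg _)) (mem_univ z0)
    have e5 : |a z0| ^ (2 - ε) * m z1 ^ 2 * G z1 ^ 2 ≤
        ∑ z, ∑ z', |a z| ^ (2 - ε) * m z' ^ 2 * G z' ^ 2 := by
      have q1 : |a z0| ^ (2 - ε) * m z1 ^ 2 * G z1 ^ 2 ≤
          ∑ z', |a z0| ^ (2 - ε) * m z' ^ 2 * G z' ^ 2 :=
        Finset.single_le_sum (f := fun z' => |a z0| ^ (2 - ε) * m z' ^ 2 * G z' ^ 2)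
          (fun z' _ => mul_nonneg (mul_nonneg (hP z0) (sq_nonneg _)) (sq_nonneg _)) (mem_univ z1)
      have q2 : ∑ z', |a z0| ^ (2 - ε) * m z' ^ 2 * G z' ^ 2 ≤
          ∑ z, ∑ z', |a z| ^ (2 - ε) * m z' ^ 2 * G z' ^ 2 :=
        Finset.single_le_sum (f := fun z => ∑ z', |a z| ^ (2 - ε) * m z' ^ 2 * G z' ^ 2)
          (fun z _ => Finset.sum_nonneg
            (fun z' _ => mul_nonneg (mul_nonneg (hP z) (sq_nonneg _)) (sq_nonneg _)))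
          (mem_univ z0)
      exact q1.trans q2
    have g1 : 0 ≤ |m z1 * G z1| ^ ε := Real.rpow_nonneg (abs_nonneg _) _
    have g2 : 0 ≤ |G z0| ^ (2 - ε) := Real.rpow_nonneg (abs_nonneg _) _
    have g3 : 0 ≤ (w : ℝ) ^ (2 - ε) := Real.rpow_nonneg hw0 _
    have g4 : 0 ≤ (w : ℝ) ^ ε := Real.rpow_nonneg hw0 _
    calc |∑ z, a z * G z| ^ (2 - ε) * |∑ z, m z * G z| ^ ε
        ≤ ((w : ℝ) ^ (2 - ε) * (|a z0| ^ (2 - ε) * |G z0| ^ (2 - ε))) *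
          ((w : ℝ) ^ ε * |m z1 * G z1| ^ ε) :=
          mul_le_mul e1 e2 (Real.rpow_nonneg (abs_nonneg _) _)
            (mul_nonneg g3 (mul_nonneg (hP z0) g2))
      _ = ((w : ℝ) ^ (2 - ε) * (w : ℝ) ^ ε) *
          (|a z0| ^ (2 - ε) * (|G z0| ^ (2 - ε) * |m z1 * G z1| ^ ε)) := by ring
      _ = (w : ℝ) ^ 2 * (|a z0| ^ (2 - ε) * (|G z0| ^ (2 - ε) * |m z1 * G z1| ^ ε)) := by
          rw [Pw_split ε _ hw0]
      _ ≤ (w : ℝ) ^ 2 * (|a z0| ^ (2 - ε) * (G z0 ^ 2 + m z1 ^ 2 * G z1 ^ 2)) :=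
          mul_le_mul_of_nonneg_left (mul_le_mul_of_nonneg_left e3 (hP z0)) (sq_nonneg _)
      _ ≤ (w : ℝ) ^ 2 * (∑ z, |a z| ^ (2 - ε) * G z ^ 2 +
          ∑ z, ∑ z', |a z| ^ (2 - ε) * m z' ^ 2 * G z' ^ 2) := by
          apply mul_le_mul_of_nonneg_left _ (sq_nonneg _)
          have : |a z0| ^ (2 - ε) * (G z0 ^ 2 + m z1 ^ 2 * G z1 ^ 2) =
              |a z0| ^ (2 - ε) * G z0 ^ 2 + |a z0| ^ (2 - ε) * m z1 ^ 2 * G z1 ^ 2 := by ring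
          rw [this]
          exact add_le_add e4 e5

private theorem Pw_sq (w : ℕ) (ε : ℝ) (h0 : 0 < ε) (h1 : ε ≤ 1 / 2) (a G : Fin w → ℝ)
    (ha : ∀ z, |a z| ≤ 1) :
    (∑ z, a z * G z) ^ 2 ≤ (w : ℝ) * ∑ z, |a z| ^ (2 - ε) * G z ^ 2 := by
  have q := sq_sum_le_card_mul_sum_sq (s := (univ : Finset (Fin w))) (f := fun z => a z * G z)
  have hc : (((univ : Finset (Fin w)).card : ℕ) : ℝ) = (w : ℝ) := by simp
  rw [hc] at q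
  refine q.trans ?_
  apply mul_le_mul_of_nonneg_left _ (Nat.cast_nonneg w)
  apply Finset.sum_le_sum
  intro z _
  have h3 : |a z| ^ (2 : ℝ) ≤ |a z| ^ (2 - ε) :=
    Real.rpow_le_rpow_of_exponent_ge' (abs_nonneg _) (ha z) (by linarith) (by linarith)
  have h4 : |a z| ^ (2 : ℝ) = a z ^ 2 := by
    have : (2 : ℝ) = ((2 : ℕ) : ℝ) := by norm_num
    rw [this, Real.rpow_natCast, sq_abs]
  rw [h4] at h3
  calc (a z * G z) ^ 2 = a z ^ 2 * G z ^ 2 := by ring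
    _ ≤ |a z| ^ (2 - ε) * G z ^ 2 := mul_le_mul_of_nonneg_right h3 (sq_nonneg _)

/-- **Pw** (the two-point inequality for sums) -/
theorem rPw (h1 : S_Two) : S_Pw := by
  intro w ε he he2 a m G ha hm
  have t := h1 ε (∑ z, m z * G z) (∑ z, a z * G z) he (by linarith)
  have s1 := Pw_sq w ε he he2 a G ha
  have s2 := Pw_main w ε he he2 a m G hm
  have s3 := mul_le_mul_of_nonneg_left s2 (by positivity : (0 : ℝ) ≤ 2 / ε)
  calc dl (∑ z, m z * G z) (∑ z, a z * G z)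
      ≤ 4 * (∑ z, a z * G z) ^ 2 +
        2 / ε * (|∑ z, a z * G z| ^ (2 - ε) * |∑ z, m z * G z| ^ ε) := t
    _ ≤ 4 * ((w : ℝ) * ∑ z, |a z| ^ (2 - ε) * G z ^ 2) +
        2 / ε * ((w : ℝ) ^ 2 * (∑ z, |a z| ^ (2 - ε) * G z ^ 2 +
          ∑ z, ∑ z', |a z| ^ (2 - ε) * m z' ^ 2 * G z' ^ 2)) := by
        linarith
    _ = (4 * w + 2 * w ^ 2 / ε) * ∑ z, |a z| ^ (2 - ε) * G z ^ 2 +
        2 * w ^ 2 / ε * ∑ z, ∑ z', |a z| ^ (2 - ε) * m z' ^ 2 * G z' ^ 2 := by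
        ring

end Pool.Agent.MP3145b1.RB
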