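import Pool.Agent.Lib.MP_3145b1_co.RB.Spec

set_option autoImplicit false

namespace Pool.Agent.MP3145b1.RB

open Finset

private theorem Sid_notX {σ : Type} (m : ℕ → σ → ℝ) (R : ℕ → Finset σ) (E : ℕ → Set σ) (a r : ℝ)
    (u : ℕ) (y : σ) (h : m u y - a < r) : ind (Xp m R E a r) u y = 0 := by
  apply ind_not
  rintro ⟨_, h2⟩
  linarith

private theorem Sid_claim {σ : Type} (K c : ℝ) (hK : 1 ≤ K) (hc : 0 < c) (s : ℕ → σ → Bool → σ)
    (m : ℕ → σ → ℝ) (R : ℕ → Finset σ) (E : ℕ → Set σ) (q : ℕ → σ → ℝ) (t n : ℕ) (a : ℝ)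
    (hR : ∀ u, ∀ y ∈ R u, Mg s m u y ∧ |stp s m u y| ≤ 1) (hq : ∀ u y, 0 ≤ q u y)
    (hz : ∀ k u, k + u = t + n → t ≤ u → ∀ y ∈ R u, 4 * K ≤ m u y - a → m u y - a < 4 * K + 1 →
      c ≤ EV s R 0 q k u y) (k : ℕ) :
    ∀ u y, k + u = t + n → t ≤ u → y ∈ Rin m R a (5 * K) u → m u y - a < 4 * K →
      c * EV s (Rin m R a (5 * K)) 0 (ind (Xp m R E a (5 * K))) (k + 1) u y ≤ EV s R 0 q k u y := by
  classical
  induction k with
  | zero =>
    intro u y _ _ hy hm
    have hyR : y ∈ R u := (Finset.mem_filter.1 hy).1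
    have hch : ∀ b, m (u + 1) (s u y b) - a < 5 * K := by
      intro b
      have h1 := (hR u y hyR).1.abs b
      have h2 := (hR u y hyR).2
      rw [← h1] at h2
      have h3 := (abs_le.1 h2).2
      linarith
    rw [EV_mem _ _ _ _ _ _ _ hy, EV_zero, EV_zero, EV_zero, Sid_notX m R E a _ _ _ (hch false),
      Sid_notX m R E a _ _ _ (hch true)]
    simp only [Pi.zero_apply, add_zero, zero_div, mul_zero]
    exact hq u y
  | succ k ih =>
    intro u y hk ht hy hm
    have hyR : y ∈ R u := (Finset.mem_filter.1 hy).1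
    have key : ∀ b, c * EV s (Rin m R a (5 * K)) 0 (ind (Xp m R E a (5 * K))) (k + 1) (u + 1) (s u y b) ≤
        EV s R 0 q k (u + 1) (s u y b) := by
      intro b
      have h1 := (hR u y hyR).1.abs b
      have h2 := (hR u y hyR).2
      rw [← h1] at h2
      have h3 := (abs_le.1 h2).2
      set y' := s u y b with hy'
      have h4 : m (u + 1) y' - a < 4 * K + 1 := by linarith
      by_cases hyR' : y' ∈ R (u + 1)
      · by_cases h5 : 4 * K ≤ m (u + 1) y' - a
        · have h6 := hz k (u + 1) (by omega) (by omega) y' hyR' h5 h4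
          have h7 := EV_ind_le s (Rin m R a (5 * K)) (Xp m R E a (5 * K)) (k + 1) (u + 1) y'
          calc c * EV s (Rin m R a (5 * K)) 0 (ind (Xp m R E a (5 * K))) (k + 1) (u + 1) y' ≤ c * 1 :=
                mul_le_mul_of_nonneg_left h7 hc.le
            _ ≤ EV s R 0 q k (u + 1) y' := by rw [mul_one]; exact h6
        · push Not at h5
          by_cases h6 : |m (u + 1) y' - a| < 5 * K
          · exact ih (u + 1) y' (by omega) (by omega) (Finset.mem_filter.2 ⟨hyR', h6⟩) h5
          · have h7 : y' ∉ Rin m R a (5 * K) (u + 1) := fun h => h6 (Finset.mem_filter.1 h).2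
            rw [EV_not _ _ _ _ _ _ _ h7, Sid_notX m R E a _ _ _ (by linarith), mul_zero]
            exact EV_nonneg s R (fun _ _ _ => le_rfl) hq k (u + 1) y'
      · have h7 : y' ∉ Rin m R a (5 * K) (u + 1) := fun h => hyR' (Finset.mem_filter.1 h).1
        rw [EV_not _ _ _ _ _ _ _ h7, Sid_notX m R E a _ _ _ (by linarith), mul_zero]
        exact EV_nonneg s R (fun _ _ _ => le_rfl) hq k (u + 1) y'
    rw [EV_mem s (Rin m R a (5 * K)) _ _ _ _ _ hy, EV_mem s R _ _ _ _ _ hyR]
    have h0 := key false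
    have h1 := key true
    simp only [Pi.zero_apply, zero_add]
    linarith

theorem rSid : S_Sid := by
  intro K c hK hc σ s m R E q t n x hx hR hq hz
  classical
  refine Sid_claim K c hK hc s m R E q t n (m t x) hR hq hz n t x (by omega) le_rfl ?_ ?_
  · refine Finset.mem_filter.2 ⟨hx, ?_⟩
    rw [sub_self, abs_zero]; linarith
  · rw [sub_self]; linarith

end Pool.Agent.MP3145b1.RB
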