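import Pool.Agent.Lib.MP_3145b1_co.RB.Spec

/-!
# MP_3145b1_co, project RB: coefficients before the least element (`S_Spl`)
-/

set_option autoImplicit false

namespace Pool.Agent.MP3145b1.RB

open Finset

private theorem Spl_end {w : ℕ} (s : ℕ → Fin w → Bool → Fin w) (j : ℕ) (z : Fin w) (i : ℕ) (x : Fin w)
    (h : j ≤ i) : pr s j z i x = if x = z then 1 else 0 := by
  unfold pr
  rw [show j - i = 0 by omega]
  rfl

private theorem Spl_rec {w : ℕ} (s : ℕ → Fin w → Bool → Fin w) (j : ℕ) (z : Fin w) (i : ℕ) (x : Fin w)
    (h : i < j) : pr s j z i x = (pr s j z (i + 1) (s i x false) + pr s j z (i + 1) (s i x true)) / 2 := by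
  unfold pr
  rw [show j - i = (j - (i + 1)) + 1 by omega, EV_mem _ _ _ _ _ _ _ (Finset.mem_univ x)]
  simp

theorem rSpl : S_Spl := by
  intro w s o j n hjn
  refine ⟨?_, ?_, ?_⟩
  · intro T hT
    have key : ∀ d i, i + d = j → ∀ x : Fin w,
        Cf s o T (n - i) i x = ∑ z, pr s j z i x * Cf s o T (n - j) j z := by
      intro d
      induction d with
      | zero =>
        intro i hi x
        rw [Nat.add_zero] at hi
        subst hi
        have h1 : ∀ z ∈ (Finset.univ : Finset (Fin w)), pr s i z i x * Cf s o T (n - i) i z =
            if x = z then Cf s o T (n - i) i z else 0 := by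
          intro z _
          rw [Spl_end s i z i x le_rfl]
          split_ifs <;> simp
        rw [Finset.sum_congr rfl h1, Finset.sum_ite_eq]
        simp
      | succ d ih =>
        intro i hi x
        have hiT : i ∉ T := by
          intro h
          have := hT h
          rw [Finset.mem_Ico] at this
          omega
        rw [show n - i = (n - (i + 1)) + 1 by omega]
        simp only [Cf]
        rw [if_neg hiT, ih (i + 1) (by omega), ih (i + 1) (by omega), one_mul, ← Finset.sum_add_distrib,
          Finset.sum_div]
        apply Finset.sum_congr rfl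
        intro z _
        rw [Spl_rec s j z i x (by omega)]
        ring
    intro i hi x
    exact key (j - i) i (by omega) x
  · intro z u y hy
    have hu : u < j := by
      unfold Aj at hy
      by_contra h
      rw [if_neg h] at hy
      simp at hy
    unfold Mg
    exact Spl_rec s j z u y hu
  · intro z u y
    unfold pr
    constructor
    · apply EV_nonneg
      · intro _ _ _
        exact le_rfl
      · intro _ y'
        split_ifs <;> norm_num
    · apply EV_le_one
      intro _ y'
      split_ifs <;> norm_num

end Pool.Agent.MP3145b1.RB
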