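import Pool.Agent.Lib.MP_3145b1_co.RB.Spec

/-!
# MP_3145b1_co, project RB, module Two: two-point inequality for the entropy
-/

set_option autoImplicit false

namespace Pool.Agent.MP3145b1.RB

open Finset

private theorem Two_hh (x : ℝ) : hh (x ^ 2) = -(2 * x ^ 2 * Real.log x) := by
  unfold hh
  rw [Real.negMulLog, Real.log_pow]
  push_cast
  ring

private theorem Two_dl (u w : ℝ) : dl u w = (u + w) ^ 2 * Real.log (u + w) +
    (u - w) ^ 2 * Real.log (u - w) - 2 * u ^ 2 * Real.log u - 2 * w ^ 2 * Real.log w := by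
  unfold dl
  rw [Two_hh, Two_hh, Two_hh, Two_hh]
  ring

/-- `dl` only depends on the absolute values -/
private theorem Two_abs (u w : ℝ) : dl |u| |w| = dl u w := by
  unfold dl
  have h1 : ∀ a b : ℝ, hh ((|a| + |b|) ^ 2) + hh ((|a| - |b|) ^ 2) =
      hh ((a + b) ^ 2) + hh ((a - b) ^ 2) := by
    intro a b
    rcases abs_choice a with ha | ha <;> rcases abs_choice b with hb | hb <;> rw [ha, hb]
    · rw [show a + -b = a - b by ring, show a - -b = a + b by ring, add_comm]
    · rw [show (-a + b) ^ 2 = (a - b) ^ 2 by ring, show (-a - b) ^ 2 = (a + b) ^ 2 by ring, add_comm]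
    · rw [show (-a + -b) ^ 2 = (a + b) ^ 2 by ring, show (-a - -b) ^ 2 = (a - b) ^ 2 by ring]
  rw [h1, sq_abs, sq_abs]

/-- `x log ((x + y) / x) ≤ y` -/
private theorem Two_log (x y : ℝ) (hx : 0 < x) (hy : 0 ≤ y) :
    x ^ 2 * (Real.log (x + y) - Real.log x) ≤ x * y := by
  have h1 : Real.log (x + y) - Real.log x = Real.log ((x + y) / x) :=
    (Real.log_div (by positivity) hx.ne').symm
  have h2 : Real.log ((x + y) / x) ≤ (x + y) / x - 1 :=
    Real.log_le_sub_one_of_pos (by positivity)
  have h3 : (x + y) / x - 1 = y / x := by field_simp; ring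
  rw [h1]
  rw [h3] at h2
  calc x ^ 2 * Real.log ((x + y) / x) ≤ x ^ 2 * (y / x) :=
        mul_le_mul_of_nonneg_left h2 (by positivity)
    _ = x * y := by field_simp

/-- the case of small `u` -/
private theorem Two_small (u w : ℝ) (hu : 0 ≤ u) (hw : 0 < w) (huw : u ≤ w) :
    dl u w ≤ 4 * w ^ 2 := by
  rw [Two_dl]
  have h1 : (u - w) ^ 2 * Real.log (u - w) ≤ (u - w) ^ 2 * Real.log (u + w) := by
    rcases huw.lt_or_eq with h | h
    · apply mul_le_mul_of_nonneg_left _ (by positivity)
      have e : Real.log (u - w) = Real.log (w - u) := by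
        rw [← Real.log_neg_eq_log (u - w)]
        congr 1
        ring
      rw [e]
      exact Real.log_le_log (by linarith) (by linarith)
    · rw [h]; simp
  have h2 : w ^ 2 * (Real.log (u + w) - Real.log w) ≤ w * u := by
    have := Two_log w u hw hu
    rwa [add_comm w u] at this
  have h3 : u ^ 2 * (Real.log (u + w) - Real.log u) ≤ u * w := by
    rcases hu.lt_or_eq with h | h
    · exact Two_log u w h hw.le
    · rw [← h]; simp
  have h4 : u * w ≤ w ^ 2 := by nlinarith
  nlinarith

/-- the case of large `u` -/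
private theorem Two_large (ε u w : ℝ) (hε : 0 < ε) (hw : 0 < w) (huw : w ≤ u) :
    dl u w ≤ 4 * w ^ 2 + 2 / ε * (w ^ (2 - ε) * u ^ ε) := by
  have hu : 0 < u := lt_of_lt_of_le hw huw
  rw [Two_dl]
  have h1 : (u + w) ^ 2 * Real.log (u + w) ≤ (u + w) ^ 2 * (Real.log u + w / u) := by
    apply mul_le_mul_of_nonneg_left _ (by positivity)
    have e : Real.log (u + w) - Real.log u = Real.log ((u + w) / u) :=
      (Real.log_div (by positivity) hu.ne').symm
    have h2 : Real.log ((u + w) / u) ≤ (u + w) / u - 1 :=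
      Real.log_le_sub_one_of_pos (by positivity)
    have h3 : (u + w) / u - 1 = w / u := by field_simp; ring
    linarith
  have h2 : (u - w) ^ 2 * Real.log (u - w) ≤ (u - w) ^ 2 * (Real.log u - w / u) := by
    rcases huw.lt_or_eq with h | h
    · apply mul_le_mul_of_nonneg_left _ (by positivity)
      have h0 : 0 < u - w := by linarith
      have e : Real.log (u - w) - Real.log u = Real.log ((u - w) / u) :=
        (Real.log_div h0.ne' hu.ne').symm
      have h2 : Real.log ((u - w) / u) ≤ (u - w) / u - 1 :=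
        Real.log_le_sub_one_of_pos (by positivity)
      have h3 : (u - w) / u - 1 = -(w / u) := by field_simp; ring
      linarith
    · rw [h]; simp
  have h3 : (u + w) ^ 2 * (Real.log u + w / u) + (u - w) ^ 2 * (Real.log u - w / u) =
      (2 * u ^ 2 + 2 * w ^ 2) * Real.log u + 4 * w ^ 2 := by
    field_simp
    ring
  have h4 : Real.log u - Real.log w ≤ (u / w) ^ ε / ε := by
    rw [← Real.log_div hu.ne' hw.ne']
    exact Real.log_le_rpow_div (by positivity) hε
  have h5 : w ^ 2 * (Real.log u - Real.log w) ≤ 1 / ε * (w ^ (2 - ε) * u ^ ε) := by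
    calc w ^ 2 * (Real.log u - Real.log w) ≤ w ^ 2 * ((u / w) ^ ε / ε) :=
          mul_le_mul_of_nonneg_left h4 (by positivity)
      _ = 1 / ε * (w ^ (2 - ε) * u ^ ε) := by
          rw [Real.div_rpow hu.le hw.le, Real.rpow_sub hw, Real.rpow_two]
          field_simp
  have h6 : 2 / ε * (w ^ (2 - ε) * u ^ ε) = 2 * (1 / ε * (w ^ (2 - ε) * u ^ ε)) := by ring
  rw [h6]
  nlinarith

theorem rTwo : S_Two := by
  intro ε u w hε hε1
  rw [← Two_abs, ← sq_abs w]
  have hu := abs_nonneg u
  have hw := abs_nonneg w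
  generalize |u| = a at *
  generalize |w| = b at *
  have hn : 0 ≤ 2 / ε * (b ^ (2 - ε) * a ^ ε) := by positivity
  rcases hw.lt_or_eq with hb | hb
  · rcases le_total a b with h | h
    · have := Two_small a b hu hb h
      linarith
    · exact Two_large ε a b hε hb h
  · have h0 : dl a b = 0 := by
      rw [← hb, Two_dl]
      simp
      ring
    rw [h0]
    positivity

end Pool.Agent.MP3145b1.RB
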