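import Pool.Agent.Lib.MP_3145b1_co.RB.Spec

/-!
# Project RB: proof of `S_Var` (bounded variation of order less than 2)
-/

set_option autoImplicit false

namespace Pool.Agent.MP3145b1.RB

open Finset

private theorem Var_const {σ : Type} (s : ℕ → σ → Bool → σ) (A : ℕ → Finset σ) (a : ℝ) (ha : 0 ≤ a)
    (n t : ℕ) (x : σ) : EV s A (fun _ _ => a) 0 n t x ≤ n * a := by
  apply EV_le s A (fun _ _ => a) 0 (fun n _ _ => (n : ℝ) * a)
  · intro t x
    simp
  · intro n t x _
    change (0 : ℝ) ≤ n * a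
    positivity
  · intro n t x _
    push_cast
    linarith

/-- costs which agree on `A` -/
private theorem Var_congr {σ : Type} (s : ℕ → σ → Bool → σ) (A : ℕ → Finset σ) (c c' : ℕ → σ → ℝ)
    (h : ∀ u, ∀ y ∈ A u, c u y = c' u y) (n t : ℕ) (x : σ) :
    EV s A c 0 n t x = EV s A c' 0 n t x :=
  le_antisymm (EV_mono s A (fun u y hy => (h u y hy).le) (fun _ _ => le_rfl) n t x)
    (EV_mono s A (fun u y hy => (h u y hy).ge) (fun _ _ => le_rfl) n t x)

private theorem Var_sum {σ : Type} (s : ℕ → σ → Bool → σ) (A : ℕ → Finset σ) (N : ℕ) (a : ℕ → ℝ)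
    (e : ℕ → ℕ → σ → ℝ) (n t : ℕ) (x : σ) :
    EV s A (fun u y => ∑ k ∈ range N, a k * e k u y) 0 n t x =
      ∑ k ∈ range N, a k * EV s A (e k) 0 n t x := by
  rw [EV_sum0 s A (range N) (fun k u y => a k * e k u y) n t x]
  apply Finset.sum_congr rfl
  intro k _
  rw [EV_mul0]

theorem rVar (h1 : S_All) (h2 : S_Exc) (h3 : S_En) (h4 : S_Pnt) : S_Var := by
  intro w hw
  obtain ⟨K, c, hK, hc, hc1, hPK⟩ := h1 w hw
  obtain ⟨C, hCdef⟩ : ∃ C : ℝ, C = (K + 1) ^ 2 / c := ⟨_, rfl⟩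
  have hC : 1 ≤ C := by
    rw [hCdef, le_div_iff₀ hc]
    nlinarith
  obtain ⟨θ, hθ⟩ : ∃ θ : ℝ, θ = 1 + 1 / (3 * C) := ⟨_, rfl⟩
  have hθ0 : 0 < θ := by
    rw [hθ]
    positivity
  obtain ⟨-, -, -, he0, he1⟩ := h4 C hC θ hθ 0
  refine ⟨Real.logb 2 θ, he0, he1, ?_⟩
  obtain ⟨ε, hε⟩ : ∃ ε : ℝ, ε = Real.logb 2 θ := ⟨_, rfl⟩
  rw [← hε]
  rw [← hε] at he0 he1
  intro σ s m A t n x l b hb hcard hMg hch hl hu
  -- the normalized steps
  let d : ℕ → σ → ℝ := fun u y => |stp s m u y| / b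
  have hd0 : ∀ u y, 0 ≤ d u y := fun u y => div_nonneg (abs_nonneg _) hb.le
  have hd1 : ∀ u, ∀ y ∈ A u, d u y ≤ 1 := by
    intro u y hy
    have ha := hch u y hy false
    have hb' := hch u y hy true
    change |stp s m u y| / b ≤ 1
    rw [div_le_one hb]
    unfold stp
    rw [abs_le]
    constructor <;> linarith [ha.1, ha.2, hb'.1, hb'.2]
  have hstp : ∀ u y, |stp s m u y| = b * d u y := by
    intro u y
    change |stp s m u y| = b * (|stp s m u y| / b)
    field_simp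
  -- the energy
  have hen : EV s A (fun u y => d u y ^ 2) 0 n t x ≤ 1 := by
    have h := h3 σ s m A n t x l b hb.le hMg hch hl hu
    have e : EV s A (fun u y => stp s m u y ^ 2) 0 n t x =
        b ^ 2 * EV s A (fun u y => d u y ^ 2) 0 n t x := by
      rw [← EV_mul0]
      apply Var_congr
      intro u y _
      rw [← sq_abs, hstp]
      ring
    rw [e] at h
    have hb2 : 0 < b ^ 2 := by positivity
    nlinarith
  -- the main estimate for fixed `N0`
  have key : ∀ N0 : ℕ, EV s A (cP s m ε) 0 n t x ≤ b ^ (2 - ε) * (3 + n * (1 / 2) ^ N0) := by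
    intro N0
    obtain ⟨q1, q2, q3, -, -⟩ := h4 C hC θ hθ N0
    let e1 : ℕ → ℕ → σ → ℝ := fun k u y => if d u y ≤ (1 / 2) ^ k then d u y ^ 2 else 0
    let e0 : ℕ → ℕ → σ → ℝ := fun k u y => if d u y ≤ (1 / 2) ^ k then 0 else 1
    have hexc : ∀ k : ℕ, EV s A (e1 k) 0 n t x ≤
        C * (1 / 4) ^ k * (1 + EV s A (e0 k) 0 n t x) := by
      intro k
      have hρ : 0 < b * (1 / 2) ^ k := by positivity
      have h := h2 w K c hK hc hc1 hPK σ s m A (b * (1 / 2) ^ k) n t x hρ hcard hMg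
      have hiff : ∀ u y, (|stp s m u y| ≤ b * (1 / 2) ^ k ↔ d u y ≤ (1 / 2) ^ k) := by
        intro u y
        rw [hstp]
        exact mul_le_mul_iff_right₀ hb
      have eS : EV s A (cS s m (b * (1 / 2) ^ k)) 0 n t x = b ^ 2 * EV s A (e1 k) 0 n t x := by
        rw [← EV_mul0]
        apply Var_congr
        intro u y _
        change (if |stp s m u y| ≤ b * (1 / 2) ^ k then stp s m u y ^ 2 else 0) =
          b ^ 2 * (if d u y ≤ (1 / 2) ^ k then d u y ^ 2 else 0)
        by_cases hh : d u y ≤ (1 / 2) ^ k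
        · rw [if_pos hh, if_pos ((hiff u y).mpr hh), ← sq_abs, hstp]
          ring
        · rw [if_neg hh, if_neg (fun h' => hh ((hiff u y).mp h'))]
          ring
      have eN : EV s A (cN s m (b * (1 / 2) ^ k)) 0 n t x = EV s A (e0 k) 0 n t x := by
        apply Var_congr
        intro u y _
        change (if |stp s m u y| ≤ b * (1 / 2) ^ k then (0 : ℝ) else 1) =
          (if d u y ≤ (1 / 2) ^ k then 0 else 1)
        by_cases hh : d u y ≤ (1 / 2) ^ k
        · rw [if_pos hh, if_pos ((hiff u y).mpr hh)]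
        · rw [if_neg hh, if_neg (fun h' => hh ((hiff u y).mp h'))]
      rw [eS, eN, ← hCdef] at h
      have hp : (b * (1 / 2) ^ k) ^ 2 = b ^ 2 * (1 / 4 : ℝ) ^ k := by
        rw [mul_pow, ← pow_mul, mul_comm k 2, pow_mul]
        norm_num
      rw [hp] at h
      have hb2 : 0 < b ^ 2 := by positivity
      have h' : b ^ 2 * EV s A (e1 k) 0 n t x ≤
          b ^ 2 * (C * (1 / 4) ^ k * (1 + EV s A (e0 k) 0 n t x)) := by
        calc b ^ 2 * EV s A (e1 k) 0 n t x
            ≤ C * (b ^ 2 * (1 / 4) ^ k) * (1 + EV s A (e0 k) 0 n t x) := h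
          _ = _ := by ring
      exact le_of_mul_le_mul_left h' hb2
    obtain ⟨a1, ha1⟩ : ∃ a1 : ℝ, a1 = EV s A (fun u y => ∑ k ∈ range (N0 + 1), θ ^ k * e1 k u y)
      0 n t x := ⟨_, rfl⟩
    obtain ⟨a2, ha2⟩ : ∃ a2 : ℝ, a2 = EV s A (fun u y => ∑ k ∈ range (N0 + 1),
      (θ / 4) ^ k * e0 k u y) 0 n t x := ⟨_, rfl⟩
    have ha1' := ha1
    have ha2' := ha2
    rw [Var_sum s A (N0 + 1) (fun k => θ ^ k) e1 n t x] at ha1'
    rw [Var_sum s A (N0 + 1) (fun k => (θ / 4) ^ k) e0 n t x] at ha2'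
    have i1 : a1 ≤ 3 / 2 * C + C * a2 := by
      have hs : a1 ≤ C * ∑ k ∈ range (N0 + 1), (θ / 4) ^ k + C * a2 := by
        rw [ha1', ha2', ← mul_add, ← Finset.sum_add_distrib, Finset.mul_sum]
        apply Finset.sum_le_sum
        intro k _
        have hθk : 0 ≤ θ ^ k := by positivity
        have hh := mul_le_mul_of_nonneg_left (hexc k) hθk
        calc θ ^ k * EV s A (e1 k) 0 n t x
            ≤ θ ^ k * (C * (1 / 4) ^ k * (1 + EV s A (e0 k) 0 n t x)) := hh
          _ = C * ((θ / 4) ^ k + (θ / 4) ^ k * EV s A (e0 k) 0 n t x) := by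
            rw [div_pow, div_pow, one_pow]
            ring
      nlinarith
    have i2 : C * a2 ≤ 1 / 2 * a1 + 3 / 2 * C * EV s A (fun u y => d u y ^ 2) 0 n t x := by
      have hm := EV_mono s A
        (c := fun u y => C * ∑ k ∈ range (N0 + 1), (θ / 4) ^ k * e0 k u y)
        (c' := fun u y => (1 / 2 * ∑ k ∈ range (N0 + 1), θ ^ k * e1 k u y) +
          3 / 2 * C * d u y ^ 2) (p := 0) (p' := 0)
        (fun u y hy => q1 (d u y) (hd0 u y) (hd1 u y hy)) (fun _ _ => le_rfl) n t x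
      rw [EV_add0, EV_mul0, EV_mul0, EV_mul0, ← ha1, ← ha2] at hm
      exact hm
    have i3 : a1 ≤ 6 * C := by nlinarith
    have i4 : EV s A (fun u y => d u y ^ (2 - ε)) 0 n t x ≤ 3 + n * (1 / 2) ^ N0 := by
      have hm := EV_mono s A
        (c := fun u y => d u y ^ (2 - ε))
        (c' := fun u y => (d u y ^ 2 + 1 / (3 * C) * ∑ k ∈ range (N0 + 1), θ ^ k * e1 k u y) +
          (1 / 2) ^ N0) (p := 0) (p' := 0)
        (fun u y hy => by
          have := q2 (d u y) (hd0 u y) (hd1 u y hy)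
          rw [← hε] at this
          exact this) (fun _ _ => le_rfl) n t x
      rw [EV_add0 s A (fun u y => d u y ^ 2 + 1 / (3 * C) * ∑ k ∈ range (N0 + 1),
        θ ^ k * e1 k u y) (fun _ _ => (1 / 2) ^ N0), EV_add0, EV_mul0, ← ha1] at hm
      have hcst := Var_const s A ((1 / 2 : ℝ) ^ N0) (by positivity) n t x
      have hC3 : 1 / (3 * C) * a1 ≤ 2 := by
        rw [one_div, inv_mul_le_iff₀ (by positivity)]
        linarith
      linarith
    have i5 : EV s A (cP s m ε) 0 n t x =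
        b ^ (2 - ε) * EV s A (fun u y => d u y ^ (2 - ε)) 0 n t x := by
      rw [← EV_mul0]
      apply Var_congr
      intro u y _
      change |stp s m u y| ^ (2 - ε) = b ^ (2 - ε) * d u y ^ (2 - ε)
      rw [hstp, Real.mul_rpow hb.le (hd0 u y)]
    rw [i5]
    exact mul_le_mul_of_nonneg_left i4 (Real.rpow_nonneg hb.le _)
  have hlim : Filter.Tendsto (fun N0 : ℕ => b ^ (2 - ε) * (3 + (n : ℝ) * (1 / 2) ^ N0))
      Filter.atTop (nhds (b ^ (2 - ε) * (3 + (n : ℝ) * 0))) := by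
    apply Filter.Tendsto.const_mul
    apply Filter.Tendsto.const_add
    apply Filter.Tendsto.const_mul
    exact tendsto_pow_atTop_nhds_zero_of_lt_one (by norm_num) (by norm_num)
  have hfin := ge_of_tendsto' hlim key
  rw [mul_zero, add_zero, mul_comm] at hfin
  exact hfin

end Pool.Agent.MP3145b1.RB
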