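import Pool.Agent.Lib.MP_3145b1_co.RB.SpecF
import Pool.Agent.Lib.MP_3145b1_co.RB.Rch
import Pool.Agent.Lib.MP_3145b1_co.RB.Far
import Pool.Agent.Lib.MP_3145b1_co.RB.Mea
import Pool.Agent.Lib.MP_3145b1_co.RB.Sid
import Pool.Agent.Lib.MP_3145b1_co.RB.InP
import Pool.Agent.Lib.MP_3145b1_co.RB.Ind
import Pool.Agent.Lib.MP_3145b1_co.RB.One
import Pool.Agent.Lib.MP_3145b1_co.RB.All
import Pool.Agent.Lib.MP_3145b1_co.RB.Exc
import Pool.Agent.Lib.MP_3145b1_co.RB.En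
import Pool.Agent.Lib.MP_3145b1_co.RB.Pnt
import Pool.Agent.Lib.MP_3145b1_co.RB.Var
import Pool.Agent.Lib.MP_3145b1_co.RB.Fa
import Pool.Agent.Lib.MP_3145b1_co.RB.Fb
import Pool.Agent.Lib.MP_3145b1_co.RB.F2
import Pool.Agent.Lib.MP_3145b1_co.RB.Two
import Pool.Agent.Lib.MP_3145b1_co.RB.Pw
import Pool.Agent.Lib.MP_3145b1_co.RB.Cls
import Pool.Agent.Lib.MP_3145b1_co.RB.Spl
import Pool.Agent.Lib.MP_3145b1_co.RB.Inf
import Pool.Agent.Lib.MP_3145b1_co.RB.Chn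
import Pool.Agent.Lib.MP_3145b1_co.RB.Lev
import Pool.Agent.Lib.MP_3145b1_co.RB.Emp
import Pool.Agent.Lib.MP_3145b1_co.RB.Prv
import Pool.Agent.Lib.MP_3145b1_co.RB.Prg
import Pool.Agent.Lib.MP_3145b1_co.RB.Fou
import Pool.Agent.Lib.MP_3145b1_co.RB.Prm
import Pool.Agent.Lib.MP_3145b1_co.RB.Fin

/-!
# MP_3145b1_co, project RB: the final statement without hypotheses
-/

set_option autoImplicit false

namespace Pool.Agent.MP3145b1.RB

theorem all : S_All := rAll rOne (rInd (rInP rRch rFar rMea rSid))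

theorem var : S_Var := rVar all rExc rEn rPnt

theorem prg : S_Prg := by
  have hfb : S_Fb := rFb rFa
  have hpw : S_Pw := rPw rTwo
  exact rPrg rCls (rInf rSpl) rChn (rLev hfb rF2 hpw rSpl) (rEmp hfb rTwo) rPrv

theorem fin : S_Fin := rFin var prg rFou rPrm

end Pool.Agent.MP3145b1.RB
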