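import Pool.Agent.Lib.MP_3145b1_co.RB.Spec

/-!
# MP_3145b1_co, project RB: chain of the entropies (`S_Chn`)
-/

set_option autoImplicit false

namespace Pool.Agent.MP3145b1.RB

open Finset

private theorem Chn_congr {σ : Type} (s : ℕ → σ → Bool → σ) (o : σ → ℝ) (T T' : Finset ℕ) (k : ℕ) :
    ∀ (i : ℕ) (x : σ), (∀ j, i ≤ j → (j ∈ T ↔ j ∈ T')) → Cf s o T k i x = Cf s o T' k i x := by
  induction k with
  | zero => intro i x _; rfl
  | succ k ih =>
    intro i x h
    simp only [Cf]
    rw [ih (i + 1) (s i x false) (fun j hj => h j (by omega)),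
      ih (i + 1) (s i x true) (fun j hj => h j (by omega))]
    have h2 : (if i ∈ T then (-1 : ℝ) else 1) = if i ∈ T' then (-1 : ℝ) else 1 := by
      by_cases hi : i ∈ T
      · rw [if_pos hi, if_pos ((h i le_rfl).1 hi)]
      · rw [if_neg hi, if_neg (fun h3 => hi ((h i le_rfl).2 h3))]
    rw [h2]

private theorem Chn_gen (w : ℕ) (s : ℕ → Fin w → Bool → Fin w) (o : Fin w → ℝ) (ho : ∀ z, o z ^ 2 = 1)
    (n : ℕ) (k : ℕ) : ∀ (i : ℕ) (x : Fin w), i + k = n →
    ∑ T ∈ (Ico i n).powerset, hh (Cf s o T k i x ^ 2) =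
      EV s (fun _ => univ) (fun i y => ∑ T ∈ (Ico (i + 1) n).powerset,
      dl ((Cf s o T (n - (i + 1)) (i + 1) (s i y false) + Cf s o T (n - (i + 1)) (i + 1) (s i y true)) / 2)
         ((Cf s o T (n - (i + 1)) (i + 1) (s i y false) - Cf s o T (n - (i + 1)) (i + 1) (s i y true)) / 2))
      0 k i x := by
  induction k with
  | zero =>
    intro i x h
    have h' : i = n := by omega
    subst h'
    rw [Finset.Ico_self, Finset.powerset_empty, Finset.sum_singleton]
    show hh (o x ^ 2) = 0
    rw [ho x]
    unfold hh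
    simp
  | succ k ih =>
    intro i x h
    have h1 : Ico i n = insert i (Ico (i + 1) n) := by
      ext j
      simp only [Finset.mem_insert, Finset.mem_Ico]
      omega
    have h2 : i ∉ Ico (i + 1) n := by
      simp only [Finset.mem_Ico]
      omega
    rw [EV_mem _ _ _ _ _ _ _ (Finset.mem_univ x), ← ih (i + 1) (s i x false) (by omega),
      ← ih (i + 1) (s i x true) (by omega), h1, Finset.sum_powerset_insert h2,
      ← Finset.sum_add_distrib, ← Finset.sum_add_distrib, Finset.sum_div, ← Finset.sum_add_distrib]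
    apply Finset.sum_congr rfl
    intro T hT
    rw [Finset.mem_powerset] at hT
    have hi : i ∉ T := fun h => h2 (hT h)
    have hc : ∀ y, Cf s o (insert i T) k (i + 1) y = Cf s o T k (i + 1) y := by
      intro y
      apply Chn_congr
      intro j hj
      rw [Finset.mem_insert]
      constructor
      · rintro (rfl | h)
        · omega
        · exact h
      · exact Or.inr
    have hk : n - (i + 1) = k := by omega
    rw [hk]
    simp only [Cf]
    rw [if_neg hi, if_pos (Finset.mem_insert_self i T), hc, hc]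
    unfold dl
    have e1 : ∀ a b : ℝ, (a + b) / 2 + (a - b) / 2 = a := by intro a b; ring
    have e2 : ∀ a b : ℝ, (a + b) / 2 - (a - b) / 2 = b := by intro a b; ring
    rw [e1, e2]
    have e3 : ∀ a b : ℝ, (a + 1 * b) / 2 = (a + b) / 2 := by intro a b; ring
    have e4 : ∀ a b : ℝ, (a + -1 * b) / 2 = (a - b) / 2 := by intro a b; ring
    rw [e3, e4]
    ring

theorem rChn : S_Chn := by
  intro w s o n x ho
  have h := Chn_gen w s o ho n n 0 x (by omega)
  rw [← Finset.range_eq_Ico] at h
  exact h

end Pool.Agent.MP3145b1.RB
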