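import Mathlib

/-!
# MP_3145b1_co, project RB: entropy of functions with a read-once branching program of bounded width

Definitions and basic lemmas. A program is a map `s : ℕ → σ → Bool → σ`: `s t x b` is the state at
time `t + 1` after the state `x` at time `t` and the random bit `b`.

`EV s A c p n t x` is the expectation of the total cost `c` plus the terminal payoff `p` for the
random walk which starts in the state `x` at time `t`, makes at most `n` steps and stops as soon as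
its state is not in `A u` (`u` the present time): the cost `c u y` is paid for every step from
`y ∈ A u`, the payoff is `p u y` at the final time `u` and state `y`.
-/

set_option autoImplicit false

namespace Pool.Agent.MP3145b1.RB

open Finset

variable {σ : Type}

open Classical in
/-- expected cost and payoff of the random walk with at most `n` steps, stopped outside `A` -/
noncomputable def EV (s : ℕ → σ → Bool → σ) (A : ℕ → Finset σ) (c p : ℕ → σ → ℝ) : ℕ → ℕ → σ → ℝ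
  | 0, t, x => p t x
  | n + 1, t, x => if x ∈ A t then
      c t x + (EV s A c p n (t + 1) (s t x false) + EV s A c p n (t + 1) (s t x true)) / 2
      else p t x

/-- the step of the function `m` at the state `x` at time `t` (with sign) -/
noncomputable def stp (s : ℕ → σ → Bool → σ) (m : ℕ → σ → ℝ) (t : ℕ) (x : σ) : ℝ :=
  (m (t + 1) (s t x false) - m (t + 1) (s t x true)) / 2

/-- the martingale property of `m` at the state `x` at time `t` -/
def Mg (s : ℕ → σ → Bool → σ) (m : ℕ → σ → ℝ) (t : ℕ) (x : σ) : Prop :=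
  m t x = (m (t + 1) (s t x false) + m (t + 1) (s t x true)) / 2

open Classical in
/-- indicator of a family of sets of states -/
noncomputable def ind (E : ℕ → Set σ) : ℕ → σ → ℝ := fun t x => if x ∈ E t then 1 else 0

/-- `PK w K c`: a walk which is confined to a region `R` of at most `w` states per level, with steps
at most `1`, reaches a state of `E` (these have distance at least `K` from the starting value) with
probability at most `1 - c`. -/
def PK (w : ℕ) (K c : ℝ) : Prop := ∀ (σ : Type) (s : ℕ → σ → Bool → σ) (m : ℕ → σ → ℝ)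
  (R : ℕ → Finset σ) (E : ℕ → Set σ) (t n : ℕ) (x : σ), x ∈ R t → (∀ u, (R u).card ≤ w) →
  (∀ u, ∀ y ∈ R u, Mg s m u y ∧ |stp s m u y| ≤ 1) → (∀ u, ∀ y ∈ R u, |m u y - m t x| < K) →
  (∀ u, ∀ y ∈ E u, K ≤ |m u y - m t x|) → EV s R 0 (ind E) n t x ≤ 1 - c

open Classical in
/-- the states of `R` with value at distance less than `r` from `a` -/
noncomputable def Rin (m : ℕ → σ → ℝ) (R : ℕ → Finset σ) (a r : ℝ) : ℕ → Finset σ :=
  fun u => (R u).filter (fun y => |m u y - a| < r)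

/-- the states of `R` and `E` with value at distance at least `r` from `a` -/
def Xt (m : ℕ → σ → ℝ) (R : ℕ → Finset σ) (E : ℕ → Set σ) (a r : ℝ) : ℕ → Set σ :=
  fun u => {y | (y ∈ R u ∨ y ∈ E u) ∧ r ≤ |m u y - a|}

/-- the states of `R` and `E` with value at least `a + r` -/
def Xp (m : ℕ → σ → ℝ) (R : ℕ → Finset σ) (E : ℕ → Set σ) (a r : ℝ) : ℕ → Set σ :=
  fun u => {y | (y ∈ R u ∨ y ∈ E u) ∧ r ≤ m u y - a}

/-- cost: square of the step if it is at most `ρ` -/
noncomputable def cS (s : ℕ → σ → Bool → σ) (m : ℕ → σ → ℝ) (ρ : ℝ) : ℕ → σ → ℝ :=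
  fun u y => if |stp s m u y| ≤ ρ then stp s m u y ^ 2 else 0

/-- cost: `1` if the step is larger than `ρ` -/
noncomputable def cN (s : ℕ → σ → Bool → σ) (m : ℕ → σ → ℝ) (ρ : ℝ) : ℕ → σ → ℝ :=
  fun u y => if |stp s m u y| ≤ ρ then 0 else 1

/-- cost: the power `2 - ε` of the step -/
noncomputable def cP (s : ℕ → σ → Bool → σ) (m : ℕ → σ → ℝ) (ε : ℝ) : ℕ → σ → ℝ :=
  fun u y => |stp s m u y| ^ (2 - ε)

/-- the variation property: the expected sum of the powers `2 - ε` of the steps is at most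
`3 b ^ (2 - ε)` if all the values are in an interval of length `b` -/
def VR (w : ℕ) (ε : ℝ) : Prop := ∀ (σ : Type) (s : ℕ → σ → Bool → σ) (m : ℕ → σ → ℝ)
  (A : ℕ → Finset σ) (t n : ℕ) (x : σ) (l b : ℝ), 0 < b → (∀ u, (A u).card ≤ w) →
  (∀ u, ∀ y ∈ A u, Mg s m u y) →
  (∀ u, ∀ y ∈ A u, ∀ i, l ≤ m (u + 1) (s u y i) ∧ m (u + 1) (s u y i) ≤ l + b) →
  l ≤ m t x → m t x ≤ l + b → EV s A (cP s m ε) 0 n t x ≤ 3 * b ^ (2 - ε)

/-! ### Basic lemmas -/

theorem EV_zero (s : ℕ → σ → Bool → σ) (A : ℕ → Finset σ) (c p : ℕ → σ → ℝ) (t : ℕ) (x : σ) :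
    EV s A c p 0 t x = p t x := rfl

theorem EV_mem (s : ℕ → σ → Bool → σ) (A : ℕ → Finset σ) (c p : ℕ → σ → ℝ) (n t : ℕ) (x : σ)
    (hx : x ∈ A t) : EV s A c p (n + 1) t x =
      c t x + (EV s A c p n (t + 1) (s t x false) + EV s A c p n (t + 1) (s t x true)) / 2 := by
  simp only [EV]
  rw [if_pos hx]

theorem EV_not (s : ℕ → σ → Bool → σ) (A : ℕ → Finset σ) (c p : ℕ → σ → ℝ) (n t : ℕ) (x : σ)
    (hx : x ∉ A t) : EV s A c p n t x = p t x := by
  cases n with
  | zero => rfl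
  | succ n =>
    simp only [EV]
    rw [if_neg hx]

/-- the main tool: supersolutions -/
theorem EV_le (s : ℕ → σ → Bool → σ) (A : ℕ → Finset σ) (c p : ℕ → σ → ℝ) (v : ℕ → ℕ → σ → ℝ)
    (h0 : ∀ t x, p t x ≤ v 0 t x) (h1 : ∀ n t x, x ∉ A t → p t x ≤ v n t x)
    (h2 : ∀ n t x, x ∈ A t →
      c t x + (v n (t + 1) (s t x false) + v n (t + 1) (s t x true)) / 2 ≤ v (n + 1) t x)
    (n t : ℕ) (x : σ) : EV s A c p n t x ≤ v n t x := by
  induction n generalizing t x with
  | zero => exact h0 t x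
  | succ n ih =>
    by_cases hx : x ∈ A t
    · rw [EV_mem s A c p n t x hx]
      have := h2 n t x hx
      have := ih (t + 1) (s t x false)
      have := ih (t + 1) (s t x true)
      linarith
    · rw [EV_not s A c p _ t x hx]
      exact h1 _ t x hx

/-- the main tool: subsolutions -/
theorem EV_ge (s : ℕ → σ → Bool → σ) (A : ℕ → Finset σ) (c p : ℕ → σ → ℝ) (v : ℕ → ℕ → σ → ℝ)
    (h0 : ∀ t x, v 0 t x ≤ p t x) (h1 : ∀ n t x, x ∉ A t → v n t x ≤ p t x)
    (h2 : ∀ n t x, x ∈ A t →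
      v (n + 1) t x ≤ c t x + (v n (t + 1) (s t x false) + v n (t + 1) (s t x true)) / 2)
    (n t : ℕ) (x : σ) : v n t x ≤ EV s A c p n t x := by
  induction n generalizing t x with
  | zero => exact h0 t x
  | succ n ih =>
    by_cases hx : x ∈ A t
    · rw [EV_mem s A c p n t x hx]
      have := h2 n t x hx
      have := ih (t + 1) (s t x false)
      have := ih (t + 1) (s t x true)
      linarith
    · rw [EV_not s A c p _ t x hx]
      exact h1 _ t x hx

theorem EV_mono (s : ℕ → σ → Bool → σ) (A : ℕ → Finset σ) {c c' p p' : ℕ → σ → ℝ}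
    (hc : ∀ u, ∀ y ∈ A u, c u y ≤ c' u y) (hp : ∀ u y, p u y ≤ p' u y) (n t : ℕ) (x : σ) :
    EV s A c p n t x ≤ EV s A c' p' n t x := by
  apply EV_le s A c p (EV s A c' p')
  · intro t x; exact hp t x
  · intro n t x hx
    rw [EV_not s A c' p' n t x hx]; exact hp t x
  · intro n t x hx
    rw [EV_mem s A c' p' n t x hx]
    have := hc t x hx
    linarith

theorem EV_add (s : ℕ → σ → Bool → σ) (A : ℕ → Finset σ) (c c' p p' : ℕ → σ → ℝ) (n t : ℕ) (x : σ) :
    EV s A (fun u y => c u y + c' u y) (fun u y => p u y + p' u y) n t x =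
      EV s A c p n t x + EV s A c' p' n t x := by
  induction n generalizing t x with
  | zero => rfl
  | succ n ih =>
    by_cases hx : x ∈ A t
    · rw [EV_mem _ _ _ _ _ _ _ hx, EV_mem _ _ _ _ _ _ _ hx, EV_mem _ _ _ _ _ _ _ hx, ih, ih]
      ring
    · rw [EV_not _ _ _ _ _ _ _ hx, EV_not _ _ _ _ _ _ _ hx, EV_not _ _ _ _ _ _ _ hx]

theorem EV_mul (s : ℕ → σ → Bool → σ) (A : ℕ → Finset σ) (c p : ℕ → σ → ℝ) (a : ℝ) (n t : ℕ) (x : σ) :
    EV s A (fun u y => a * c u y) (fun u y => a * p u y) n t x = a * EV s A c p n t x := by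
  induction n generalizing t x with
  | zero => rfl
  | succ n ih =>
    by_cases hx : x ∈ A t
    · rw [EV_mem _ _ _ _ _ _ _ hx, EV_mem _ _ _ _ _ _ _ hx, ih, ih]
      ring
    · rw [EV_not _ _ _ _ _ _ _ hx, EV_not _ _ _ _ _ _ _ hx]

theorem EV_sum {ι : Type} (s : ℕ → σ → Bool → σ) (A : ℕ → Finset σ) (I : Finset ι)
    (c p : ι → ℕ → σ → ℝ) (n t : ℕ) (x : σ) :
    EV s A (fun u y => ∑ i ∈ I, c i u y) (fun u y => ∑ i ∈ I, p i u y) n t x =
      ∑ i ∈ I, EV s A (c i) (p i) n t x := by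
  induction n generalizing t x with
  | zero => rfl
  | succ n ih =>
    by_cases hx : x ∈ A t
    · rw [EV_mem _ _ _ _ _ _ _ hx, ih, ih, ← Finset.sum_add_distrib, Finset.sum_div,
        ← Finset.sum_add_distrib]
      apply Finset.sum_congr rfl
      intro i _
      rw [EV_mem _ _ _ _ _ _ _ hx]
    · rw [EV_not _ _ _ _ _ _ _ hx]
      apply Finset.sum_congr rfl
      intro i _
      rw [EV_not _ _ _ _ _ _ _ hx]

/-- costs only: sum and multiple with payoff `0` -/
theorem EV_add0 (s : ℕ → σ → Bool → σ) (A : ℕ → Finset σ) (c c' : ℕ → σ → ℝ) (n t : ℕ) (x : σ) :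
    EV s A (fun u y => c u y + c' u y) 0 n t x = EV s A c 0 n t x + EV s A c' 0 n t x := by
  have h := EV_add s A c c' 0 0 n t x
  have e : (fun (u : ℕ) (y : σ) => (0 : ℕ → σ → ℝ) u y + (0 : ℕ → σ → ℝ) u y) = 0 := by
    funext u y; simp
  rw [e] at h
  exact h

theorem EV_mul0 (s : ℕ → σ → Bool → σ) (A : ℕ → Finset σ) (c : ℕ → σ → ℝ) (a : ℝ) (n t : ℕ) (x : σ) :
    EV s A (fun u y => a * c u y) 0 n t x = a * EV s A c 0 n t x := by
  have h := EV_mul s A c 0 a n t x
  have e : (fun (u : ℕ) (y : σ) => a * (0 : ℕ → σ → ℝ) u y) = 0 := by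
    funext u y; simp
  rw [e] at h
  exact h

theorem EV_sum0 {ι : Type} (s : ℕ → σ → Bool → σ) (A : ℕ → Finset σ) (I : Finset ι)
    (c : ι → ℕ → σ → ℝ) (n t : ℕ) (x : σ) :
    EV s A (fun u y => ∑ i ∈ I, c i u y) 0 n t x = ∑ i ∈ I, EV s A (c i) 0 n t x := by
  have h := EV_sum s A I c (fun _ => 0) n t x
  have e : (fun (u : ℕ) (y : σ) => ∑ i ∈ I, (fun _ => (0 : ℕ → σ → ℝ)) i u y) = 0 := by
    funext u y; simp
  rw [e] at h
  exact h

/-- payoffs only -/
theorem EV_padd (s : ℕ → σ → Bool → σ) (A : ℕ → Finset σ) (p p' : ℕ → σ → ℝ) (n t : ℕ) (x : σ) :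
    EV s A 0 (fun u y => p u y + p' u y) n t x = EV s A 0 p n t x + EV s A 0 p' n t x := by
  have h := EV_add s A 0 0 p p' n t x
  have e : (fun (u : ℕ) (y : σ) => (0 : ℕ → σ → ℝ) u y + (0 : ℕ → σ → ℝ) u y) = 0 := by
    funext u y; simp
  rw [e] at h
  exact h

theorem EV_pmul (s : ℕ → σ → Bool → σ) (A : ℕ → Finset σ) (p : ℕ → σ → ℝ) (a : ℝ) (n t : ℕ) (x : σ) :
    EV s A 0 (fun u y => a * p u y) n t x = a * EV s A 0 p n t x := by
  have h := EV_mul s A 0 p a n t x
  have e : (fun (u : ℕ) (y : σ) => a * (0 : ℕ → σ → ℝ) u y) = 0 := by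
    funext u y; simp
  rw [e] at h
  exact h

theorem EV_const (s : ℕ → σ → Bool → σ) (A : ℕ → Finset σ) (a : ℝ) (n t : ℕ) (x : σ) :
    EV s A 0 (fun _ _ => a) n t x = a := by
  induction n generalizing t x with
  | zero => rfl
  | succ n ih =>
    by_cases hx : x ∈ A t
    · rw [EV_mem _ _ _ _ _ _ _ hx, ih, ih]
      simp
    · rw [EV_not _ _ _ _ _ _ _ hx]

theorem EV_nonneg (s : ℕ → σ → Bool → σ) (A : ℕ → Finset σ) {c p : ℕ → σ → ℝ}
    (hc : ∀ u, ∀ y ∈ A u, 0 ≤ c u y) (hp : ∀ u y, 0 ≤ p u y) (n t : ℕ) (x : σ) :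
    0 ≤ EV s A c p n t x := by
  have h := EV_mono s A (c := 0) (p := fun _ _ => 0) hc hp n t x
  rwa [EV_const] at h

theorem EV_le_one (s : ℕ → σ → Bool → σ) (A : ℕ → Finset σ) {p : ℕ → σ → ℝ}
    (hp : ∀ u y, p u y ≤ 1) (n t : ℕ) (x : σ) : EV s A 0 p n t x ≤ 1 := by
  have h := EV_mono s A (c := 0) (c' := 0) (p' := fun _ _ => 1) (fun _ _ _ => le_rfl) hp n t x
  rwa [EV_const] at h

theorem ind_nonneg (E : ℕ → Set σ) (u : ℕ) (y : σ) : 0 ≤ ind E u y := by
  unfold ind; split_ifs <;> norm_num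

theorem ind_le (E : ℕ → Set σ) (u : ℕ) (y : σ) : ind E u y ≤ 1 := by
  unfold ind; split_ifs <;> norm_num

theorem ind_mem (E : ℕ → Set σ) (u : ℕ) (y : σ) (h : y ∈ E u) : ind E u y = 1 := by
  unfold ind; rw [if_pos h]

theorem ind_not (E : ℕ → Set σ) (u : ℕ) (y : σ) (h : y ∉ E u) : ind E u y = 0 := by
  unfold ind; rw [if_neg h]

theorem EV_ind_nonneg (s : ℕ → σ → Bool → σ) (A : ℕ → Finset σ) (E : ℕ → Set σ) (n t : ℕ) (x : σ) :
    0 ≤ EV s A 0 (ind E) n t x :=
  EV_nonneg s A (fun _ _ _ => le_rfl) (ind_nonneg E) n t x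

theorem EV_ind_le (s : ℕ → σ → Bool → σ) (A : ℕ → Finset σ) (E : ℕ → Set σ) (n t : ℕ) (x : σ) :
    EV s A 0 (ind E) n t x ≤ 1 :=
  EV_le_one s A (ind_le E) n t x

/-- the complement: `1 - p` -/
theorem EV_compl (s : ℕ → σ → Bool → σ) (A : ℕ → Finset σ) (p : ℕ → σ → ℝ) (n t : ℕ) (x : σ) :
    EV s A 0 (fun u y => 1 - p u y) n t x = 1 - EV s A 0 p n t x := by
  have h := EV_padd s A (fun _ _ => 1) (fun u y => (-1) * p u y) n t x
  rw [EV_const, EV_pmul] at h
  have e : (fun (u : ℕ) (y : σ) => (1 : ℝ) + (-1) * p u y) = fun u y => 1 - p u y := by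
    funext u y; ring
  rw [e] at h
  rw [h]; ring

/-- the Markov property as an inequality -/
theorem EV_glue (s : ℕ → σ → Bool → σ) (A : ℕ → Finset σ) (p q : ℕ → σ → ℝ) (n k t : ℕ) (x : σ)
    (h1 : ∀ u y, y ∉ A u → q u y ≤ p u y)
    (h2 : ∀ y, q (t + n) y ≤ EV s A 0 p k (t + n) y) :
    EV s A 0 q n t x ≤ EV s A 0 p (n + k) t x := by
  induction n generalizing t x with
  | zero =>
    rw [Nat.zero_add]
    exact h2 x
  | succ n ih =>
    by_cases hx : x ∈ A t
    · rw [show n + 1 + k = (n + k) + 1 by ring, EV_mem _ _ _ _ _ _ _ hx, EV_mem _ _ _ _ _ _ _ hx]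
      have e : t + 1 + n = t + (n + 1) := by ring
      have := ih (t + 1) (s t x false) (by rw [e]; exact h2)
      have := ih (t + 1) (s t x true) (by rw [e]; exact h2)
      linarith
    · rw [EV_not _ _ _ _ _ _ _ hx, EV_not _ _ _ _ _ _ _ hx]
      exact h1 t x hx

theorem Mg.child {s : ℕ → σ → Bool → σ} {m : ℕ → σ → ℝ} {t : ℕ} {x : σ} (h : Mg s m t x) :
    m (t + 1) (s t x false) = m t x + stp s m t x ∧ m (t + 1) (s t x true) = m t x - stp s m t x := by
  unfold Mg at h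
  unfold stp
  constructor <;> linarith

theorem Mg.abs {s : ℕ → σ → Bool → σ} {m : ℕ → σ → ℝ} {t : ℕ} {x : σ} (h : Mg s m t x) (b : Bool) :
    |m (t + 1) (s t x b) - m t x| = |stp s m t x| := by
  have h1 := h.child
  cases b
  · rw [h1.1]; congr 1; ring
  · rw [h1.2, ← abs_neg]; congr 1; ring

end Pool.Agent.MP3145b1.RB
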