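import Pool.Agent.Lib.MP_3145b1_co.RB.Spec

/-!
# MP_3145b1_co, project RB, module En: energy
-/

set_option autoImplicit false

namespace Pool.Agent.MP3145b1.RB

open Finset

private theorem En_main (σ : Type) (s : ℕ → σ → Bool → σ) (m : ℕ → σ → ℝ) (A : ℕ → Finset σ) (l b : ℝ)
    (hM : ∀ u, ∀ y ∈ A u, Mg s m u y)
    (hI : ∀ u, ∀ y ∈ A u, ∀ i, l ≤ m (u + 1) (s u y i) ∧ m (u + 1) (s u y i) ≤ l + b) (n : ℕ) :
    ∀ (t : ℕ) (x : σ), l ≤ m t x → m t x ≤ l + b →
      EV s A (fun u y => stp s m u y ^ 2) 0 n t x ≤ b ^ 2 - (m t x - l) ^ 2 := by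
  induction n with
  | zero =>
    intro t x h1 h2
    rw [EV_zero]
    change (0 : ℝ) ≤ _
    nlinarith
  | succ n ih =>
    intro t x h1 h2
    by_cases hx : x ∈ A t
    · rw [EV_mem _ _ _ _ _ _ _ hx]
      have e0 := ih (t + 1) (s t x false) (hI t x hx false).1 (hI t x hx false).2
      have e1 := ih (t + 1) (s t x true) (hI t x hx true).1 (hI t x hx true).2
      obtain ⟨c0, c1⟩ := (hM t x hx).child
      rw [c0] at e0
      rw [c1] at e1
      nlinarith
    · rw [EV_not _ _ _ _ _ _ _ hx]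
      change (0 : ℝ) ≤ _
      nlinarith

theorem rEn : S_En := by
  intro σ s m A n t x l b _ hM hI h1 h2
  have h := En_main σ s m A l b hM hI n t x h1 h2
  have h3 := sq_nonneg (m t x - l)
  linarith

end Pool.Agent.MP3145b1.RB
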