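import Pool.Agent.Lib.MP_3145b1_co.RB.Def

/-!
# MP_3145b1_co, project RB (architect helper95)

THEOREM. For every `w` there is a constant `C` such that every Boolean function `f` with a read-once
branching program of width `w` (any order of the variables, no bound for the length) has
`Ent(f) ≤ C I(f)`, so `max |f^(S)| ≥ 2^(- C I(f) / 2)`.

RULES. Module X: file Pool/Agent/Lib/MP_3145b1_co/RB/X.lean, `import Pool.Agent.Lib.MP_3145b1_co.RB.Spec`,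
`namespace Pool.Agent.MP3145b1.RB`, `open Finset`, final theorem `theorem rX (h1 : S_A) ... : S_X` (the
statements listed under Uses, in this order, are the hypotheses). Auxiliary lemmas private, names X_.
Definitions and basic lemmas (EV_mem, EV_not, EV_le, EV_ge, EV_mono, EV_padd, EV_glue, Mg.child ...):
RB/Def.lean; READ IT FIRST. EV s A c p n t x = expected cost c and payoff p of the walk with at most n
steps that stops outside A. Every comparison is an induction on the number n of steps (for all t, x).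

PLAN. (1) PK w K c for every w (One, Ind, All): a walk with small steps through w states per level is
lost with probability ≥ c before it has moved by K. (2) Exc, En, Pnt, Var: hence the expected sum of
|step|^(2-ε) is bounded (VR w ε). (3) Fa, Fb, F2: localised forms. (4) Two, Pw: two-point inequality for
the entropy. (5) Cls, Spl, Inf, Chn, Lev, Emp: the entropy of f as a sum of steps. (6) Fou, Prm, Fin.
-/

set_option autoImplicit false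

namespace Pool.Agent.MP3145b1.RB

open Finset

/-! ## Part 1: `PK` -/

/-- **Rch** (two separated states). Uses: nothing.
Proof. For `a ∈ {y, z}` define `G_a : ℕ → Finset σ` (classical): `G_a u = ∅` for `u < t`, `G_a t = {a}`, and
`G_a (u+1)` = the `x ∈ R (u+1)` with `|m (u+1) x - m t a| < K` such that `x = s u x' b` for some `x' ∈ G_a u`, `b`
(for `u ≥ t`; define it by recursion on `u - t`). `G_a u ⊆ R u`, all elements have value at distance `< K` from `m t a`, so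
`G_y u` and `G_z u` are disjoint (`2 K ≤ |m t y - m t z|`).
(i) If `(G_a u).card ≤ w` for all `u`: `PK w K c` for `(G_a, E')`, `E' u = {x | K ≤ |m u x - m t a|}` gives
`EV s G_a 0 (ind E') n t a ≤ 1 - c`. Moreover `EV s R 0 (ind E) n u x ≤ EV s G_a 0 (ind E') n u x` for all `x ∈ G_a u`,
`t ≤ u`, by induction on `n`: `E u ⊆ E' u`; for `n + 1` both sides are averages over the children `x' = s u x b`: if
`x' ∈ G_a (u+1)` induction; if `x' ∈ R (u+1)`, `x' ∉ G_a (u+1)`, then `x' ∈ E' (u+1)` and the right side is `1`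
(EV_not, ind_mem; EV_ind_le); if `x' ∉ R (u+1)` both sides are payoffs at `x'` and `E ⊆ E'`.
(ii) Otherwise there are `u, v` with `(G_y u).card ≥ w + 1` and `(G_z v).card ≥ w + 1`, so `G_y u = R u`, `G_z v = R v`
(Finset.eq_of_subset_of_card_le), `t ≤ u, v`. If `u ≤ v` then `G_z u ⊆ R u = G_y u` is disjoint from `G_y u`, so empty,
so `G_z v' = ∅` for all `v' ≥ u` (recursion), a contradiction to `card ≥ w + 1`. The case `v ≤ u` is symmetric. -/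
def S_Rch : Prop := ∀ (w : ℕ) (K c : ℝ), 0 < K → PK w K c → ∀ (σ : Type) (s : ℕ → σ → Bool → σ) (m : ℕ → σ → ℝ)
  (R : ℕ → Finset σ) (E : ℕ → Set σ) (t : ℕ) (y z : σ), y ∈ R t → z ∈ R t → (∀ u, (R u).card ≤ w + 1) →
  (∀ u, ∀ x ∈ R u, Mg s m u x ∧ |stp s m u x| ≤ 1) →
  (∀ u, ∀ x ∈ E u, K ≤ |m u x - m t y| ∧ K ≤ |m u x - m t z|) → 2 * K ≤ |m t y - m t z| →
  (∀ n, EV s R 0 (ind E) n t y ≤ 1 - c) ∨ (∀ n, EV s R 0 (ind E) n t z ≤ 1 - c)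

/-- **Far** (a state with another state far away at all times). Uses: nothing.
Proof. `R' u = (R u).filter (fun x => |m u x - m t y| < K)` for `t ≤ u ≤ t + n` and `∅` for the other `u`;
`E' u = {x | K ≤ |m u x - m t y|}`. `(R' u).card ≤ w` (the state `z` is in `R u` and not in `R' u`). `PK` gives
`EV s R' 0 (ind E') n t y ≤ 1 - c`. Claim: for `k + u = t + n`, `t ≤ u`, and all `x`:
`1 ≤ EV s R 0 q k u x + EV s R' 0 (ind E') k u x`. Induction on `k`. `k = 0` (`u = t + n`): if `x ∈ E' u` the second term is `1`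
and `q ≥ 0`; otherwise if `x ∈ R u` then `q ≥ 1` by hypothesis; if `x ∉ R u` then `x ∉ E u` (`E u ⊆ E' u`), `q ≥ 1`.
`k + 1`: if `x ∈ R' u` then also `x ∈ R u`, average; if `x ∉ R' u`: the second term is `ind E' u x`; if `x ∈ E' u` it is `1`
(and the first is `≥ 0`); otherwise `x ∉ R u`, `x ∉ E u` and the first term is `q u x ≥ 1`. -/
def S_Far : Prop := ∀ (w : ℕ) (K c : ℝ), 0 < K → PK w K c → ∀ (σ : Type) (s : ℕ → σ → Bool → σ) (m : ℕ → σ → ℝ)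
  (R : ℕ → Finset σ) (E : ℕ → Set σ) (q : ℕ → σ → ℝ) (t n : ℕ) (y : σ), y ∈ R t → (∀ u, (R u).card ≤ w + 1) →
  (∀ u, ∀ x ∈ R u, Mg s m u x ∧ |stp s m u x| ≤ 1) → (∀ u, ∀ x ∈ E u, K ≤ |m u x - m t y|) →
  (∀ u, t ≤ u → u ≤ t + n → ∃ z ∈ R u, K ≤ |m u z - m t y|) → (∀ u x, 0 ≤ q u x) →
  (∀ u x, x ∉ R u → x ∉ E u → 1 ≤ q u x) →
  (∀ x ∈ R (t + n), |m (t + n) x - m t y| < K → 1 ≤ q (t + n) x) → c ≤ EV s R 0 q n t y

/-- **Mea** (mean value). Uses: nothing.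
Proof. `a = m t x`, `B u = {y | y ∉ R u ∨ m u y - a ≤ K}`. Claim: for all `n`, `u` and all `y` with `|m u y - a| ≤ 5 K + 1`:
`K - (m u y - a) ≤ 7 K * EV s R 0 (ind B) n u y`. Induction on `n`. If `n = 0` or `y ∉ R u` the EV is `ind B u y`: it is `1` if
`y ∈ B u` (`K + 5 K + 1 ≤ 7 K`) and if `y ∉ B u` the left side is negative. `n + 1`, `y ∈ R u`: `|m u y - a| < 5 K`, the
children have distance `≤ 5 K + 1`; average of the two inequalities (Mg). For `y = x` the left side is `K`. -/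
def S_Mea : Prop := ∀ (K : ℝ), 1 ≤ K → ∀ (σ : Type) (s : ℕ → σ → Bool → σ) (m : ℕ → σ → ℝ) (R : ℕ → Finset σ)
  (t n : ℕ) (x : σ), (∀ u, ∀ y ∈ R u, Mg s m u y ∧ |stp s m u y| ≤ 1) → (∀ u, ∀ y ∈ R u, |m u y - m t x| < 5 * K) →
  1 / 7 ≤ EV s R 0 (ind (fun u => {y | y ∉ R u ∨ m u y - m t x ≤ K})) n t x

/-- **Sid** (walks that leave on the positive side). Uses: nothing.
Proof. `R' = Rin m R a (5 K)` where `a = m t x`. Claim: for `k + u = t + n`, `t ≤ u` and all `y ∈ R' u` with `m u y - a < 4 K`: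
`c * EV s R' 0 (ind (Xp m R E a (5 K))) (k + 1) u y ≤ EV s R 0 q k u y`. Induction on `k`. The children `y'` of `y` have
`m - a < 4 K + 1 ≤ 5 K` (`K ≥ 1`), so they are not in `Xp`. `k = 0`: the left side is `0`. `k + 1`: both sides are averages over the
children `y'` (at time `u + 1`). (a) `y' ∈ R`, `4 K ≤ m y' - a`: the right side is `≥ c` by (Hz), the left EV is `≤ 1`. (b) `y' ∈ R`, `|m y' - a| < 5 K`,
`m y' - a < 4 K`: induction. (c) `y' ∈ R`, `m y' - a ≤ - 5 K`, or `y' ∉ R`: `y' ∉ R'`, the left EV is `ind Xp = 0`, the right one is `≥ 0`. -/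
def S_Sid : Prop := ∀ (K c : ℝ), 1 ≤ K → 0 < c → ∀ (σ : Type) (s : ℕ → σ → Bool → σ) (m : ℕ → σ → ℝ)
  (R : ℕ → Finset σ) (E : ℕ → Set σ) (q : ℕ → σ → ℝ) (t n : ℕ) (x : σ), x ∈ R t →
  (∀ u, ∀ y ∈ R u, Mg s m u y ∧ |stp s m u y| ≤ 1) → (∀ u y, 0 ≤ q u y) →
  (∀ k u, k + u = t + n → t ≤ u → ∀ y ∈ R u, 4 * K ≤ m u y - m t x → m u y - m t x < 4 * K + 1 →
    c ≤ EV s R 0 q k u y) →
  c * EV s (Rin m R (m t x) (5 * K)) 0 (ind (Xp m R E (m t x) (5 * K))) (n + 1) t x ≤ EV s R 0 q n t x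

/-- **InP** (induction step, positive side). Uses: S_Rch, S_Far, S_Mea, S_Sid.
Proof. `a = m t x`, `R' = Rin m R a (5K)`, `X = Xt m R E a (5K)`, `e n = EV s R' 0 (ind X) n t x`, `p u y = 1 - ind E u y`,
`κ = EV s R 0 p (n1 + n2) t x` (`= 1 - ` the EV of the claim, EV_compl). Suppose `κ < c^2/28 ≤ 1/28`. `Kl u = {y | y ∉ R u ∧ y ∉ E u}`,
`Bn u = {y | y ∈ R' u ∧ m u y - a ≤ K}`, `t1 = t + n1`.
(1) For `n ≤ N`: `EV s R' 0 (ind Kl) n u y ≤ EV s R 0 p N u y` for all `u, y` (induction on `n`; `y ∈ Kl u`: `y ∉ R u`, the right side is `p = 1`). So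
`EV s R' 0 (ind Kl) n t x ≤ κ` for `n ≤ n1`.
(2) S_Mea for `R'`: `1/7 ≤ EV s R' 0 (ind B) n t x`, `B u = {y | y ∉ R' u ∨ m u y - a ≤ K}`, and `ind B ≤ ind X + ind Kl + ind Bn` (`y ∉ R' u`: either
`y ∈ R u`, `|m u y - a| ≥ 5K`: `X`; or `y ∈ E u`, `|m u y - a| ≥ 7K`: `X`; or `Kl`). So for `n ≤ n1`:
`EV s R' 0 (ind Bn) n t x ≥ 1/7 - 1/14 - 1/28 > 0`, so `Bn (t + n)` is not empty (otherwise this EV is `0`: induction, `ind Bn = 0` outside `R'`).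
(3) For `y ∈ R t1` with `3K < m t1 y - a < 5K + 1` (call this `y ∈ Z`) and `z ∈ Bn t1` S_Rch (at time `t1`, states `y`, `z`; for `x' ∈ E u`:
`|m u x' - a| ≥ 7K`, so `|m u x' - m t1 y| ≥ 7K - 5K - 1 ≥ K`, `|m u x' - m t1 z| ≥ 7K - 5K`) gives `F y ≥ c` or `F z ≥ c`, where
`F y = EV s R 0 p n2 t1 y` (EV_compl). So (A) `F y ≥ c` for all `y ∈ Z`, or (B) `F z ≥ c` for all `z ∈ Bn t1`.
(B): `EV s R 0 (ind (Kl ∪ Bn)) n1 t x ≥ EV s R' 0 (ind (Kl ∪ Bn)) n1 t x` (induction: if `y ∈ R u`, `y ∉ R' u` the payoff on the left is `0`)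
`≥ 1/7 - e n1 ≥ 1/14` (2), and EV_glue with `q = c * ind (Kl ∪ Bn)`, `k = n2`, `p` (`y ∉ R u`: `q ≤ p`, `c ≤ 1`; at `t1`: (B), `F = p = 1` on `Kl`) gives `κ ≥ c/14 ≥ c^2/28`.
(A): `q = ind Q`, `Q u = {y | (y ∉ R u ∧ y ∉ E u) ∨ (y ∈ R u ∧ 3K < m u y - a ∧ m u y - a < 5K + 1)}`. (Hz) of S_Sid (`n = n1`, threshold `c`) holds by S_Far
(started at `y` at time `u` with `k = t1 - u` steps; for `x' ∈ E v`: `|m v x' - m u y| ≥ 7K - 4K - 1 ≥ K`; for `u ≤ v ≤ t1` there is `z ∈ Bn v` by (2): `m v z - a ≤ K`,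
so `|m v z - m u y| ≥ 3K`; horizon: `|m t1 x' - m u y| < K` gives `3K < m t1 x' - a < 5K + 1`). So `EV s R 0 q n1 t x ≥ c * (1/28)`, and EV_glue with `c * q`:
`κ ≥ c * c/28` (at `t1`: `F y ≥ c` on `Z`; `F = 1` on `Kl`; otherwise `0 ≤ F`). -/
def S_InP : Prop := ∀ (w : ℕ) (K c : ℝ), 1 ≤ K → 0 < c → c ≤ 1 → PK w K c → ∀ (σ : Type) (s : ℕ → σ → Bool → σ)
  (m : ℕ → σ → ℝ) (R : ℕ → Finset σ) (E : ℕ → Set σ) (t n1 n2 : ℕ) (x : σ), x ∈ R t → (∀ u, (R u).card ≤ w + 1) →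
  (∀ u, ∀ y ∈ R u, Mg s m u y ∧ |stp s m u y| ≤ 1) → (∀ u, ∀ y ∈ R u, |m u y - m t x| < 7 * K) →
  (∀ u, ∀ y ∈ E u, 7 * K ≤ |m u y - m t x|) →
  (∀ n, n ≤ n1 → EV s (Rin m R (m t x) (5 * K)) 0 (ind (Xt m R E (m t x) (5 * K))) n t x < 1 / 14) →
  1 / 28 ≤ EV s (Rin m R (m t x) (5 * K)) 0 (ind (Xp m R E (m t x) (5 * K))) (n1 + 1) t x →
  EV s R 0 (ind E) (n1 + n2) t x ≤ 1 - c ^ 2 / 28

/-- **Ind** (induction step). Uses: S_InP.
Proof. Let `a = m t x`, `R' = Rin m R a (5K)`, `X = Xt m R E a (5K)`, `e n = EV s R' 0 (ind X) n t x`; `e 0 = 0` (`x ∈ R t`, `|m t x - a| = 0`). Claim: `EV s R 0 (ind E) n u y ≤ EV s R' 0 (ind X) n u y`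
for all `n, u, y` (induction; `y ∉ R u`: payoffs, `E ⊆ X`; `y ∈ R' u`: average, and for `n = 0`: `y ∉ E u`; `y ∈ R u`, `y ∉ R' u`: `y ∈ X u`, the right side is `1`). If `e n < 1/14` (`n` the number
of steps in PK) we are done (`1/14 ≤ 1 - c^2/28`). Otherwise let `n1 + 1` be the least number with `e (n1 + 1) ≥ 1/14` (Nat.find), `n = n1 + n2`.
`ind X ≤ ind (Xp m ..) + ind (Xp (-m) R E (-a) (5K))` (`-m` = `fun u y => - m u y`), so one of the two EVs with `n1 + 1` steps is `≥ 1/28`. In the first case S_InP; in the second case S_InP for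
`-m`: `Rin (-m) R (-a) r = Rin m R a r`, `Xt (-m) .. = Xt m ..` (`|-u - -a| = |u - a|`), Mg and `|stp|` are the same. -/
def S_Ind : Prop := ∀ (w : ℕ) (K c : ℝ), 1 ≤ K → 0 < c → c ≤ 1 → PK w K c → PK (w + 1) (7 * K) (c ^ 2 / 28)

/-- **One** (one state per level). Uses: nothing.
Proof. Let `x ∈ R t`, `a = m t x`. Claim by induction on `n`: for all `u`, `y ∈ R u` with `m u y = a`: `EV s R 0 (ind E) n u y ≤ 1/2`. `n = 0`: `y ∉ E u` (`|a - a| = 0 < 2`). `n + 1`: the children `y0`, `y1` have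
`|m - a| ≤ 1`, so they are not in `E`. If both are in `R (u+1)` they are equal (card ≤ 1), so `m y0 = m y1 = a` (Mg), induction. If one is not in `R (u+1)` its EV is `ind E = 0`, the other one is `≤ 1`. -/
def S_One : Prop := PK 1 2 (1 / 2)

/-- **All**. Uses: S_One, S_Ind.
Proof. Induction on `w ≥ 1` (K = 2, c = 1/2; then 7 K, c^2/28). -/
def S_All : Prop := ∀ w : ℕ, 1 ≤ w → ∃ K c : ℝ, 1 ≤ K ∧ 0 < c ∧ c ≤ 1 ∧ PK w K c

/-! ## Part 2: the variation -/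

/-- **Exc** (small steps against large steps). Uses: nothing.
Proof. `S n u y = EV s A (cS s m ρ) 0 n u y`, `N n u y = EV s A (cN s m ρ) 0 n u y`, `D = (K + 1)^2 / c * ρ^2`, so `D c = (K + 1)^2 ρ^2`. Strong induction on `n`: `S n t x ≤ D (1 + N n t x)` for all `t, x`.
Consequence (L) of the induction hypothesis: for `k < n` and `y ∈ A u` with `|stp s m u y| > ρ`: `S k u y ≤ D N k u y` (`k = 0`: `0`; `k = k' + 1`: `S k u y = avg S k' ≤ D (1 + avg N k') = D N k u y`); the same for `k = n`.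
If `n = 0` or `x ∉ A t`: `S = 0`. If `|stp| > ρ` at `x`: (L). Otherwise let `a = m t x`, `R u = (A u).filter (|stp s m u y| ≤ ρ ∧ |m u y - a| < K ρ)`, `E u = {y | y ∈ A u ∧ |stp s m u y| ≤ ρ ∧ K ρ ≤ |m u y - a|}`.
`PK w K c` for `m/ρ` (`fun u y => m u y / ρ`) gives `EV s R 0 (ind E) n t x ≤ 1 - c`.
Claim: `S k u y ≤ (K+1)^2 ρ^2 - (m u y - a)^2 + D (N k u y + EV s R 0 (ind E) k u y)` for `k ≤ n`, `y ∈ R u`, and for `k < n`, `|m u y - a| ≤ (K+1) ρ`. Induction on `k`. `y ∈ R u`, `k = 0`: `S = 0`, the right side is `≥ 0`.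
`y ∈ R u`, `k + 1`: `S (k+1) u y = stp^2 + avg S k`, the children have `|m - a| ≤ K ρ + ρ`, `avg (m y' - a)^2 = (m u y - a)^2 + stp^2`, `N (k+1) u y = avg N k`, EV of `E` = average: exactly the claim. For `k < n` and `y ∉ R u`, `|m u y - a| ≤ (K+1)ρ`:
`y ∉ A u`: `S = 0`; `|stp| > ρ`: (L); `y ∈ E u`: the EV of `E` is `1`, `S k u y ≤ D (1 + N k u y)` by the outer induction.
For `k = n`, `y = x`: `S n t x ≤ (K+1)^2 ρ^2 + D (N + 1 - c) = D (1 + N)`. -/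
def S_Exc : Prop := ∀ (w : ℕ) (K c : ℝ), 1 ≤ K → 0 < c → c ≤ 1 → PK w K c → ∀ (σ : Type) (s : ℕ → σ → Bool → σ)
  (m : ℕ → σ → ℝ) (A : ℕ → Finset σ) (ρ : ℝ) (n t : ℕ) (x : σ), 0 < ρ → (∀ u, (A u).card ≤ w) →
  (∀ u, ∀ y ∈ A u, Mg s m u y) →
  EV s A (cS s m ρ) 0 n t x ≤ (K + 1) ^ 2 / c * ρ ^ 2 * (1 + EV s A (cN s m ρ) 0 n t x)

/-- **En** (energy). Uses: nothing.
Proof. For all `n, u, y` with `l ≤ m u y ≤ l + b`: `EV s A (stp^2) 0 n u y ≤ b^2 - (m u y - l)^2`, by induction on `n` (average: `avg (m y' - l)^2 = (m u y - l)^2 + stp^2`). -/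
def S_En : Prop := ∀ (σ : Type) (s : ℕ → σ → Bool → σ) (m : ℕ → σ → ℝ) (A : ℕ → Finset σ) (n t : ℕ) (x : σ) (l b : ℝ),
  0 ≤ b → (∀ u, ∀ y ∈ A u, Mg s m u y) → (∀ u, ∀ y ∈ A u, ∀ i, l ≤ m (u + 1) (s u y i) ∧ m (u + 1) (s u y i) ≤ l + b) →
  l ≤ m t x → m t x ≤ l + b → EV s A (fun u y => stp s m u y ^ 2) 0 n t x ≤ b ^ 2

/-- **Pnt** (pointwise inequality). Uses: nothing. `θ = 1 + 1/(3C) ≤ 4/3`, `N = N0 + 1` terms.
Proof. `P = 1 + (θ - 1) ∑_{k ≤ N0, d ≤ 2^(-k)} θ^k`. For `d > 0` the `k ≤ N0` with `d ≤ 2^(-k)` are `0, .., κ` (`0` is one of them, `d ≤ 1`), so `P = θ^(κ+1)` (geometric sum). The sum in (1) on the left: if `κ = N0` it is `0`; otherwise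
`d > 2^(-κ-1)` and it is `∑_{k=κ+1}^{N0} (θ/4)^k ≤ (3/2) (θ/4)^(κ+1) ≤ (3/2) d^2 P` (`θ/4 ≤ 1/3`, `4^(-κ-1) ≤ d^2`). And `∑ θ^k [d ≤ 2^(-k)] d^2 = d^2 (P - 1)/(θ - 1) = 3 C d^2 (P - 1)`; so
`C (3/2) d^2 P = (3/2) C d^2 + (1/2) 3 C d^2 (P - 1)`: (1). (2): the right side is `d^2 P + 2^(-N0)`; if `d ≤ 2^(-N0-1)`: `d^(2 - logb 2 θ) ≤ d ≤ 2^(-N0)` (`logb 2 θ ≤ 1/2`); otherwise `d > 2^(-κ-1)` (also if `κ = N0`), so
`d^(- logb 2 θ) ≤ 2^((κ+1) logb 2 θ) = θ^(κ+1) = P`. `d = 0`: (1) left side `0`; (2) `0^(..) = 0`. (3) `θ/4 ≤ 1/3`. (4) `θ ≤ 4/3 ≤ sqrt 2`. -/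
def S_Pnt : Prop := ∀ (C : ℝ), 1 ≤ C → ∀ (θ : ℝ), θ = 1 + 1 / (3 * C) → ∀ (N0 : ℕ),
  (∀ d : ℝ, 0 ≤ d → d ≤ 1 →
    C * ∑ k ∈ range (N0 + 1), (θ / 4) ^ k * (if d ≤ (1 / 2) ^ k then 0 else 1) ≤
      1 / 2 * ∑ k ∈ range (N0 + 1), θ ^ k * (if d ≤ (1 / 2) ^ k then d ^ 2 else 0) + 3 / 2 * C * d ^ 2) ∧
  (∀ d : ℝ, 0 ≤ d → d ≤ 1 → d ^ (2 - Real.logb 2 θ) ≤
      d ^ 2 + 1 / (3 * C) * ∑ k ∈ range (N0 + 1), θ ^ k * (if d ≤ (1 / 2) ^ k then d ^ 2 else 0) + (1 / 2) ^ N0) ∧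
  ∑ k ∈ range (N0 + 1), (θ / 4) ^ k ≤ 3 / 2 ∧ 0 < Real.logb 2 θ ∧ Real.logb 2 θ ≤ 1 / 2

/-- **Var** (bounded variation of order less than 2). Uses: S_All, S_Exc, S_En, S_Pnt.
Proof. `K, c` from S_All, `C = (K+1)^2/c ≥ 1`, `θ = 1 + 1/(3C)`, `ε = logb 2 θ`. Put `d u y = |stp s m u y| / b`; for `y ∈ A u` it is `≤ 1` (the two children are in an interval of length `b`). For `k ≤ N0` S_Exc with `ρ = b 2^(-k)`, divided by `b^2`
(`EV_mul0`; `cS s m ρ = b^2 (if d ≤ 2^(-k) then d^2 else 0)`, `cN s m ρ = if d ≤ 2^(-k) then 0 else 1`) and multiplied by `θ^k`; sum over `k ≤ N0` (EV_sum0): with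
`a1 = EV(∑_k θ^k (if d ≤ 2^(-k) then d^2 else 0))`, `a2 = EV(∑_k (θ/4)^k (if d ≤ 2^(-k) then 0 else 1))`: `a1 ≤ C ∑_k (θ/4)^k + C a2 ≤ (3/2) C + C a2`, and `C a2 ≤ a1/2 + (3/2) C EV(d^2)`, `EV(d^2) ≤ 1` (S_En). So `a1 ≤ 6 C`.
By (2) of S_Pnt: `EV(d^(2-ε)) ≤ EV(d^2) + a1/(3C) + EV(2^(-N0)) ≤ 3 + n 2^(-N0)` (cost at most `2^(-N0)` in each of at most `n` steps). This holds for all `N0`, so `EV(d^(2-ε)) ≤ 3`; `|stp|^(2-ε) = b^(2-ε) d^(2-ε)`. -/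
def S_Var : Prop := ∀ w : ℕ, 1 ≤ w → ∃ ε : ℝ, 0 < ε ∧ ε ≤ 1 / 2 ∧ VR w ε

/-- **Fa** (variation below the level `b`). Uses: nothing.
Proof. `G n u y` = the EV of the statement (at `u, y`), `g = 6 (4b)^(2-ε)`. Claim `G n t x ≤ g` for all `t, x`, by (strong) induction on `n`. `x ∉ A t` or `n = 0`: `0`. `m t x ≥ b`: the cost at `x` is `0`, average of `G (n-1)`. Let `m t x < b`, `A' u = (A u).filter (m u y < 2b)`.
`VR w ε` for `A'` with `l = 0` and `4b` (the children of `y ∈ A' u` have values in `[0, 4b]`: they are `≥ 0` and their mean is `< 2b`): `EV s A' (cP s m ε) 0 n t x ≤ 3 (4b)^(2-ε) = g/2`. Inner claim (induction on `k`):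
`G k u y ≤ EV s A' (cP s m ε) 0 k u y + g (m u y)/(2b)` for all `u, y` if `k < n`, and for `y ∈ A' u` or `y ∉ A u` if `k = n`: `y ∉ A u`: `0`; `y ∈ A u`, `m u y ≥ 2b`: `G k ≤ g ≤ g m/(2b)` (outer induction, `k < n`); `y ∈ A' u`: `k = 0` clear; `k + 1`: the cost is `≤ cP`, average, Mg.
So `G n t x ≤ g/2 + g/2`. (rpow: `0 < 4b`.) -/
def S_Fa : Prop := ∀ (w : ℕ) (ε : ℝ), 0 < ε → ε ≤ 1 / 2 → VR w ε → ∀ (σ : Type) (s : ℕ → σ → Bool → σ) (m : ℕ → σ → ℝ)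
  (A : ℕ → Finset σ) (n t : ℕ) (x : σ) (b : ℝ), 0 < b → (∀ u, (A u).card ≤ w) → (∀ u, ∀ y ∈ A u, Mg s m u y) →
  (∀ u y, 0 ≤ m u y ∧ m u y ≤ 1) →
  EV s A (fun u y => if m u y < b then cP s m ε u y else 0) 0 n t x ≤ 6 * (4 * b) ^ (2 - ε)

/-- **Fb** (variation of a martingale with small starting value). Uses: S_Fa.
Proof. (1) For `h > 0`: `W = EV s A (if h ≤ m u y ∧ m u y < 2h then cP else 0) ≤ 6 (8h)^(2-ε) (m t x)/h`: induction on `n`; if `m t x ≥ h` use S_Fa with `b = 2h` (the cost is smaller); if `m t x < h` the cost at `x` is `0`, average, Mg; `x ∉ A t`: `0`.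
(2) For all `u`, `y ∈ A u` and `N0`: `cP u y ≤ ∑_{k < N0} (if 2^(-k-1) ≤ m u y ∧ m u y < 2^(-k) then cP else 0) + (if m u y < 2^(-N0) then cP else 0)`: if `m u y = 1` both children are `1` and `cP = 0` (`2 - ε > 0`), otherwise `m u y < 1` (induction on `N0`).
(3) Sum: `EV(cP) ≤ ∑_{k<N0} 6 (8 2^(-k-1))^(2-ε) 2^(k+1) m t x + 6 (4 2^(-N0))^(2-ε)`; `(4 2^(-k))^(2-ε) 2^(k+1) ≤ 32 (2^(-k))^(1/2)` (`4^(2-ε) ≤ 16`, `(2^(-k))^(2-ε) ≤ (2^(-k))^(3/2)`), `∑_k 2^(-k/2) ≤ 1/(1 - 2^(-1/2)) ≤ 3.5`, `6 * 32 * 3.5 = 672`;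
the last term is `≤ 96 2^(-N0)` and tends to `0`. -/
def S_Fb : Prop := ∀ (w : ℕ) (ε : ℝ), 0 < ε → ε ≤ 1 / 2 → VR w ε → ∀ (σ : Type) (s : ℕ → σ → Bool → σ) (m : ℕ → σ → ℝ)
  (A : ℕ → Finset σ) (n t : ℕ) (x : σ), (∀ u, (A u).card ≤ w) → (∀ u, ∀ y ∈ A u, Mg s m u y) →
  (∀ u y, 0 ≤ m u y ∧ m u y ≤ 1) → EV s A (cP s m ε) 0 n t x ≤ 700 * m t x

/-- **F2** (variation weighted by the square of another martingale). Uses: nothing.
Proof. (1) For `h > 0`: `EV s A (if h ≤ m' u y then cP s m ε u y else 0) 0 n t x ≤ 3 (m' t x)/h`: induction on `n`; if `m' t x ≥ h`: it is `≤ EV (cP) ≤ 3` (VR with `l = 0`, `b = 1`); if `m' t x < h`: cost `0`, average, Mg. (2) `(m')^2 ≤ ∑_{k<N0} 4^(-k) [2^(-k-1) ≤ m'] + 4^(-N0)` for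
`0 ≤ m' ≤ 1` (induction on `N0`: for `m' ≤ 2^(-N0)` one has `m'^2 ≤ 4^(-N0)`, and if `m' < 2^(-N0-1)` even `≤ 4^(-N0-1)`). (3) Sum: `∑_k 4^(-k) 3 2^(k+1) ≤ 12`, and `EV (4^(-N0) cP) ≤ 3 4^(-N0)`, for all `N0`. -/
def S_F2 : Prop := ∀ (w : ℕ) (ε : ℝ), 0 < ε → ε ≤ 1 / 2 → VR w ε → ∀ (σ : Type) (s : ℕ → σ → Bool → σ) (m m' : ℕ → σ → ℝ)
  (A : ℕ → Finset σ) (n t : ℕ) (x : σ), (∀ u, (A u).card ≤ w) → (∀ u, ∀ y ∈ A u, Mg s m u y ∧ Mg s m' u y) →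
  (∀ u y, 0 ≤ m u y ∧ m u y ≤ 1) → (∀ u y, 0 ≤ m' u y ∧ m' u y ≤ 1) →
  EV s A (fun u y => cP s m ε u y * m' u y ^ 2) 0 n t x ≤ 12 * m' t x

/-! ## Part 3: two-point inequality -/

/-- `t log (1/t)`, natural logarithm -/
noncomputable def hh (t : ℝ) : ℝ := Real.negMulLog t

/-- the entropy difference for one variable -/
noncomputable def dl (u w : ℝ) : ℝ := hh (u ^ 2) + hh (w ^ 2) - (hh ((u + w) ^ 2) + hh ((u - w) ^ 2)) / 2

/-- **Two** (two-point inequality). Uses: nothing.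
Proof. `dl u w` does not change if the sign of `u` or of `w` is changed; so `u, w ≥ 0` (`hh (x^2) = - 2 x^2 log |x|`). `w = 0`: `dl = 0`. `w > 0`, `u < w`: `(u+w)^2 log (u+w) + (u-w)^2 log |u-w| ≤ ((u+w)^2 + (u-w)^2) log (u+w) = (2u^2 + 2w^2) log (u+w)`, so
`dl ≤ 2u^2 log ((u+w)/u) + 2w^2 log ((u+w)/w) ≤ 2uw + 2uw ≤ 4w^2` (`log (1+y) ≤ y`; `u = 0`: `dl ≤ 0`). `u ≥ w > 0`, `y = w/u ≤ 1`: `dl = 2w^2 log (u/w) + u^2 ((1+y)^2 log (1+y) + (1-y)^2 log (1-y)) ≤ 2w^2 log (u/w) + u^2 (y (1+y)^2 - y (1-y)^2) = 2w^2 log (u/w) + 4w^2`,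
and `log (u/w) ≤ (u/w)^ε/ε` (Real.log_le_rpow_div), `w^2 (u/w)^ε = w^(2-ε) u^ε`. -/
def S_Two : Prop := ∀ (ε u w : ℝ), 0 < ε → ε ≤ 1 → dl u w ≤ 4 * w ^ 2 + 2 / ε * (|w| ^ (2 - ε) * |u| ^ ε)

/-- **Pw** (the two-point inequality for sums). Uses: S_Two.
Proof. `W = ∑ a_z G_z`, `U = ∑ m_z G_z`. `W^2 ≤ w ∑ a_z^2 G_z^2 ≤ w ∑ |a_z|^(2-ε) G_z^2` (`|a_z| ≤ 1`). Let `α = max_z |a_z G_z|`, attained at `z0`, `μ = max_z m_z |G_z|`, attained at `z1` (`w ≥ 1`; for `w = 0` all is `0`). `|W| ≤ w α`, `|U| ≤ w μ`, so `|W|^(2-ε) |U|^ε ≤ w^2 α^(2-ε) μ^ε`, and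
`α^(2-ε) μ^ε = (|a|^(2-ε) G^2)^(1-ε/2) (|a|^(2-ε) m'^2 G'^2)^(ε/2)` with `a, G` at `z0`, `m', G'` at `z1` (powers of `|a|`: `(2-ε)(1-ε/2) + (2-ε) ε/2 = 2-ε`), `≤ |a|^(2-ε) G^2 + |a|^(2-ε) m'^2 G'^2` (`x^(1-β) y^β ≤ max x y ≤ x + y`). Both terms are terms of the sums on the right. -/
def S_Pw : Prop := ∀ (w : ℕ) (ε : ℝ), 0 < ε → ε ≤ 1 / 2 → ∀ (a m G : Fin w → ℝ), (∀ z, |a z| ≤ 1) →
  (∀ z, 0 ≤ m z) →
  dl (∑ z, m z * G z) (∑ z, a z * G z) ≤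
    (4 * w + 2 * w ^ 2 / ε) * ∑ z, |a z| ^ (2 - ε) * G z ^ 2 +
    2 * w ^ 2 / ε * ∑ z, ∑ z', |a z| ^ (2 - ε) * m z' ^ 2 * G z' ^ 2

/-! ## Part 4: the entropy of a program -/

/-- Fourier coefficient at the set `T` of the function of the last `k` bits computed from the state `x` at time `i`
with the output `o`; the elements of `T` are times -/
noncomputable def Cf {σ : Type} (s : ℕ → σ → Bool → σ) (o : σ → ℝ) (T : Finset ℕ) : ℕ → ℕ → σ → ℝ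
  | 0, _, x => o x
  | k + 1, i, x => (Cf s o T k (i + 1) (s i x false) + (if i ∈ T then -1 else 1) * Cf s o T k (i + 1) (s i x true)) / 2

/-- probability that the state at time `j` is `z`, starting from `x` at time `i` -/
noncomputable def pr {w : ℕ} (s : ℕ → Fin w → Bool → Fin w) (j : ℕ) (z : Fin w) (i : ℕ) (x : Fin w) : ℝ :=
  EV s (fun _ => univ) 0 (fun _ y => if y = z then 1 else 0) (j - i) i x

/-- all the states at the times before `j` -/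
def Aj (w j : ℕ) : ℕ → Finset (Fin w) := fun u => if u < j then univ else ∅

/-- the sum of the squares of the coefficients of the sets with least element `j`, from the state `z` at time `j` -/
noncomputable def J {w : ℕ} (s : ℕ → Fin w → Bool → Fin w) (o : Fin w → ℝ) (n j : ℕ) (z : Fin w) : ℝ :=
  ∑ T ∈ (Ico (j + 1) n).powerset, Cf s o (insert j T) (n - j) j z ^ 2

/-- **Cls** (classes by the least element). Uses: nothing.
Proof. Induction on `n - a` (`a ≤ n`): `Ico a n = insert a (Ico (a+1) n)` (Finset.sum_powerset_insert: the sum over the powerset is the sum over the `T ⊆ Ico (a+1) n` of `φ T + φ (insert a T)`). -/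
def S_Cls : Prop := ∀ (φ : Finset ℕ → ℝ) (a n : ℕ), a ≤ n →
  ∑ T ∈ (Ico a n).powerset, φ T = φ ∅ + ∑ j ∈ Ico a n, ∑ T ∈ (Ico (j + 1) n).powerset, φ (insert j T)

/-- **Spl** (coefficients before the least element). Uses: nothing.
Proof. (1) Induction on `j - i`: for `i = j`: `pr s j z j x = if x = z then 1 else 0`. `i < j`: `i ∉ T` (`T ⊆ Ico j n`), `n - i = (n - i - 1) + 1`, so `Cf` at `i` is the average of the `Cf` at `i + 1`, and `pr` at `i` is the average of the `pr` at `i + 1` (`j - i = (j - (i+1)) + 1`). (2), (3) by the same recursion; (4), (5): EV_const, the sum over `z` of the payoffs is `1`. -/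
def S_Spl : Prop := ∀ (w : ℕ) (s : ℕ → Fin w → Bool → Fin w) (o : Fin w → ℝ) (j n : ℕ), j ≤ n →
  (∀ T : Finset ℕ, T ⊆ Ico j n → ∀ i, i ≤ j → ∀ x : Fin w,
    Cf s o T (n - i) i x = ∑ z, pr s j z i x * Cf s o T (n - j) j z) ∧
  (∀ z, ∀ u, ∀ y ∈ Aj w j u, Mg s (pr s j z) u y) ∧ (∀ z u y, 0 ≤ pr s j z u y ∧ pr s j z u y ≤ 1)

/-- **Inf** (the influence). Uses: S_Spl.
Proof. For `j < n` let `Q i x = ∑_{T ∈ (Ico i n).powerset, j ∈ T} (Cf s o T (n-i) i x)^2` (`i ≤ j`). For `i < j`: the sets are `T` and `insert i T`, `T ⊆ Ico (i+1) n`, `j ∈ T`, and with `c_b = Cf s o T (n-i-1) (i+1) (s i x b)` (`Cf` at times `> i` does not depend on whether `i ∈ T`: Cf_congr, induction) the two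
coefficients are `(c_0 ± c_1)/2`, sum of squares `(c_0^2 + c_1^2)/2`. So `Q i x` is the average of `Q (i+1)`. `Q j z = J s o n j z` (the sets are `insert j T`). So `Q 0 x = ∑_z pr s j z 0 x * J z` (induction as in S_Spl: both sides satisfy the recursion, at `i = j` they agree). Finally `∑_T |T| c_T^2 = ∑_{j<n} ∑_{T ∋ j} c_T^2`. -/
def S_Inf : Prop := ∀ (w : ℕ) (s : ℕ → Fin w → Bool → Fin w) (o : Fin w → ℝ) (n : ℕ) (x : Fin w),
  ∑ T ∈ (range n).powerset, (T.card : ℝ) * Cf s o T n 0 x ^ 2 = ∑ j ∈ range n, ∑ z, pr s j z 0 x * J s o n j z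

/-- **Chn** (chain of the entropies). Uses: nothing.
Proof. `H i x = ∑_{T ∈ (Ico i n).powerset} hh ((Cf s o T (n-i) i x)^2)`. Claim `H i x = EV s univ (D) 0 (n-i) i x` for `i ≤ n`, `D u y = ∑_{T ∈ (Ico (u+1) n).powerset} dl (..) (..)` as in the statement, by induction on `n - i`. `i = n`: `H = hh (o x ^ 2) = hh 1 = 0`.
`i < n`: Finset.sum_powerset_insert (`Ico i n = insert i (Ico (i+1) n)`); for `T ⊆ Ico (i+1) n`, `c_b = Cf s o T (n-i-1) (i+1) (s i x b)`, the coefficients of `T` and `insert i T` at `(i, x)` are `U = (c_0 + c_1)/2`, `W = (c_0 - c_1)/2`, `c_0 = U + W`, `c_1 = U - W`, so `hh(U^2) + hh(W^2) = dl U W + (hh(c_0^2) + hh(c_1^2))/2`. -/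
def S_Chn : Prop := ∀ (w : ℕ) (s : ℕ → Fin w → Bool → Fin w) (o : Fin w → ℝ) (n : ℕ) (x : Fin w), (∀ z, o z ^ 2 = 1) →
  ∑ T ∈ (range n).powerset, hh (Cf s o T n 0 x ^ 2) =
    EV s (fun _ => univ) (fun i y => ∑ T ∈ (Ico (i + 1) n).powerset,
      dl ((Cf s o T (n - (i + 1)) (i + 1) (s i y false) + Cf s o T (n - (i + 1)) (i + 1) (s i y true)) / 2)
         ((Cf s o T (n - (i + 1)) (i + 1) (s i y false) - Cf s o T (n - (i + 1)) (i + 1) (s i y true)) / 2)) 0 n 0 x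

/-- **Lev** (the sets with least element `j`). Uses: S_Fb, S_F2, S_Pw, S_Spl.
Proof. For `i < j` and `T' = insert j T`, `T ⊆ Ico (j+1) n`, S_Spl (1) at time `i + 1` gives for the two arguments of `dl`: `∑_z pr s j z i y G_z` and `∑_z a_z G_z` with `G_z = Cf s o T' (n-j) j z`, `a_z = stp s (pr s j z) i y` (Mg for the first one). `|a_z| ≤ 1`. S_Pw, sum over `T`: the cost at `(i, y)` is
`≤ (4w + 2w^2/ε) ∑_z cP s (pr s j z) ε i y J_z + (2w^2/ε) ∑_z ∑_z' cP s (pr s j z) ε i y (pr s j z' i y)^2 J_z'`. EV is linear (EV_sum0, EV_mul0, EV_add0); S_Fb: `EV (cP (pr z)) ≤ 700 pr s j z 0 x`; S_F2: `EV (cP (pr z) (pr z')^2) ≤ 12 pr s j z' 0 x`; the sum over `z` gives a factor `w`. Total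
`≤ (4w + 2w^2/ε) 700 ∑ + (2w^2/ε) w 12 ∑ ≤ (2800 w + (1400 + 24 w) w^2/ε) ∑_z pr s j z 0 x J_z`. (`(Aj w j u).card ≤ w`.) -/
def S_Lev : Prop := ∀ (w : ℕ) (ε : ℝ), 0 < ε → ε ≤ 1 / 2 → VR w ε → ∀ (s : ℕ → Fin w → Bool → Fin w) (o : Fin w → ℝ)
  (n j : ℕ) (x : Fin w), j < n →
  EV s (Aj w j) (fun i y => ∑ T ∈ (Ico (j + 1) n).powerset,
      dl ((Cf s o (insert j T) (n - (i + 1)) (i + 1) (s i y false) + Cf s o (insert j T) (n - (i + 1)) (i + 1) (s i y true)) / 2)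
         ((Cf s o (insert j T) (n - (i + 1)) (i + 1) (s i y false) - Cf s o (insert j T) (n - (i + 1)) (i + 1) (s i y true)) / 2)) 0 n 0 x ≤
    (2800 * w + (1400 + 24 * w) * w ^ 2 / ε) * ∑ z, pr s j z 0 x * J s o n j z

/-- **Emp** (the empty set). Uses: S_Fb, S_Two.
Proof. `m i y = (1 - Cf s o ∅ (n-i) i y)/2` is in `[0,1]` (`|Cf s o ∅| ≤ 1`, it is an average of values `± 1`), it is a martingale for `i < n`. The arguments of `dl` at `(i, y)`, `i < n`: `U = Cf s o ∅ (n-i) i y = 1 - 2 m i y`, `|U| ≤ 1`, `W = - 2 stp s m i y`, so by S_Two (`|stp| ≤ 1`)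
`dl ≤ 16 stp^2 + (2/ε) 4 |stp|^(2-ε) ≤ (16 + 8/ε) cP s m ε i y`. S_Fb for `m` and for `1 - m` (same `cP`), with `A = Aj w n`: `EV ≤ (16 + 8/ε) 700 min (p, 1-p)`, `p = m 0 x`; `min (p, 1-p) ≤ 2 p (1-p) = (1 - Cf s o ∅ n 0 x ^ 2)/2`. (The walk with `n` steps from time `0` only pays at times `< n`, so `univ` can be
replaced by `Aj w n`: EV is the same, induction: for `n - i` steps from time `i`.) -/
def S_Emp : Prop := ∀ (w : ℕ) (ε : ℝ), 0 < ε → ε ≤ 1 / 2 → VR w ε → ∀ (s : ℕ → Fin w → Bool → Fin w) (o : Fin w → ℝ)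
  (n : ℕ) (x : Fin w), (∀ z, o z = 1 ∨ o z = -1) →
  EV s (fun _ => univ) (fun i y =>
      dl ((Cf s o ∅ (n - (i + 1)) (i + 1) (s i y false) + Cf s o ∅ (n - (i + 1)) (i + 1) (s i y true)) / 2)
         ((Cf s o ∅ (n - (i + 1)) (i + 1) (s i y false) - Cf s o ∅ (n - (i + 1)) (i + 1) (s i y true)) / 2)) 0 n 0 x ≤
    (5600 + 2800 / ε) * (1 - Cf s o ∅ n 0 x ^ 2)

/-- **Prv** (Parseval). Uses: nothing.
Proof. `∑_{T ⊆ Ico i n} (Cf s o T (n-i) i x)^2 = 1` by induction on `n - i` (recursion as in S_Chn: `U^2 + W^2 = (c_0^2 + c_1^2)/2`). -/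
def S_Prv : Prop := ∀ (w : ℕ) (s : ℕ → Fin w → Bool → Fin w) (o : Fin w → ℝ) (n : ℕ) (x : Fin w), (∀ z, o z ^ 2 = 1) →
  ∑ T ∈ (range n).powerset, Cf s o T n 0 x ^ 2 = 1

/-- **Prg** (the entropy of a program). Uses: S_Cls, S_Inf, S_Chn, S_Lev, S_Emp, S_Prv.
Proof. S_Chn; in the cost at `(i, y)` the sum over `T ∈ (Ico (i+1) n).powerset` is by S_Cls the term of `∅` plus `∑_{j ∈ Ico (i+1) n} ∑_{T ∈ (Ico (j+1) n).powerset}` of the terms of `insert j T`; `∑_{j ∈ Ico (i+1) n} = ∑_{j ∈ range n} (if i < j then .. else 0)`. EV_add0, EV_sum0; `EV s univ (if i < j then c else 0) = EV s (Aj w j) c`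
(EV_restrict: induction on the number of steps; for `u ≥ j` both are `0`). S_Lev for each `j < n`, S_Emp; `∑_j ∑_z pr J = I` (S_Inf), `1 - Cf ∅^2 = ∑_{T ≠ ∅} Cf^2 ≤ ∑ |T| Cf^2 = I` (S_Prv). (Also for `i ≥ n` the cost in S_Chn is never paid; the inequality `≤` term by term is only needed inside EV.) -/
def S_Prg : Prop := ∀ (w : ℕ) (ε : ℝ), 0 < ε → ε ≤ 1 / 2 → VR w ε → ∀ (s : ℕ → Fin w → Bool → Fin w) (o : Fin w → ℝ)
  (n : ℕ) (x : Fin w), (∀ z, o z = 1 ∨ o z = -1) →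
  ∑ T ∈ (range n).powerset, hh (Cf s o T n 0 x ^ 2) ≤
    (5600 + 2800 / ε + 2800 * w + (1400 + 24 * w) * w ^ 2 / ε) *
      ∑ T ∈ (range n).powerset, (T.card : ℝ) * Cf s o T n 0 x ^ 2

end Pool.Agent.MP3145b1.RB
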