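import Pool.Agent.Lib.MP_3145b1_co.RB.Spec
import Pool.Agent.Lib.MP_3145b1_co.Q.Main

/-!
# MP_3145b1_co, project RB: Fourier coefficients, order of the variables, final statement
-/

set_option autoImplicit false

namespace Pool.Agent.MP3145b1.RB

open Finset Pool.Agent.MP3145b1

/-- the state after `i` bits: `run 0` is the initial state, and the bit `y i` leads from the state at time `i` to the
state at time `i + 1` -/
def run {w : ℕ} (s : ℕ → Fin w → Bool → Fin w) (x0 : Fin w) (y : ℕ → Bool) : ℕ → Fin w
  | 0 => x0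
  | i + 1 => s i (run s x0 y i) (y i)

/-- the bits read by the program: at time `i < n` the variable `π i` -/
def bits {n : ℕ} (π : Equiv.Perm (Fin n)) (x : Fin n → Bool) : ℕ → Bool :=
  fun i => if h : i < n then x (π ⟨i, h⟩) else false

/-- `f` is computed by a read-once branching program of width `w`: there are an order `π` of the variables, an
initial state `x0`, transitions `s i` for each time `i` and a set `o` of accepting states such that `f x = -1` if the
state after reading all the variables is accepting and `f x = 1` otherwise. -/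
def IsRobp (w : ℕ) {n : ℕ} (f : (Fin n → Bool) → ℝ) : Prop :=
  ∃ (π : Equiv.Perm (Fin n)) (s : ℕ → Fin w → Bool → Fin w) (x0 : Fin w) (o : Fin w → Bool),
    ∀ x : Fin n → Bool, f x = if o (run s x0 (bits π x) n) then -1 else 1

/-- **Fou** (Fourier coefficients of a program). Uses: nothing.
Proof. Generalise: `rn k i x y` = the state after `k` bits `y 0, y 1, ..` starting from `x` at time `i`: `rn 0 i x y = x`, `rn (k+1) i x y = rn k (i+1) (s i x (y 0)) (fun j => y (j+1))`; then `run s x0 y n = rn n 0 x0 y` (induction; first prove `rn (k+1) i x y = s (i+k) (rn k i x y) (y k)`).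
Claim, by induction on `k`, for all `i, x` and `S : Finset (Fin k)`: `(1/2^k) ∑_{x' : Fin k → Bool} o (rn k i x (bits 1 x')) ∏_{j ∈ S} (if x' j then -1 else 1) = Cf s o (S.map ⟨fun j => i + j, _⟩) k i x`. For `k + 1`: sum over `Fin (k+1) → Bool` = sum over `b` and `x''` of `Fin.cons b x''`
(Fin.consEquiv, Fintype.sum_equiv, or Fin.cons induction), `bits 1 (Fin.cons b x'') 0 = b`, `bits 1 (Fin.cons b x'') (j+1) = bits 1 x'' j`, the product over `S` is the product over `univ` of `if j ∈ S ∧ x' j` (Fin.prod_univ_succ): the factor of `0` times the one of `S' = {j | j.succ ∈ S}`;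
`i ∈ S.map .. ↔ 0 ∈ S`, and `Cf` at times `≥ i + 1` only depends on the elements `≥ i + 1` of the set (Cf_congr: if `∀ j ≥ i, j ∈ T ↔ j ∈ T'` then `Cf s o T k i x = Cf s o T' k i x`). -/
def S_Fou : Prop := ∀ (w n : ℕ) (s : ℕ → Fin w → Bool → Fin w) (x0 : Fin w) (o : Fin w → ℝ) (f : (Fin n → Bool) → ℝ),
  (∀ x, f x = o (run s x0 (bits 1 x) n)) → ∀ S : Finset (Fin n),
    coeff f S = Cf s o (S.map Fin.valEmbedding) n 0 x0

/-- **Prm** (order of the variables). Uses: nothing.
Proof. `g x = f (fun i => x (π i))`. `coeff g S = coeff f (S.map π.symm.toEmbedding)`: substitute `y = x ∘ π` (Equiv.sum_comp with the equivalence `x ↦ x ∘ π`, Equiv.arrowCongr or an explicit one), `∏_{i ∈ S} sgn (x i) = ∏_{i ∈ S} sgn (y (π.symm i)) = ∏_{j ∈ S.map π.symm} sgn (y j)` (Finset.prod_map).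
`S ↦ S.map π.symm` is a bijection of `Finset (Fin n)` (Equiv.finsetCongr) and preserves the cardinality. -/
def S_Prm : Prop := ∀ (n : ℕ) (π : Equiv.Perm (Fin n)) (f : (Fin n → Bool) → ℝ),
  specEntropy (fun x => f (fun i => x (π i))) = specEntropy f ∧
  influence (fun x => f (fun i => x (π i))) = influence f

/-- **Fin** (final statement). Uses: S_Var, S_Prg, S_Fou, S_Prm.
Proof. `w = 0`: there is no `x0`, `C = 1`. `w ≥ 1`: `ε` from S_Var, `C0 = 5600 + 2800/ε + 2800 w + (1400 + 24 w) w^2/ε`, `C = C0 / log 2`. `f x = F (fun i => x (π i))` with `F y = O (run s x0 (bits 1 y) n)`, `O z = if o z then -1 else 1` (`bits π x = bits 1 (x ∘ π)`). By S_Prm it is enough to treat `F`. S_Fou: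
`coeff F S = Cf s O (S.map Fin.valEmbedding) n 0 x0`, `S ↦ S.map Fin.valEmbedding` is a bijection from `Finset (Fin n)` to `(range n).powerset` which preserves the cardinality, so the two sums in S_Prg are `log 2 * specEntropy F` (`t logb 2 (1/t) = negMulLog t / log 2`, also for `t = 0`) and `influence F`.
The second claim: `large` (Q/Main.lean) with `B = C * influence f` (`f` has values `± 1`). -/
def S_Fin : Prop := ∀ w : ℕ, ∃ C : ℝ, 0 < C ∧ ∀ (n : ℕ) (f : (Fin n → Bool) → ℝ), IsRobp w f →
  specEntropy f ≤ C * influence f ∧ ∃ S : Finset (Fin n), (2 : ℝ) ^ (-(C * influence f / 2)) ≤ |coeff f S|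

end Pool.Agent.MP3145b1.RB
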